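import Mathlib

set_option autoImplicit false

/-! Project LE (MP_032421_nt): definitions. -/

namespace Pool.Agent.H15.LE

open Finset

/-! ### asymptotic expansions of sequences, scale `w` -/

/-- `f n ~ ∑ F_k / (w n)^k` to all orders (for all `n ≥ 1`) -/
def HasExp (w : ℕ → ℝ) (f : ℕ → ℝ) (F : PowerSeries ℝ) : Prop :=
  ∀ R : ℕ, ∃ C : ℝ, ∀ n : ℕ, 1 ≤ n →
    |f n - ∑ k ∈ range R, PowerSeries.coeff k F * ((w n)⁻¹) ^ k| ≤ C * ((w n)⁻¹) ^ R

/-- `f` is approximated to every order by polynomials in `1 / w n` -/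
def Good (w : ℕ → ℝ) (f : ℕ → ℝ) : Prop :=
  ∀ R : ℕ, ∃ P : Polynomial ℝ, ∃ C : ℝ, ∀ n : ℕ, 1 ≤ n →
    |f n - P.eval ((w n)⁻¹)| ≤ C * ((w n)⁻¹) ^ R

/-- the scale is comparable with `n` from below -/
def Scale (w : ℕ → ℝ) : Prop := ∃ c : ℝ, 0 < c ∧ ∀ n : ℕ, 1 ≤ n → c * n ≤ w n

/-- the scale `n` -/
def idn : ℕ → ℝ := fun n => (n : ℝ)

/-- coefficients of `exp (arctan (t / (1 + t)))` -/
noncomputable def eC : ℕ → ℝ
  | 0 => 1
  | 1 => 1
  | (k + 2) => ((1 - 2 * ((k : ℝ) + 1)) * eC (k + 1) - 2 * (k : ℝ) * eC k) / ((k : ℝ) + 2)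

/-- the power series of `exp (arctan (t / (1 + t)))` -/
noncomputable def eS : PowerSeries ℝ := PowerSeries.mk eC

/-- the ratio `exp (arctan (1 / (n + 1))) * (n / (n + 1))` -/
noncomputable def dn (n : ℕ) : ℝ :=
  Real.exp (Real.arctan (1 / ((n : ℝ) + 1))) * ((n : ℝ) / ((n : ℝ) + 1))

/-! ### the formal side -/

/-- coefficient of `z ^ e` in `N(z) ^ b`, `N(z) = z φ(1/z)` -/
noncomputable def cc (φ : PowerSeries ℝ) (b : ℕ) (e : ℤ) : ℝ :=
  if e ≤ b then PowerSeries.coeff ((b : ℤ) - e).toNat (φ ^ b) else 0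

variable {I : Type} [Fintype I] [DecidableEq I]

/-- exponents of the monomials -/
abbrev AA (I : Type) (Dg : ℕ) : Type := I → Fin (Dg + 1)

/-- coefficient of `z ^ e` in the monomial `x ^ a` -/
noncomputable def Phi (φ : PowerSeries ℝ) (a : I → ℕ) (e : I → ℤ) : ℝ := ∏ l, cc φ (a l) (e l)

/-- the natural exponents of `a` -/
def nat {Dg : ℕ} (a : AA I Dg) : I → ℕ := fun l => ((a l : Fin (Dg + 1)) : ℕ)

/-- box of exponents -/
noncomputable def EE (I : Type) [Fintype I] [DecidableEq I] (R Dg : ℕ) : Finset (I → ℤ) :=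
  Fintype.piFinset (fun _ : I => Finset.Icc (-(R : ℤ)) (Dg : ℤ))

/-- how many times `α` is taken out of `e` -/
def kap (α : I → ℤ) (l0 : I) (e : I → ℤ) : ℤ := e l0 / α l0

/-- canonical representative of `e` modulo `ℤ α` -/
def can (α : I → ℤ) (l0 : I) (e : I → ℤ) : I → ℤ := fun l => e l - kap α l0 e * α l

/-- `β` is not a rational multiple of `α` -/
def NonPar (α β : I → ℤ) : Prop := ¬ ∃ r s : ℤ, s ≠ 0 ∧ ∀ l, s * β l = r * α l

/-- the determinant of coefficients -/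
noncomputable def dPhi (φ : PowerSeries ℝ) {Dg : ℕ} (f : AA I Dg → (I → ℤ)) : ℝ :=
  Matrix.det (Matrix.of fun i a : AA I Dg => Phi φ (nat a) (f i))

/-- all families of exponents in the box -/
noncomputable def FF (I : Type) [Fintype I] [DecidableEq I] (R Dg : ℕ) : Finset (AA I Dg → (I → ℤ)) :=
  Fintype.piFinset (fun _ : AA I Dg => EE I R Dg)

/-- the label of a family of exponents: canonical parts and total multiple of `α` -/
def lab (α : I → ℤ) (l0 : I) {Dg : ℕ} (f : AA I Dg → (I → ℤ)) : (AA I Dg → (I → ℤ)) × ℤ :=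
  (fun i => can α l0 (f i), ∑ i, kap α l0 (f i))

/-- coefficient of the label `μ` in the determinant, truncated at `R` -/
noncomputable def cR (φ : PowerSeries ℝ) (α : I → ℤ) (l0 : I) {Dg : ℕ} (R : ℕ)
    (μ : (AA I Dg → (I → ℤ)) × ℤ) : ℝ :=
  ∑ f ∈ (FF I R Dg).filter (fun f => lab α l0 f = μ), dPhi φ f

/-- monomial `y ^ e` -/
noncomputable def mono (y : I → ℝ) (e : I → ℤ) : ℝ := ∏ l, (y l) ^ (e l)

/-- truncated expansion of the monomial `x ^ a` -/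
noncomputable def mainT (φ : PowerSeries ℝ) {Dg : ℕ} (R : ℕ) (a : AA I Dg) (y : I → ℝ) : ℝ :=
  ∑ e ∈ EE I R Dg, Phi φ (nat a) e * mono y e

/-! ### the arithmetic side -/

/-- window: `X ≤ j ≤ (1 + 1/m) X` -/
def InW (m X j : ℕ) : Prop := X ≤ j ∧ m * j ≤ (m + 1) * X

/-- the integers `x j` (`j ∈ J`) are `N(K q^j)` up to order `Rn` -/
def App (q K : ℝ) (φ : PowerSeries ℝ) (J : Set ℕ) (x : ℕ → ℤ) (Rn : ℕ) : Prop :=
  ∀ b R : ℕ, b ≤ Rn → R ≤ Rn → ∃ C : ℝ, ∀ j ∈ J,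
    |((x j : ℤ) : ℝ) ^ b - ∑ e ∈ Finset.Icc (-(R : ℤ)) b, cc φ b e * (K * q ^ j) ^ e| ≤
      C * (K * q ^ j) ^ (-(R : ℤ) - 1)

end Pool.Agent.H15.LE
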