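import Pool.Agent.H15.LE.Defs
import Pool.Agent.H87.TanSum.Link

set_option autoImplicit false

namespace Pool.Agent.H15.LE

open Pool.Agent.H87.TanSum

/-- exceptional integers of order `r`: one of `|A_n|`, `|B_n|` is `n ^ r` times larger -/
def Exc (r n : ℕ) : Prop :=
  1 ≤ n ∧ ((n : ℤ) ^ r * |(ZZ n).re| ≤ |(ZZ n).im| ∨ (n : ℤ) ^ r * |(ZZ n).im| ≤ |(ZZ n).re|)

end Pool.Agent.H15.LE
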