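import Pool.Agent.H15.LE.Defs

set_option autoImplicit false

/-! Project LE, row 11: expansion of the determinant of the truncated rows, grouped by labels. -/

namespace Pool.Agent.H15.LE

open Finset

variable {I : Type} [Fintype I] [DecidableEq I]

theorem le11_expand (φ : PowerSeries ℝ) {Dg : ℕ} (R : ℕ) (y : AA I Dg → (I → ℝ)) :
    Matrix.det (Matrix.of fun i a : AA I Dg => mainT φ R a (y i)) =
      ∑ f ∈ FF I R Dg, dPhi φ f * ∏ i, mono (y i) (f i) := by
  have h1 : (Matrix.of fun i a : AA I Dg => mainT φ R a (y i)) =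
      fun i => ∑ e ∈ EE I R Dg, (fun a : AA I Dg => mono (y i) e * Phi φ (nat a) e) := by
    ext i a
    rw [Finset.sum_apply]
    simp only [Matrix.of_apply, mainT]
    apply Finset.sum_congr rfl
    intro e _
    ring
  have h2 := (Matrix.detRowAlternating (R := ℝ) (n := AA I Dg)).toMultilinearMap.map_sum_finset
    (fun (i : AA I Dg) (e : I → ℤ) => (fun a : AA I Dg => mono (y i) e * Phi φ (nat a) e))
    (fun _ => EE I R Dg)
  have h3 : Matrix.det (Matrix.of fun i a : AA I Dg => mainT φ R a (y i)) =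
      Matrix.detRowAlternating (R := ℝ) (n := AA I Dg)
        (Matrix.of fun i a : AA I Dg => mainT φ R a (y i)) := rfl
  rw [h3, h1]
  refine Eq.trans h2 ?_
  unfold FF
  apply Finset.sum_congr rfl
  intro f _
  have h4 := Matrix.det_mul_column (fun i : AA I Dg => mono (y i) (f i))
    (Matrix.of fun i a : AA I Dg => Phi φ (nat a) (f i))
  unfold dPhi
  rw [mul_comm, ← h4]
  rfl

theorem le11_mono (α : I → ℤ) (l0 : I) (y : I → ℝ) (hy : ∀ l, 0 < y l) (W : ℝ)
    (hW : mono y α = W) (e : I → ℤ) :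
    mono y e = W ^ (kap α l0 e) * mono y (can α l0 e) := by
  unfold mono at hW ⊢
  rw [← hW, ← Finset.prod_zpow, ← Finset.prod_mul_distrib]
  apply Finset.prod_congr rfl
  intro l _
  rw [← zpow_mul, ← zpow_add₀ (hy l).ne']
  congr 1
  unfold can
  ring

theorem le11_monos (α : I → ℤ) (l0 : I) {Dg : ℕ} 
    (y : AA I Dg → (I → ℝ)) (hy : ∀ i l, 0 < y i l) (W : ℝ) (hW : ∀ i, mono (y i) α = W)
    (f : AA I Dg → (I → ℤ)) :
    ∏ i, mono (y i) (f i) = W ^ (lab α l0 f).2 * ∏ i, mono (y i) ((lab α l0 f).1 i) := by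
  unfold lab
  simp only
  have hW0 : W ≠ 0 := by
    have : 0 < mono (y 0) α := Finset.prod_pos fun l _ => zpow_pos (hy _ l) _
    rw [hW] at this
    exact this.ne'
  rw [Finset.prod_congr rfl fun i _ => le11_mono α l0 (y i) (hy i) W (hW i) (f i),
    Finset.prod_mul_distrib]
  congr 1
  have h1 : ∀ s : Finset (AA I Dg), ∏ i ∈ s, W ^ (kap α l0 (f i)) =
      W ^ (∑ i ∈ s, kap α l0 (f i)) := by
    intro s
    induction s using Finset.induction_on with
    | empty => simp
    | insert i s hi ih => rw [Finset.prod_insert hi, Finset.sum_insert hi, ih, zpow_add₀ hW0]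
  exact h1 _

/-- expansion of the determinant of the truncated rows, grouped by labels -/
theorem det_main (φ : PowerSeries ℝ) (α : I → ℤ) (l0 : I) (hl0 : 0 < α l0) {Dg : ℕ} (R : ℕ)
    (y : AA I Dg → (I → ℝ)) (hy : ∀ i l, 0 < y i l) (W : ℝ) (hW : ∀ i, mono (y i) α = W) :
    Matrix.det (Matrix.of fun i a : AA I Dg => mainT φ R a (y i)) =
      ∑ μ ∈ (FF I R Dg).image (lab α l0), cR φ α l0 R μ * (W ^ μ.2 * ∏ i, mono (y i) (μ.1 i)) := by
  rw [le11_expand, ← Finset.sum_fiberwise_of_maps_to (s := FF I R Dg)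
    (t := (FF I R Dg).image (lab α l0)) (g := lab α l0) (fun f hf => Finset.mem_image_of_mem _ hf)]
  apply Finset.sum_congr rfl
  intro μ _
  unfold cR
  rw [Finset.sum_mul]
  apply Finset.sum_congr rfl
  intro f hf
  rw [Finset.mem_filter] at hf
  rw [le11_monos α l0 y hy W hW f, hf.2]

theorem le11_swap (φ : PowerSeries ℝ) {Dg : ℕ} (f : AA I Dg → (I → ℤ)) (i i' : AA I Dg)
    (h : i ≠ i') : dPhi φ (fun j => f (Equiv.swap i i' j)) = - dPhi φ f := by
  unfold dPhi
  have h1 := Matrix.det_permute (Equiv.swap i i')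
    (Matrix.of fun i a : AA I Dg => Phi φ (nat a) (f i))
  rw [Equiv.Perm.sign_swap h] at h1
  have h2 : (Matrix.of fun j a : AA I Dg => Phi φ (nat a) (f (Equiv.swap i i' j))) =
      (Matrix.of fun i a : AA I Dg => Phi φ (nat a) (f i)).submatrix (Equiv.swap i i') id := rfl
  rw [h2, h1]
  simp

theorem le11_zero (φ : PowerSeries ℝ) (α : I → ℤ) (l0 : I) {Dg : ℕ} (R : ℕ)
    (μ : (AA I Dg → (I → ℤ)) × ℤ) (i i' : AA I Dg) (h : i ≠ i') (hμ : μ.1 i = μ.1 i') :
    cR φ α l0 R μ = 0 := by
  have h1 : cR φ α l0 R μ = - cR φ α l0 R μ := by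
    unfold cR
    rw [← Finset.sum_neg_distrib]
    have hmem : ∀ f ∈ (FF I R Dg).filter (fun f => lab α l0 f = μ),
        (fun j => f (Equiv.swap i i' j)) ∈ (FF I R Dg).filter (fun f => lab α l0 f = μ) := by
      intro f hf
      rw [Finset.mem_filter] at hf ⊢
      obtain ⟨hf1, hf2⟩ := hf
      refine ⟨?_, ?_⟩
      · unfold FF at hf1 ⊢
        rw [Fintype.mem_piFinset] at hf1 ⊢
        intro j
        exact hf1 _
      · rw [← hf2]
        have h3 : ∀ j, can α l0 (f j) = μ.1 j := fun j => by rw [← hf2]; rfl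
        unfold lab
        refine Prod.ext ?_ ?_
        · funext j
          simp only
          rw [h3, h3]
          by_cases hj : j = i
          · rw [hj, Equiv.swap_apply_left, hμ]
          · by_cases hj' : j = i'
            · rw [hj', Equiv.swap_apply_right, hμ]
            · rw [Equiv.swap_apply_of_ne_of_ne hj hj']
        · simp only
          exact Equiv.sum_comp (Equiv.swap i i') (fun j => kap α l0 (f j))
    apply Finset.sum_nbij' (fun f j => f (Equiv.swap i i' j)) (fun f j => f (Equiv.swap i i' j))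
    · exact hmem
    · exact hmem
    · intro f _
      funext j
      simp only [Equiv.swap_apply_self]
    · intro f _
      funext j
      simp only [Equiv.swap_apply_self]
    · intro f _
      rw [le11_swap φ f i i' h, neg_neg]
  linarith

/-- only families with distinct classes contribute -/
theorem det_main_inj (φ : PowerSeries ℝ) (α : I → ℤ) (l0 : I) (hl0 : 0 < α l0) {Dg : ℕ} (R : ℕ)
    (y : AA I Dg → (I → ℝ)) (hy : ∀ i l, 0 < y i l) (W : ℝ) (hW : ∀ i, mono (y i) α = W) :
    Matrix.det (Matrix.of fun i a : AA I Dg => mainT φ R a (y i)) =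
      ∑ f ∈ (FF I R Dg).filter
        (fun f => ∀ i i', i ≠ i' → can α l0 (f i) ≠ can α l0 (f i')),
        dPhi φ f * ∏ i, mono (y i) (f i) := by
  rw [le11_expand, ← Finset.sum_filter_add_sum_filter_not (FF I R Dg)
    (fun f => ∀ i i', i ≠ i' → can α l0 (f i) ≠ can α l0 (f i'))]
  have h1 : ∑ f ∈ (FF I R Dg).filter
      (fun f => ¬ ∀ i i', i ≠ i' → can α l0 (f i) ≠ can α l0 (f i')),
        dPhi φ f * ∏ i, mono (y i) (f i) = 0 := by
    rw [← Finset.sum_fiberwise_of_maps_to
      (t := (FF I R Dg).image (lab α l0)) (g := lab α l0)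
      (fun f hf => Finset.mem_image_of_mem _ (Finset.mem_filter.1 hf).1)]
    apply Finset.sum_eq_zero
    intro μ _
    by_cases hμ : ∀ i i' : AA I Dg, i ≠ i' → μ.1 i ≠ μ.1 i'
    · apply Finset.sum_eq_zero
      intro f hf
      exfalso
      rw [Finset.mem_filter, Finset.mem_filter] at hf
      obtain ⟨⟨_, hf1⟩, hf2⟩ := hf
      apply hf1
      intro i i' hii
      have h3 : ∀ j, can α l0 (f j) = μ.1 j := fun j => by rw [← hf2]; rfl
      rw [h3, h3]
      exact hμ i i' hii
    · have h2 : ((FF I R Dg).filter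
          (fun f => ¬ ∀ i i', i ≠ i' → can α l0 (f i) ≠ can α l0 (f i'))).filter
            (fun f => lab α l0 f = μ) = (FF I R Dg).filter (fun f => lab α l0 f = μ) := by
        ext f
        rw [Finset.mem_filter, Finset.mem_filter, Finset.mem_filter]
        constructor
        · rintro ⟨⟨h3, _⟩, h4⟩
          exact ⟨h3, h4⟩
        · rintro ⟨h3, h4⟩
          refine ⟨⟨h3, ?_⟩, h4⟩
          intro h5
          apply hμ
          intro i i' hii
          have h6 : ∀ j, can α l0 (f j) = μ.1 j := fun j => by rw [← h4]; rfl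
          rw [← h6, ← h6]
          exact h5 i i' hii
      rw [h2]
      push Not at hμ
      obtain ⟨i, i', hii, hμ⟩ := hμ
      have h7 := le11_zero φ α l0 R μ i i' hii hμ
      unfold cR at h7
      have h8 : ∑ f ∈ (FF I R Dg).filter (fun f => lab α l0 f = μ),
          dPhi φ f * ∏ i, mono (y i) (f i) =
          (∑ f ∈ (FF I R Dg).filter (fun f => lab α l0 f = μ), dPhi φ f) *
            (W ^ μ.2 * ∏ i, mono (y i) (μ.1 i)) := by
        rw [Finset.sum_mul]
        apply Finset.sum_congr rfl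
        intro f hf
        rw [Finset.mem_filter] at hf
        rw [le11_monos α l0 y hy W hW f, hf.2]
      rw [h8, h7, zero_mul]
  rw [h1, add_zero]

end Pool.Agent.H15.LE
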