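import Pool.Agent.H15.LE.Defs

set_option autoImplicit false

/-! LE-03: the power series of `exp (arctan (t / (1 + t)))`. -/

namespace Pool.Agent.H15.LE

open Finset

theorem le03_rec (k : ℕ) : ((k : ℝ) + 2) * eC (k + 2)
    = (1 - 2 * ((k : ℝ) + 1)) * eC (k + 1) - 2 * (k : ℝ) * eC k := by
  have h : ((k : ℝ) + 2) ≠ 0 := by positivity
  show ((k : ℝ) + 2) * (((1 - 2 * ((k : ℝ) + 1)) * eC (k + 1) - 2 * (k : ℝ) * eC k)
    / ((k : ℝ) + 2)) = _
  field_simp

theorem le03_e0 : eC 0 = 1 := rfl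

theorem le03_e1 : eC 1 = 1 := rfl

theorem eS_ode : (1 + 2 * PowerSeries.X + 2 * PowerSeries.X ^ 2) * PowerSeries.derivative ℝ eS = eS := by
  have h2 : (2 : PowerSeries ℝ) = PowerSeries.C (2 : ℝ) := by
    rw [map_ofNat]
  have hd : ∀ n, PowerSeries.coeff n (PowerSeries.derivative ℝ eS) = eC (n + 1) * ((n : ℝ) + 1) := by
    intro n
    rw [PowerSeries.coeff_derivative]
    simp [eS]
  have hS : ∀ n, PowerSeries.coeff n eS = eC n := by
    intro n
    simp [eS]
  ext n
  have hsplit : (1 + 2 * PowerSeries.X + 2 * PowerSeries.X ^ 2) * PowerSeries.derivative ℝ eS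
      = PowerSeries.derivative ℝ eS
        + PowerSeries.C (2 : ℝ) * (PowerSeries.X * PowerSeries.derivative ℝ eS)
        + PowerSeries.C (2 : ℝ) * (PowerSeries.X * (PowerSeries.X * PowerSeries.derivative ℝ eS)) := by
    rw [← h2]
    ring
  rw [hsplit]
  simp only [map_add, PowerSeries.coeff_C_mul, hS]
  rcases n with _ | n
  · rw [PowerSeries.coeff_zero_X_mul, PowerSeries.coeff_zero_X_mul, hd]
    simp [le03_e0, le03_e1]
  · rw [PowerSeries.coeff_succ_X_mul, PowerSeries.coeff_succ_X_mul, hd, hd]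
    rcases n with _ | n
    · rw [PowerSeries.coeff_zero_X_mul]
      have := le03_rec 0
      norm_num [le03_e0, le03_e1] at this ⊢
      linarith
    · rw [PowerSeries.coeff_succ_X_mul, hd]
      have := le03_rec (n + 1)
      push_cast at this ⊢
      linarith

/-- the remainder of the differential equation for the partial sums -/
theorem le03_ode (t : ℝ) (R : ℕ) :
    (1 + 2 * t + 2 * t ^ 2) * (∑ k ∈ range R, eC (k + 1) * ((k : ℝ) + 1) * t ^ k)
      - ∑ k ∈ range (R + 1), eC k * t ^ k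
      = -(((R : ℝ) + 1) * eC (R + 1) * t ^ R) + 2 * (R : ℝ) * eC R * t ^ (R + 1) := by
  induction R with
  | zero => simp [le03_e0, le03_e1]
  | succ R ih =>
    rw [sum_range_succ _ (R + 1), sum_range_succ _ R]
    have h := le03_rec R
    have e : (1 + 2 * t + 2 * t ^ 2) *
        (∑ k ∈ range R, eC (k + 1) * ((k : ℝ) + 1) * t ^ k + eC (R + 1) * ((R : ℝ) + 1) * t ^ R)
        - (∑ k ∈ range (R + 1), eC k * t ^ k + eC (R + 1) * t ^ (R + 1))
        = ((1 + 2 * t + 2 * t ^ 2) * (∑ k ∈ range R, eC (k + 1) * ((k : ℝ) + 1) * t ^ k)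
          - ∑ k ∈ range (R + 1), eC k * t ^ k)
          + (1 + 2 * t + 2 * t ^ 2) * (eC (R + 1) * ((R : ℝ) + 1) * t ^ R)
          - eC (R + 1) * t ^ (R + 1) := by ring
    rw [e, ih]
    push_cast
    have h' : ((R : ℝ) + 1 + 1) * eC (R + 1 + 1)
        = (1 - 2 * ((R : ℝ) + 1)) * eC (R + 1) - 2 * (R : ℝ) * eC R := by
      have : ((R : ℝ) + 1 + 1) = (R : ℝ) + 2 := by ring
      rw [this]
      exact h
    rw [h']
    ring

theorem le03_deriv (R : ℕ) (t : ℝ) :
    HasDerivAt (fun t : ℝ => ∑ k ∈ range (R + 1), eC k * t ^ k)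
      (∑ k ∈ range R, eC (k + 1) * ((k : ℝ) + 1) * t ^ k) t := by
  induction R with
  | zero =>
    simp only [zero_add, range_one, sum_singleton, pow_zero, range_zero, sum_empty, mul_one]
    exact hasDerivAt_const t _
  | succ R ih =>
    have h1 := ((hasDerivAt_pow (R + 1) t).const_mul (eC (R + 1)))
    have h2 := ih.add h1
    have e1 : (fun t : ℝ => ∑ k ∈ range (R + 1 + 1), eC k * t ^ k)
        = fun t : ℝ => (∑ k ∈ range (R + 1), eC k * t ^ k) + eC (R + 1) * t ^ (R + 1) := by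
      funext t
      rw [sum_range_succ]
    rw [e1, sum_range_succ]
    refine HasDerivAt.congr_deriv (f := fun t : ℝ => (∑ k ∈ range (R + 1), eC k * t ^ k)
      + eC (R + 1) * t ^ (R + 1)) h2 ?_
    rw [Nat.add_sub_cancel]
    push_cast
    ring

theorem le03_arctan (t : ℝ) (ht : 0 ≤ t) :
    HasDerivAt (fun t : ℝ => Real.arctan (t / (1 + t))) (1 / (1 + 2 * t + 2 * t ^ 2)) t := by
  have h1 : (1 + t) ≠ 0 := by positivity
  have hd : HasDerivAt (fun t : ℝ => t / (1 + t)) (1 / (1 + t) ^ 2) t := by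
    have h5 := (hasDerivAt_id t).div ((hasDerivAt_id t).const_add 1) h1
    refine HasDerivAt.congr_deriv (f := fun t : ℝ => t / (1 + t)) h5 ?_
    simp only [id]
    congr 1
    ring
  refine HasDerivAt.congr_deriv hd.arctan ?_
  have h2 : (1 + t) ^ 2 + t ^ 2 ≠ 0 := by positivity
  have h3 : 1 + 2 * t + 2 * t ^ 2 ≠ 0 := by positivity
  have h4 : (1 + (t / (1 + t)) ^ 2) ≠ 0 := by positivity
  field_simp
  ring

/-- the basic estimate -/
theorem le03_est (R : ℕ) : ∃ C : ℝ, ∀ t : ℝ, 0 ≤ t → t ≤ 1 →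
    |Real.exp (Real.arctan (t / (1 + t))) - ∑ k ∈ range R, eC k * t ^ k| ≤ C * t ^ R := by
  have hexp : ∀ y : ℝ, Real.exp (Real.arctan y) ≤ Real.exp (Real.pi / 2) := fun y =>
    Real.exp_le_exp.2 (Real.arctan_lt_pi_div_two y).le
  rcases R with _ | R
  · refine ⟨Real.exp (Real.pi / 2), fun t _ _ => ?_⟩
    rw [range_zero, sum_empty, sub_zero, abs_of_pos (Real.exp_pos _), pow_zero, mul_one]
    exact hexp _
  · set K : ℝ := ((R : ℝ) + 1) * |eC (R + 1)| + 2 * (R : ℝ) * |eC R| with hK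
    have hK0 : 0 ≤ K := by positivity
    refine ⟨Real.exp (Real.pi / 2) * K, fun t ht0 ht1 => ?_⟩
    set S : ℝ → ℝ := fun t => ∑ k ∈ range (R + 1), eC k * t ^ k with hS
    set a : ℝ → ℝ := fun t => Real.arctan (t / (1 + t)) with ha
    have hu : ∀ s ∈ Set.Icc (0 : ℝ) t, HasDerivWithinAt (fun s => S s * Real.exp (-a s))
        ((-(((R : ℝ) + 1) * eC (R + 1) * s ^ R) + 2 * (R : ℝ) * eC R * s ^ (R + 1))
          / (1 + 2 * s + 2 * s ^ 2) * Real.exp (-a s)) (Set.Icc 0 t) s := by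
      intro s hs
      have h1 := le03_deriv R s
      have h2 := (le03_arctan s hs.1).neg.exp
      have h3 := (h1.mul h2).hasDerivWithinAt (s := Set.Icc 0 t)
      refine HasDerivWithinAt.congr_deriv (f := fun s => S s * Real.exp (-a s)) h3 ?_
      have h4 : 1 + 2 * s + 2 * s ^ 2 ≠ 0 := by
        have := hs.1
        positivity
      have hE : Real.exp ((-fun t : ℝ => Real.arctan (t / (1 + t))) s) = Real.exp (-a s) := rfl
      rw [← le03_ode s R, hE]
      generalize Real.exp (-a s) = E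
      generalize (∑ k ∈ range R, eC (k + 1) * ((k : ℝ) + 1) * s ^ k) = A
      generalize (∑ k ∈ range (R + 1), eC k * s ^ k) = B
      rw [div_mul_eq_mul_div, eq_div_iff h4]
      generalize (1 + 2 * s + 2 * s ^ 2) = q at h4 ⊢
      field_simp
      ring
    have hb : ∀ s ∈ Set.Icc (0 : ℝ) t,
        ‖(-(((R : ℝ) + 1) * eC (R + 1) * s ^ R) + 2 * (R : ℝ) * eC R * s ^ (R + 1))
          / (1 + 2 * s + 2 * s ^ 2) * Real.exp (-a s)‖ ≤ K * t ^ R := by
      intro s hs
      have hs0 := hs.1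
      have hs1 : s ≤ 1 := hs.2.trans ht1
      have hsR : s ^ R ≤ t ^ R := pow_le_pow_left₀ hs0 hs.2 R
      have hsR1 : s ^ (R + 1) ≤ t ^ R := by
        rw [pow_succ]
        calc s ^ R * s ≤ s ^ R * 1 := by gcongr
          _ = s ^ R := mul_one _
          _ ≤ t ^ R := hsR
      have hden : 1 ≤ 1 + 2 * s + 2 * s ^ 2 := by nlinarith
      have hex : Real.exp (-a s) ≤ 1 := by
        rw [Real.exp_le_one_iff, neg_nonpos]
        exact Real.arctan_nonneg.2 (by positivity)
      have hnum : |-(((R : ℝ) + 1) * eC (R + 1) * s ^ R) + 2 * (R : ℝ) * eC R * s ^ (R + 1)|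
          ≤ K * t ^ R := by
        calc _ ≤ |-(((R : ℝ) + 1) * eC (R + 1) * s ^ R)| + |2 * (R : ℝ) * eC R * s ^ (R + 1)| :=
              abs_add_le _ _
          _ = ((R : ℝ) + 1) * |eC (R + 1)| * s ^ R + 2 * (R : ℝ) * |eC R| * s ^ (R + 1) := by
              rw [abs_neg, abs_mul, abs_mul, abs_mul, abs_mul, abs_mul,
                abs_of_nonneg (by positivity : (0 : ℝ) ≤ (R : ℝ) + 1),
                abs_of_nonneg (by positivity : (0 : ℝ) ≤ s ^ R),
                abs_of_nonneg (by positivity : (0 : ℝ) ≤ s ^ (R + 1)),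
                abs_of_nonneg (by positivity : (0 : ℝ) ≤ (R : ℝ)), abs_two]
          _ ≤ ((R : ℝ) + 1) * |eC (R + 1)| * t ^ R + 2 * (R : ℝ) * |eC R| * t ^ R := by gcongr
          _ = K * t ^ R := by rw [hK]; ring
      rw [Real.norm_eq_abs, abs_mul, abs_div, abs_of_pos (by linarith : 0 < 1 + 2 * s + 2 * s ^ 2),
        abs_of_pos (Real.exp_pos _)]
      calc _ ≤ |-(((R : ℝ) + 1) * eC (R + 1) * s ^ R) + 2 * (R : ℝ) * eC R * s ^ (R + 1)| / 1 * 1 := by
            gcongr
        _ ≤ K * t ^ R := by rw [div_one, mul_one]; exact hnum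
    have mv := (convex_Icc (0 : ℝ) t).norm_image_sub_le_of_norm_hasDerivWithin_le hu hb
      (Set.left_mem_Icc.2 ht0) (Set.right_mem_Icc.2 ht0)
    have hS0 : S 0 = 1 := by
      rw [hS]
      simp only
      rw [sum_range_succ']
      simp [le03_e0]
    have ha0 : a 0 = 0 := by simp [ha]
    rw [hS0, ha0, neg_zero, Real.exp_zero, mul_one, sub_zero, Real.norm_eq_abs, Real.norm_eq_abs,
      abs_of_nonneg ht0] at mv
    have e : Real.exp (a t) - S t = -(Real.exp (a t) * (S t * Real.exp (-a t) - 1)) := by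
      have : Real.exp (a t) * Real.exp (-a t) = 1 := by
        rw [← Real.exp_add, add_neg_cancel, Real.exp_zero]
      linear_combination (S t) * this
    show |Real.exp (a t) - S t| ≤ _
    rw [e, abs_neg, abs_mul, abs_of_pos (Real.exp_pos _)]
    calc Real.exp (a t) * |S t * Real.exp (-a t) - 1|
        ≤ Real.exp (Real.pi / 2) * (K * t ^ R * t) := by
          gcongr
          exact (Real.arctan_lt_pi_div_two _).le
      _ = Real.exp (Real.pi / 2) * K * t ^ (R + 1) := by ring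

theorem le03_t {n : ℕ} (hn : 1 ≤ n) : 0 ≤ (idn n)⁻¹ ∧ (idn n)⁻¹ ≤ 1 ∧
    (idn n)⁻¹ / (1 + (idn n)⁻¹) = 1 / ((n : ℝ) + 1) ∧
    (n : ℝ) / ((n : ℝ) + 1) = 1 / (1 + (idn n)⁻¹) := by
  have h1 : (1 : ℝ) ≤ n := by exact_mod_cast hn
  have h0 : (0 : ℝ) < n := by linarith
  have h2 : ((n : ℝ) + 1) ≠ 0 := by positivity
  refine ⟨?_, ?_, ?_, ?_⟩
  · show 0 ≤ (n : ℝ)⁻¹
    positivity
  · show (n : ℝ)⁻¹ ≤ 1
    exact inv_le_one_of_one_le₀ h1
  · show (n : ℝ)⁻¹ / (1 + (n : ℝ)⁻¹) = 1 / ((n : ℝ) + 1)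
    field_simp
  · show (n : ℝ) / ((n : ℝ) + 1) = 1 / (1 + (n : ℝ)⁻¹)
    field_simp

theorem exp_arctan_hasExp : HasExp idn (fun n => Real.exp (Real.arctan (1 / ((n : ℝ) + 1)))) eS := by
  intro R
  obtain ⟨C, hC⟩ := le03_est R
  refine ⟨C, fun n hn => ?_⟩
  obtain ⟨h0, h1, h2, -⟩ := le03_t hn
  have h := hC _ h0 h1
  rw [h2] at h
  simpa [eS] using h

/-- coefficients of `eS / (1 + X)` -/
noncomputable def le03_dC : ℕ → ℝ
  | 0 => 1
  | (k + 1) => eC (k + 1) - le03_dC k

theorem le03_dsum (t : ℝ) (R : ℕ) :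
    (1 + t) * (∑ k ∈ range (R + 1), le03_dC k * t ^ k)
      = (∑ k ∈ range (R + 1), eC k * t ^ k) + le03_dC R * t ^ (R + 1) := by
  induction R with
  | zero => simp [le03_dC, le03_e0]
  | succ R ih =>
    rw [sum_range_succ _ (R + 1), sum_range_succ _ (R + 1), mul_add, ih]
    have : le03_dC (R + 1) = eC (R + 1) - le03_dC R := rfl
    rw [this]
    ring

theorem dn_hasExp : ∃ D : PowerSeries ℝ, HasExp idn dn D ∧ PowerSeries.coeff 0 D = 1 ∧
    PowerSeries.coeff 1 D = 0 ∧ D * (1 + PowerSeries.X) = eS := by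
  refine ⟨PowerSeries.mk le03_dC, ?_, ?_, ?_, ?_⟩
  · intro R
    rcases R with _ | R
    · refine ⟨Real.exp (Real.pi / 2), fun n hn => ?_⟩
      rw [range_zero, sum_empty, sub_zero, pow_zero, mul_one]
      have h1 : (0 : ℝ) ≤ n := Nat.cast_nonneg n
      have h2 : (n : ℝ) / ((n : ℝ) + 1) ≤ 1 := by
        rw [div_le_one (by positivity)]
        linarith
      have h3 : 0 ≤ (n : ℝ) / ((n : ℝ) + 1) := by positivity
      unfold dn
      rw [abs_mul, abs_of_pos (Real.exp_pos _), abs_of_nonneg h3]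
      calc _ ≤ Real.exp (Real.pi / 2) * 1 := by
            gcongr
            exact (Real.arctan_lt_pi_div_two _).le
        _ = _ := mul_one _
    · obtain ⟨C, hC⟩ := le03_est (R + 1)
      refine ⟨C + |le03_dC R|, fun n hn => ?_⟩
      obtain ⟨h0, h1, h2, h3⟩ := le03_t hn
      have h := hC _ h0 h1
      rw [h2] at h
      set t := (idn n)⁻¹ with ht
      have hsum : ∑ k ∈ range (R + 1), PowerSeries.coeff k (PowerSeries.mk le03_dC) * t ^ k
          = ∑ k ∈ range (R + 1), le03_dC k * t ^ k := by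
        apply sum_congr rfl
        intro k _
        rw [PowerSeries.coeff_mk]
      rw [hsum]
      have hpos : 0 < 1 + t := by linarith
      have hds := le03_dsum t R
      have key : dn n - ∑ k ∈ range (R + 1), le03_dC k * t ^ k
          = ((Real.exp (Real.arctan (1 / ((n : ℝ) + 1))) - ∑ k ∈ range (R + 1), eC k * t ^ k)
            - le03_dC R * t ^ (R + 1)) / (1 + t) := by
        unfold dn
        rw [h3, eq_div_iff hpos.ne', sub_mul, mul_comm (∑ k ∈ range (R + 1), le03_dC k * t ^ k),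
          hds]
        field_simp
        ring
      rw [key, abs_div, abs_of_pos hpos, div_le_iff₀ hpos]
      have htR : 0 ≤ t ^ (R + 1) := by positivity
      calc |(Real.exp (Real.arctan (1 / ((n : ℝ) + 1))) - ∑ k ∈ range (R + 1), eC k * t ^ k)
            - le03_dC R * t ^ (R + 1)|
          ≤ |Real.exp (Real.arctan (1 / ((n : ℝ) + 1))) - ∑ k ∈ range (R + 1), eC k * t ^ k|
            + |le03_dC R * t ^ (R + 1)| := abs_sub _ _
        _ ≤ C * t ^ (R + 1) + |le03_dC R| * t ^ (R + 1) := by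
            rw [abs_mul, abs_of_nonneg htR]
            gcongr
        _ = (C + |le03_dC R|) * t ^ (R + 1) * 1 := by ring
        _ ≤ (C + |le03_dC R|) * t ^ (R + 1) * (1 + t) := by
            have hC0 : 0 ≤ (C + |le03_dC R|) * t ^ (R + 1) := by
              have := (abs_nonneg _).trans h
              have h5 : 0 ≤ |le03_dC R| * t ^ (R + 1) := by positivity
              nlinarith
            apply mul_le_mul_of_nonneg_left _ hC0
            linarith
  · rw [PowerSeries.coeff_mk]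
    rfl
  · rw [PowerSeries.coeff_mk]
    show eC 1 - 1 = 0
    rw [le03_e1, sub_self]
  · ext n
    rw [mul_add, mul_one, map_add]
    rcases n with _ | n
    · rw [PowerSeries.coeff_zero_mul_X]
      simp [eS, le03_dC, le03_e0]
    · rw [PowerSeries.coeff_succ_mul_X, PowerSeries.coeff_mk, PowerSeries.coeff_mk]
      show eC (n + 1) - le03_dC n + le03_dC n = PowerSeries.coeff (n + 1) eS
      rw [eS, PowerSeries.coeff_mk]
      ring

end Pool.Agent.H15.LE
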