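import Mathlib
import Pool.Agent.H15.LE.Defs

set_option autoImplicit false

/-!
# A power series solution of a first order equation is transcendental (project LE, row LE-04)

If `E 0 = 1` and `(1 + 2 X + 2 X ^ 2) E' = E`, then `E` is transcendental over `ℝ[X]`.
-/

namespace Pool.Agent.H15.LE

open Polynomial

/-- `(X - t) ((X - t) ^ u)' = u (X - t) ^ u` -/
private theorem le4_pow (t : ℂ) (u : ℕ) :
    (X - C t) * derivative ((X - C t) ^ u) = C (u : ℂ) * (X - C t) ^ u := by
  rcases u with _ | u
  · simp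
  · rw [derivative_X_sub_C_pow, Nat.add_sub_cancel]
    ring

/-- The polynomial relation has no solution: compare orders at a root of `1 + 2 X + 2 X ^ 2`. -/
private theorem le4_poly (P R : Polynomial ℂ) (hP : P ≠ 0) (hR : R ≠ 0) (d : ℕ) (hd : 0 < d)
    (h : (1 + 2 * X + 2 * X ^ 2 : Polynomial ℂ) * (R * derivative P - derivative R * P)
      = C (d : ℂ) * (R * P)) : False := by
  obtain ⟨t₀, ht₀⟩ : ∃ t : ℂ, t = (-1 + Complex.I) / 2 := ⟨_, rfl⟩
  obtain ⟨t₁, ht₁⟩ : ∃ t : ℂ, t = (-1 - Complex.I) / 2 := ⟨_, rfl⟩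
  have hsum : t₀ + t₁ = -1 := by rw [ht₀, ht₁]; ring
  have hprod : 2 * (t₀ * t₁) = 1 := by
    rw [ht₀, ht₁]
    linear_combination (-(1 : ℂ) / 2) * Complex.I_mul_I
  have hdiff : 2 * (t₀ - t₁) = 2 * Complex.I := by rw [ht₀, ht₁]; ring
  have hQ : (1 + 2 * X + 2 * X ^ 2 : Polynomial ℂ) = (X - C t₀) * (2 * (X - C t₁)) := by
    have e1 : (C t₀ + C t₁ : Polynomial ℂ) = -1 := by
      rw [← C_add, hsum]; simp
    have e2 : (2 * (C t₀ * C t₁) : Polynomial ℂ) = 1 := by
      rw [← C_mul]
      have : (2 : Polynomial ℂ) = C 2 := rfl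
      rw [this, ← C_mul, hprod, C_1]
    linear_combination (2 * X) * e1 - e2
  obtain ⟨A, hA, hA'⟩ := exists_eq_pow_rootMultiplicity_mul_and_not_dvd P hP t₀
  obtain ⟨B, hB, hB'⟩ := exists_eq_pow_rootMultiplicity_mul_and_not_dvd R hR t₀
  generalize P.rootMultiplicity t₀ = u at hA
  generalize R.rootMultiplicity t₀ = v at hB
  have ha : eval t₀ A ≠ 0 := fun h0 => hA' (dvd_iff_isRoot.2 h0)
  have hb : eval t₀ B ≠ 0 := fun h0 => hB' (dvd_iff_isRoot.2 h0)
  have hu := le4_pow t₀ u
  have hv := le4_pow t₀ v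
  obtain ⟨L, hL⟩ : ∃ L : Polynomial ℂ, L = X - C t₀ := ⟨_, rfl⟩
  have hL0 : L ≠ 0 := by rw [hL]; exact X_sub_C_ne_zero t₀
  have hLe : eval t₀ L = 0 := by rw [hL]; simp
  rw [← hL] at hu hv hA hB hQ
  have key : L ^ u * L ^ v * (2 * (X - C t₁) * ((C (u : ℂ) - C (v : ℂ)) * (A * B)
      + L * (B * derivative A - derivative B * A)))
      = L ^ u * L ^ v * (C (d : ℂ) * (A * B)) := by
    rw [hQ, hA, hB, derivative_mul, derivative_mul] at h
    linear_combination h - (2 * (X - C t₁)) * (L ^ v * B * A) * hu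
      + (2 * (X - C t₁)) * (L ^ u * B * A) * hv
  have key2 := mul_left_cancel₀ (mul_ne_zero (pow_ne_zero u hL0) (pow_ne_zero v hL0)) key
  have key3 := congrArg (eval t₀) key2
  simp only [eval_mul, eval_add, eval_sub, eval_C, eval_X, hLe, zero_mul, add_zero] at key3
  have h2 : eval t₀ (2 : Polynomial ℂ) = 2 := by
    have : (2 : Polynomial ℂ) = C 2 := rfl
    rw [this, eval_C]
  rw [h2, hdiff] at key3
  have hab : eval t₀ A * eval t₀ B ≠ 0 := mul_ne_zero ha hb
  have key4 : 2 * Complex.I * ((u : ℂ) - v) = d := by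
    apply mul_right_cancel₀ hab
    linear_combination key3
  have key5 := congrArg Complex.re key4
  have key6 : (d : ℝ) = 0 := by simpa using key5.symm
  have key7 : d = 0 := by exact_mod_cast key6
  omega

variable {E : PowerSeries ℝ}

/-- the polynomial `1 + 2 X + 2 X ^ 2` -/
private noncomputable def le4_Q : Polynomial ℝ := 1 + 2 * X + 2 * X ^ 2

/-- the algebra map from polynomials to power series is the coercion -/
private theorem le4_alg (f : Polynomial ℝ) :
    algebraMap (Polynomial ℝ) (PowerSeries ℝ) f = (f : PowerSeries ℝ) := by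
  ext n
  simp [PowerSeries.algebraMap_apply']

/-- the derivation of the algebra map -/
private theorem le4_der (f : Polynomial ℝ) :
    PowerSeries.derivative ℝ (algebraMap (Polynomial ℝ) (PowerSeries ℝ) f)
      = algebraMap (Polynomial ℝ) (PowerSeries ℝ) (derivative f) := by
  rw [le4_alg, le4_alg]
  exact PowerSeries.derivative_coe f

/-- the new coefficients -/
private noncomputable def le4_D (p : Polynomial (Polynomial ℝ)) : Polynomial (Polynomial ℝ) :=
  ∑ k ∈ Finset.range (p.natDegree + 1),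
    monomial k (le4_Q * derivative (p.coeff k) + (k : Polynomial ℝ) * p.coeff k)

private theorem le4_coeff (p : Polynomial (Polynomial ℝ)) (k : ℕ) :
    (le4_D p).coeff k = le4_Q * derivative (p.coeff k) + (k : Polynomial ℝ) * p.coeff k := by
  rw [le4_D, finsetSum_coeff]
  simp only [coeff_monomial]
  by_cases hk : k ∈ Finset.range (p.natDegree + 1)
  · rw [Finset.sum_eq_single_of_mem k hk]
    · simp
    · intro b _ hb
      simp [hb]
  · rw [Finset.sum_eq_zero]
    · have : p.coeff k = 0 := by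
        apply coeff_eq_zero_of_natDegree_lt
        rw [Finset.mem_range] at hk
        omega
      simp [this]
    · intro b hb
      have : b ≠ k := by
        rintro rfl
        exact hk hb
      simp [this]

/-- the differentiated relation -/
private theorem le4_aeval
    (hode : (1 + 2 * PowerSeries.X + 2 * PowerSeries.X ^ 2) * PowerSeries.derivative ℝ E = E)
    (p : Polynomial (Polynomial ℝ)) :
    aeval E (le4_D p) = algebraMap (Polynomial ℝ) (PowerSeries ℝ) le4_Q
      * PowerSeries.derivative ℝ (aeval E p) := by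
  have hQ : algebraMap (Polynomial ℝ) (PowerSeries ℝ) le4_Q
      = 1 + 2 * PowerSeries.X + 2 * PowerSeries.X ^ 2 := by
    have hX : algebraMap (Polynomial ℝ) (PowerSeries ℝ) X = PowerSeries.X := by
      rw [le4_alg, coe_X]
    rw [le4_Q, map_add, map_add, map_mul, map_mul, map_pow, map_one, map_ofNat, hX]
  rw [le4_D, map_sum, aeval_eq_sum_range, map_sum, Finset.mul_sum]
  apply Finset.sum_congr rfl
  intro k _
  rw [aeval_monomial, Algebra.smul_def, map_add, map_mul, map_mul, Derivation.leibniz,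
    Derivation.leibniz_pow, le4_der]
  rw [← hQ] at hode
  obtain ⟨q, hq⟩ : ∃ q, q = algebraMap (Polynomial ℝ) (PowerSeries ℝ) le4_Q := ⟨_, rfl⟩
  rw [← hq] at hode ⊢
  simp only [smul_eq_mul, nsmul_eq_mul, map_natCast]
  rcases k with _ | k
  · simp
  · rw [Nat.add_sub_cancel]
    have : E ^ (k + 1) = E ^ k * (q * PowerSeries.derivative ℝ E) := by
      rw [hode, pow_succ]
    rw [this]
    ring

theorem trans_of_ode (E : PowerSeries ℝ) (h0 : PowerSeries.constantCoeff E = 1)
    (hode : (1 + 2 * PowerSeries.X + 2 * PowerSeries.X ^ 2) * PowerSeries.derivative ℝ E = E) :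
    Transcendental (Polynomial ℝ) E := by
  intro halg
  have hE : E ≠ 0 := by
    rintro rfl
    simp at h0
  obtain ⟨p₁, hp₁, hp₁'⟩ := halg
  have hex : ∃ n : ℕ, ∃ p : Polynomial (Polynomial ℝ), p.natDegree = n ∧ p ≠ 0 ∧ aeval E p = 0 :=
    ⟨_, p₁, rfl, hp₁, hp₁'⟩
  classical
  obtain ⟨p, hpd, hp0, hpE⟩ := Nat.find_spec hex
  have hmin : ∀ q : Polynomial (Polynomial ℝ), aeval E q = 0 → q.natDegree < p.natDegree →
      q = 0 := by
    intro q hq hlt
    by_contra hq0
    rw [hpd] at hlt
    exact Nat.find_min hex hlt ⟨q, rfl, hq0, hq⟩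
  have hinj : Function.Injective (algebraMap (Polynomial ℝ) (PowerSeries ℝ)) := by
    intro a b hab
    rw [le4_alg, le4_alg] at hab
    exact Polynomial.coe_injective ℝ hab
  -- the degree is positive
  have hd : 0 < p.natDegree := by
    by_contra hcon
    have h1 : p.natDegree = 0 := by omega
    rw [eq_C_of_natDegree_eq_zero h1, aeval_C] at hpE
    have h2 : p.coeff 0 = 0 := hinj (by rw [hpE, map_zero])
    apply hp0
    rw [eq_C_of_natDegree_eq_zero h1, h2, C_0]
  -- the constant coefficient does not vanish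
  have hc0 : p.coeff 0 ≠ 0 := by
    intro h1
    have h2 : p.divX * X = p := by
      have := divX_mul_X_add p
      rwa [h1, C_0, add_zero] at this
    have h3 : aeval E p.divX = 0 := by
      have h4 : aeval E p.divX * E = 0 := by
        rw [← hpE]
        conv_rhs => rw [← h2]
        rw [map_mul, aeval_X]
      exact (mul_eq_zero.1 h4).resolve_right hE
    have h5 : p.divX = 0 := by
      apply hmin _ h3
      rw [natDegree_divX_eq_natDegree_tsub_one]
      omega
    apply hp0
    rw [← h2, h5, zero_mul]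
  have hcd : p.leadingCoeff ≠ 0 := leadingCoeff_ne_zero.2 hp0
  -- the relation of smaller degree
  have hq : aeval E (le4_D p) = 0 := by
    rw [le4_aeval hode, hpE, map_zero, mul_zero]
  obtain ⟨r, hr⟩ : ∃ r, r = C p.leadingCoeff * le4_D p
      - C ((le4_D p).coeff p.natDegree) * p := ⟨_, rfl⟩
  have hr0 : r = 0 := by
    by_contra hrne
    apply hrne
    apply hmin
    · rw [hr, map_sub, map_mul, map_mul, hq, hpE, mul_zero, mul_zero, sub_zero]
    · rw [natDegree_lt_iff_degree_lt hrne, degree_lt_iff_coeff_zero]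
      intro m hm
      rw [hr, coeff_sub, coeff_C_mul, coeff_C_mul]
      rcases hm.lt_or_eq with hm | hm
      · have h1 : p.coeff m = 0 := coeff_eq_zero_of_natDegree_lt hm
        rw [le4_coeff, h1]
        simp
      · rw [← hm, coeff_natDegree]
        ring
  have hr1 : r.coeff 0 = 0 := by rw [hr0, coeff_zero]
  rw [hr, coeff_sub, coeff_C_mul, coeff_C_mul, le4_coeff, le4_coeff, coeff_natDegree] at hr1
  have hrel : le4_Q * (p.leadingCoeff * derivative (p.coeff 0)
      - derivative p.leadingCoeff * p.coeff 0)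
      = (p.natDegree : Polynomial ℝ) * (p.leadingCoeff * p.coeff 0) := by
    simp only [Nat.cast_zero, zero_mul, add_zero] at hr1
    linear_combination hr1
  have hrel2 := congrArg (Polynomial.map (algebraMap ℝ ℂ)) hrel
  simp only [Polynomial.map_mul, Polynomial.map_sub, ← derivative_map, Polynomial.map_natCast]
    at hrel2
  have hQ : Polynomial.map (algebraMap ℝ ℂ) le4_Q = 1 + 2 * X + 2 * X ^ 2 := by
    rw [le4_Q]
    simp
  rw [hQ] at hrel2
  refine le4_poly (Polynomial.map (algebraMap ℝ ℂ) (p.coeff 0))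
    (Polynomial.map (algebraMap ℝ ℂ) p.leadingCoeff) ?_ ?_ p.natDegree hd ?_
  · rwa [Ne, Polynomial.map_eq_zero]
  · rwa [Ne, Polynomial.map_eq_zero]
  · rw [hrel2]
    simp

end Pool.Agent.H15.LE
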