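import Pool.Agent.H15.LE.Defs

set_option autoImplicit false

/-! Project LE, file LE-01a: asymptotic expansions of sequences. -/

namespace Pool.Agent.H15.LE

open Finset Filter Topology

section LE01
variable {w f f' : ℕ → ℝ} {F F' G : PowerSeries ℝ}

theorem scale_idn : Scale idn := by
  refine ⟨1, one_pos, fun n _ => ?_⟩
  simp [idn]

/-- the inverse scale is positive -/
theorem Scale.inv_pos (hw : Scale w) {n : ℕ} (hn : 1 ≤ n) : 0 < (w n)⁻¹ := by
  obtain ⟨c, hc, h⟩ := hw
  have h1 : (0 : ℝ) < n := by exact_mod_cast hn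
  have h2 : 0 < w n := lt_of_lt_of_le (mul_pos hc h1) (h n hn)
  exact _root_.inv_pos.2 h2

/-- the inverse scale is at most `B / n` -/
theorem Scale.inv_le (hw : Scale w) : ∃ B : ℝ, 0 < B ∧ ∀ n : ℕ, 1 ≤ n → (w n)⁻¹ ≤ B / n := by
  obtain ⟨c, hc, h⟩ := hw
  refine ⟨c⁻¹, _root_.inv_pos.2 hc, fun n hn => ?_⟩
  have h1 : (0 : ℝ) < n := by exact_mod_cast hn
  have h2 : 0 < c * n := mul_pos hc h1
  calc (w n)⁻¹ ≤ (c * n)⁻¹ := inv_anti₀ h2 (h n hn)
    _ = c⁻¹ / n := by rw [mul_inv, div_eq_mul_inv]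

/-- the inverse scale is bounded -/
theorem Scale.inv_bdd (hw : Scale w) : ∃ B : ℝ, 0 < B ∧ ∀ n : ℕ, 1 ≤ n → (w n)⁻¹ ≤ B := by
  obtain ⟨B, hB, h⟩ := hw.inv_le
  refine ⟨B, hB, fun n hn => (h n hn).trans ?_⟩
  have h1 : (1 : ℝ) ≤ n := by exact_mod_cast hn
  exact div_le_self hB.le h1

theorem Scale.tendsto_inv (hw : Scale w) : Tendsto (fun n => (w n)⁻¹) atTop (𝓝 0) := by
  obtain ⟨B, hB, h⟩ := hw.inv_le
  refine squeeze_zero' ?_ ?_ (tendsto_const_div_atTop_nhds_zero_nat B)
  · filter_upwards [eventually_ge_atTop 1] with n hn using (hw.inv_pos hn).le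
  · filter_upwards [eventually_ge_atTop 1] with n hn using h n hn

theorem eval_trunc (R : ℕ) (F : PowerSeries ℝ) (t : ℝ) :
    (PowerSeries.trunc R F).eval t = ∑ k ∈ range R, PowerSeries.coeff k F * t ^ k := by
  rw [Polynomial.eval, PowerSeries.eval₂_trunc_eq_sum_range]
  simp only [RingHom.id_apply]

/-- a polynomial in the inverse scale is bounded -/
theorem poly_bdd (hw : Scale w) (p : Polynomial ℝ) :
    ∃ C : ℝ, 0 ≤ C ∧ ∀ n : ℕ, 1 ≤ n → |p.eval ((w n)⁻¹)| ≤ C := by
  obtain ⟨B, hB, h⟩ := hw.inv_bdd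
  obtain ⟨C, hC⟩ := (isCompact_Icc (a := (0 : ℝ)) (b := B)).exists_bound_of_continuousOn
    (f := fun t => p.eval t) p.continuous.continuousOn
  refine ⟨|C|, abs_nonneg C, fun n hn => ?_⟩
  have := hC ((w n)⁻¹) ⟨(hw.inv_pos hn).le, h n hn⟩
  exact (by simpa using this : |p.eval ((w n)⁻¹)| ≤ C).trans (le_abs_self C)

/-- a polynomial in the inverse scale without terms of degree `< R` is `O(w⁻ᴿ)` -/
theorem poly_small (hw : Scale w) (p : Polynomial ℝ) (R : ℕ) (hp : ∀ k < R, p.coeff k = 0) :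
    ∃ C : ℝ, 0 ≤ C ∧ ∀ n : ℕ, 1 ≤ n → |p.eval ((w n)⁻¹)| ≤ C * ((w n)⁻¹) ^ R := by
  obtain ⟨q, rfl⟩ := Polynomial.X_pow_dvd_iff.2 hp
  obtain ⟨C, hC0, hC⟩ := poly_bdd hw q
  refine ⟨C, hC0, fun n hn => ?_⟩
  have h1 := hw.inv_pos hn
  rw [Polynomial.eval_mul, Polynomial.eval_pow, Polynomial.eval_X, abs_mul,
    abs_of_nonneg (pow_nonneg h1.le R), mul_comm]
  exact mul_le_mul_of_nonneg_right (hC n hn) (pow_nonneg h1.le R)

/-- a sequence with an expansion is bounded -/
theorem HasExp.bdd (h : HasExp w f F) : ∃ C : ℝ, 0 ≤ C ∧ ∀ n : ℕ, 1 ≤ n → |f n| ≤ C := by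
  obtain ⟨C, hC⟩ := h 0
  refine ⟨|C|, abs_nonneg C, fun n hn => ?_⟩
  have := hC n hn
  simp only [range_zero, sum_empty, sub_zero, pow_zero, mul_one] at this
  exact this.trans (le_abs_self C)

/-- the constants may be taken nonnegative -/
theorem HasExp.nonneg (hw : Scale w) (h : HasExp w f F) (R : ℕ) :
    ∃ C : ℝ, 0 ≤ C ∧ ∀ n : ℕ, 1 ≤ n →
      |f n - (PowerSeries.trunc R F).eval ((w n)⁻¹)| ≤ C * ((w n)⁻¹) ^ R := by
  obtain ⟨C, hC⟩ := h R
  refine ⟨|C|, abs_nonneg C, fun n hn => ?_⟩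
  rw [eval_trunc]
  exact (hC n hn).trans
    (mul_le_mul_of_nonneg_right (le_abs_self C) (pow_nonneg (hw.inv_pos hn).le R))

theorem HasExp.of_trunc
    (h : ∀ R : ℕ, ∃ C : ℝ, ∀ n : ℕ, 1 ≤ n →
      |f n - (PowerSeries.trunc R F).eval ((w n)⁻¹)| ≤ C * ((w n)⁻¹) ^ R) : HasExp w f F := by
  intro R
  obtain ⟨C, hC⟩ := h R
  refine ⟨C, fun n hn => ?_⟩
  rw [← eval_trunc]
  exact hC n hn

theorem HasExp.unique (hw : Scale w) (h : HasExp w f F) (h' : HasExp w f G) : F = G := by
  ext k
  induction k using Nat.strong_induction_on with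
  | _ k ih =>
    obtain ⟨C, hC⟩ := h (k + 1)
    obtain ⟨C', hC'⟩ := h' (k + 1)
    have hb : ∀ n : ℕ, 1 ≤ n →
        |PowerSeries.coeff k F - PowerSeries.coeff k G| ≤ (C + C') * (w n)⁻¹ := by
      intro n hn
      have ht := hw.inv_pos hn
      set t := (w n)⁻¹ with htdef
      have e1 := hC n hn
      have e2 := hC' n hn
      rw [← htdef] at e1 e2
      rw [sum_range_succ] at e1 e2
      have hs : ∑ x ∈ range k, PowerSeries.coeff x F * t ^ x =
          ∑ x ∈ range k, PowerSeries.coeff x G * t ^ x := by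
        refine sum_congr rfl fun x hx => ?_
        rw [ih x (mem_range.1 hx)]
      rw [hs] at e1
      have e3 : |(PowerSeries.coeff k F - PowerSeries.coeff k G) * t ^ k| ≤
          (C + C') * t ^ (k + 1) := by
        have : (PowerSeries.coeff k F - PowerSeries.coeff k G) * t ^ k =
            (f n - (∑ x ∈ range k, PowerSeries.coeff x G * t ^ x +
              PowerSeries.coeff k G * t ^ k)) -
            (f n - (∑ x ∈ range k, PowerSeries.coeff x G * t ^ x +
              PowerSeries.coeff k F * t ^ k)) := by ring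
        rw [this]
        refine (abs_sub _ _).trans ?_
        linarith [add_mul C C' (t ^ (k + 1))]
      rw [abs_mul, abs_of_pos (pow_pos ht k), pow_succ, mul_comm (t ^ k) t, ← mul_assoc] at e3
      exact le_of_mul_le_mul_right e3 (pow_pos ht k)
    have hlim : Tendsto (fun n => (C + C') * (w n)⁻¹) atTop (𝓝 0) := by
      simpa using hw.tendsto_inv.const_mul (C + C')
    have hle : |PowerSeries.coeff k F - PowerSeries.coeff k G| ≤ 0 :=
      ge_of_tendsto hlim (by filter_upwards [eventually_ge_atTop 1] with n hn using hb n hn)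
    have := abs_nonpos_iff.1 hle
    linarith

theorem HasExp.congr (h : HasExp w f F) (h' : ∀ n, 1 ≤ n → f n = f' n) : HasExp w f' F := by
  intro R
  obtain ⟨C, hC⟩ := h R
  exact ⟨C, fun n hn => by rw [← h' n hn]; exact hC n hn⟩

/-- a polynomial in the inverse scale -/
theorem HasExp.poly (hw : Scale w) (a : Polynomial ℝ) :
    HasExp w (fun n => a.eval ((w n)⁻¹)) (a : PowerSeries ℝ) := by
  refine HasExp.of_trunc fun R => ?_
  obtain ⟨C, -, hC⟩ := poly_small hw (a - PowerSeries.trunc R (a : PowerSeries ℝ)) R (by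
    intro k hk
    rw [Polynomial.coeff_sub, PowerSeries.coeff_trunc, if_pos hk, Polynomial.coeff_coe, sub_self])
  refine ⟨C, fun n hn => ?_⟩
  have := hC n hn
  rwa [Polynomial.eval_sub] at this

theorem HasExp.const (hw : Scale w) (c : ℝ) : HasExp w (fun _ => c) (PowerSeries.C c) := by
  have := HasExp.poly hw (Polynomial.C c)
  simpa using this

theorem HasExp.inv_scale (hw : Scale w) : HasExp w (fun n => (w n)⁻¹) PowerSeries.X := by
  have := HasExp.poly hw Polynomial.X
  simpa using this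

theorem HasExp.add (h : HasExp w f F) (h' : HasExp w f' F') :
    HasExp w (fun n => f n + f' n) (F + F') := by
  intro R
  obtain ⟨C, hC⟩ := h R
  obtain ⟨C', hC'⟩ := h' R
  refine ⟨C + C', fun n hn => ?_⟩
  have e1 := hC n hn
  have e2 := hC' n hn
  have : f n + f' n - ∑ k ∈ range R, PowerSeries.coeff k (F + F') * ((w n)⁻¹) ^ k =
      (f n - ∑ k ∈ range R, PowerSeries.coeff k F * ((w n)⁻¹) ^ k) +
      (f' n - ∑ k ∈ range R, PowerSeries.coeff k F' * ((w n)⁻¹) ^ k) := by
    simp only [map_add, add_mul, sum_add_distrib]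
    ring
  rw [this, add_mul]
  exact (abs_add_le _ _).trans (add_le_add e1 e2)

theorem HasExp.mul (hw : Scale w) (h : HasExp w f F) (h' : HasExp w f' F') :
    HasExp w (fun n => f n * f' n) (F * F') := by
  refine HasExp.of_trunc fun R => ?_
  obtain ⟨C, hC0, hC⟩ := h.nonneg hw R
  obtain ⟨C', hC0', hC'⟩ := h'.nonneg hw R
  obtain ⟨B, hB0, hB⟩ := poly_bdd hw (PowerSeries.trunc R F)
  obtain ⟨B', hB0', hB'⟩ := h'.bdd
  obtain ⟨D, hD0, hD⟩ := poly_small hw (PowerSeries.trunc R F * PowerSeries.trunc R F' -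
    PowerSeries.trunc R (F * F')) R (by
      intro k hk
      rw [Polynomial.coeff_sub, PowerSeries.coeff_trunc, if_pos hk,
        PowerSeries.coeff_mul_eq_coeff_trunc_mul_trunc F F' hk, ← Polynomial.coe_mul,
        Polynomial.coeff_coe, sub_self])
  refine ⟨C * B' + B * C' + D, fun n hn => ?_⟩
  have ht := (hw.inv_pos hn).le
  have htR := pow_nonneg ht R
  have e1 := hC n hn
  have e2 := hC' n hn
  have e3 := hB n hn
  have e4 := hB' n hn
  have e5 := hD n hn
  rw [Polynomial.eval_sub, Polynomial.eval_mul] at e5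
  set t := (w n)⁻¹
  set p := (PowerSeries.trunc R F).eval t
  set p' := (PowerSeries.trunc R F').eval t
  set s := (PowerSeries.trunc R (F * F')).eval t
  have : f n * f' n - s = (f n - p) * f' n + p * (f' n - p') + (p * p' - s) := by ring
  rw [this]
  calc |(f n - p) * f' n + p * (f' n - p') + (p * p' - s)|
      ≤ |(f n - p) * f' n| + |p * (f' n - p')| + |p * p' - s| :=
        (abs_add_le _ _).trans (add_le_add_left (abs_add_le _ _) _)
    _ ≤ (C * t ^ R) * B' + B * (C' * t ^ R) + D * t ^ R := by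
        rw [abs_mul, abs_mul]
        refine add_le_add (add_le_add ?_ ?_) e5
        · exact mul_le_mul e1 e4 (abs_nonneg _) (mul_nonneg hC0 htR)
        · exact mul_le_mul e3 e2 (abs_nonneg _) hB0
    _ = (C * B' + B * C' + D) * t ^ R := by ring

theorem HasExp.pow (hw : Scale w) (h : HasExp w f F) (b : ℕ) :
    HasExp w (fun n => f n ^ b) (F ^ b) := by
  induction b with
  | zero => simpa using HasExp.const hw 1
  | succ b ih => simpa [pow_succ] using HasExp.mul hw ih h

theorem HasExp.aeval (hw : Scale w) (h : HasExp w f F) (P : Polynomial (Polynomial ℝ)) :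
    HasExp w (fun n => (P.map (Polynomial.evalRingHom ((w n)⁻¹))).eval (f n))
      (Polynomial.aeval F P) := by
  induction P using Polynomial.induction_on' with
  | add p q hp hq =>
    have := hp.add hq
    simpa [Polynomial.map_add, Polynomial.eval_add, map_add] using this
  | monomial k a =>
    have h1 := (HasExp.poly hw a).mul hw (h.pow hw k)
    have h2 : (Polynomial.aeval F) (Polynomial.monomial k a) = (a : PowerSeries ℝ) * F ^ k := by
      rw [Polynomial.aeval_monomial, PowerSeries.algebraMap_apply']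
      simp
    rw [h2]
    refine h1.congr fun n hn => ?_
    simp [Polynomial.map_monomial, Polynomial.eval_monomial]

end LE01

end Pool.Agent.H15.LE
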