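import Pool.Agent.H15.LE.NoRelK
import Pool.Agent.H15.LE.DefsL
import Pool.Agent.H25.LE.Exp

set_option autoImplicit false

/-! Project LE: the key estimate for `n`, in terms of `q ^ (-l)`. -/

namespace Pool.Agent.H15.LE

open Finset Filter Topology

lemma key_exp_sub_one (x B : ℝ) (hx : |x| ≤ B) : |Real.exp x - 1| ≤ |x| * Real.exp B := by
  have h1 : x + 1 ≤ Real.exp x := Real.add_one_le_exp x
  have h2 : -x + 1 ≤ Real.exp (-x) := Real.add_one_le_exp (-x)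
  have hB : 0 ≤ B := (abs_nonneg x).trans hx
  have hE : 1 ≤ Real.exp B := Real.one_le_exp hB
  rcases le_total 0 x with h | h
  · have h3 : Real.exp x - 1 ≤ x * Real.exp x := by
      have h4 : Real.exp (-x) * Real.exp x = 1 := by rw [← Real.exp_add]; simp
      nlinarith [Real.exp_pos x]
    have h5 : Real.exp x ≤ Real.exp B := Real.exp_le_exp.mpr (by rwa [abs_of_nonneg h] at hx)
    rw [abs_of_nonneg (by linarith), abs_of_nonneg h]
    exact h3.trans (mul_le_mul_of_nonneg_left h5 h)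
  · have h3 : Real.exp x ≤ 1 := Real.exp_le_one_iff.mpr h
    rw [abs_of_nonpos (by linarith), abs_of_nonpos h]
    nlinarith

/-- the abstract estimate: `z = K e^θ / t`, `n = z / ρ` -/
lemma key_est {φ : PowerSeries ℝ} (R : ℕ) {K A M C1 ρ n t z θ : ℝ} (hK : 0 < K) (hA : 0 ≤ A)
    (hM : 0 < M) (hC1 : 0 ≤ C1) (hρ : 0 < ρ) (hρM : ρ ≤ M) (hρM' : ρ⁻¹ ≤ M) (hn : 0 < n) (ht : 0 < t)
    (ht1 : t ≤ 1) (hz : z = n * ρ) (hzt : z = K * Real.exp θ / t) (hθ : |θ| ≤ A)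
    (hθ' : |θ| ≤ A * (n⁻¹) ^ (R + 1))
    (hexp : |ρ⁻¹ - ∑ k ∈ range (R + 1), PowerSeries.coeff k φ * (z⁻¹) ^ k| ≤
      C1 * (z⁻¹) ^ (R + 1)) :
    |n * t - ∑ k ∈ range (R + 1), K * (K⁻¹) ^ k * PowerSeries.coeff k φ * t ^ k| ≤
      (K * (Real.exp A * A * (M * Real.exp A * K⁻¹) ^ (R + 1) * M) +
        K * (C1 * (K⁻¹ * Real.exp A) ^ (R + 1)) +
        K * (∑ k ∈ range (R + 1), |PowerSeries.coeff k φ| * ((K⁻¹) ^ k * (k * Real.exp (k * A)))) *
          (A * (M * Real.exp A * K⁻¹) ^ (R + 1))) * t ^ (R + 1) := by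
  have hz0 : 0 < z := by rw [hz]; positivity
  have hnt : n * t = K * Real.exp θ * ρ⁻¹ := by
    have : n * ρ * t = K * Real.exp θ := by rw [← hz, hzt]; field_simp
    field_simp
    linarith
  have hzi : z⁻¹ = K⁻¹ * t * Real.exp (-θ) := by
    rw [hzt, Real.exp_neg]
    field_simp
  have hexpθ : Real.exp (-θ) ≤ Real.exp A :=
    Real.exp_le_exp.mpr ((neg_le_abs θ).trans hθ)
  -- comparison of `1/n` and `t`
  have hni : n⁻¹ ≤ (M * Real.exp A * K⁻¹) * t := by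
    have h1 : n⁻¹ = ρ * z⁻¹ := by rw [hz]; field_simp
    rw [h1, hzi]
    calc ρ * (K⁻¹ * t * Real.exp (-θ)) ≤ M * (K⁻¹ * t * Real.exp A) := by
          apply mul_le_mul hρM _ (by positivity) hM.le
          exact mul_le_mul_of_nonneg_left hexpθ (by positivity)
      _ = _ := by ring
  have hθt : |θ| ≤ A * (M * Real.exp A * K⁻¹) ^ (R + 1) * t ^ (R + 1) := by
    refine hθ'.trans ?_
    rw [mul_assoc, ← mul_pow]
    exact mul_le_mul_of_nonneg_left (pow_le_pow_left₀ (by positivity) hni _) hA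
  -- three terms
  have hT1 : |Real.exp θ - 1| * ρ⁻¹ ≤
      (Real.exp A * A * (M * Real.exp A * K⁻¹) ^ (R + 1) * M) * t ^ (R + 1) := by
    calc |Real.exp θ - 1| * ρ⁻¹ ≤ (|θ| * Real.exp A) * M :=
          mul_le_mul (key_exp_sub_one θ A hθ) hρM' (by positivity) (by positivity)
      _ ≤ (A * (M * Real.exp A * K⁻¹) ^ (R + 1) * t ^ (R + 1) * Real.exp A) * M := by
          gcongr
      _ = _ := by ring
  have hT2 : |ρ⁻¹ - ∑ k ∈ range (R + 1), PowerSeries.coeff k φ * (z⁻¹) ^ k| ≤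
      (C1 * (K⁻¹ * Real.exp A) ^ (R + 1)) * t ^ (R + 1) := by
    refine hexp.trans ?_
    rw [mul_assoc, ← mul_pow]
    apply mul_le_mul_of_nonneg_left _ hC1
    apply pow_le_pow_left₀ (by positivity)
    rw [hzi]
    calc K⁻¹ * t * Real.exp (-θ) ≤ K⁻¹ * t * Real.exp A :=
          mul_le_mul_of_nonneg_left hexpθ (by positivity)
      _ = _ := by ring
  have hT3 : ∀ k : ℕ, |(z⁻¹) ^ k - (K⁻¹ * t) ^ k| ≤
      ((K⁻¹) ^ k * (k * Real.exp (k * A))) * |θ| := by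
    intro k
    have h1 : (z⁻¹) ^ k - (K⁻¹ * t) ^ k = (K⁻¹ * t) ^ k * (Real.exp (k * (-θ)) - 1) := by
      rw [hzi, mul_pow, ← Real.exp_nat_mul]
      ring
    have h2 : |(k : ℝ) * (-θ)| ≤ k * A := by
      rw [abs_mul, abs_neg, Nat.abs_cast]
      exact mul_le_mul_of_nonneg_left hθ (Nat.cast_nonneg k)
    have h3 := key_exp_sub_one _ _ h2
    have h4 : (K⁻¹ * t) ^ k ≤ (K⁻¹) ^ k := by
      apply pow_le_pow_left₀ (by positivity)
      exact mul_le_of_le_one_right (by positivity) ht1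
    rw [h1, abs_mul, abs_of_nonneg (by positivity : (0 : ℝ) ≤ (K⁻¹ * t) ^ k)]
    calc (K⁻¹ * t) ^ k * |Real.exp (k * (-θ)) - 1|
        ≤ (K⁻¹) ^ k * (|(k : ℝ) * (-θ)| * Real.exp (k * A)) :=
          mul_le_mul h4 h3 (abs_nonneg _) (by positivity)
      _ = _ := by rw [abs_mul, abs_neg, Nat.abs_cast]; ring
  have hsum : n * t - ∑ k ∈ range (R + 1), K * (K⁻¹) ^ k * PowerSeries.coeff k φ * t ^ k =
      K * ((Real.exp θ - 1) * ρ⁻¹) +
      K * (ρ⁻¹ - ∑ k ∈ range (R + 1), PowerSeries.coeff k φ * (z⁻¹) ^ k) +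
      K * ∑ k ∈ range (R + 1), PowerSeries.coeff k φ * ((z⁻¹) ^ k - (K⁻¹ * t) ^ k) := by
    have h1 : ∑ k ∈ range (R + 1), K * (K⁻¹) ^ k * PowerSeries.coeff k φ * t ^ k =
        K * ∑ k ∈ range (R + 1), PowerSeries.coeff k φ * (K⁻¹ * t) ^ k := by
      rw [mul_sum]
      apply sum_congr rfl
      intro k _
      rw [mul_pow]
      ring
    have h2 : ∑ k ∈ range (R + 1), PowerSeries.coeff k φ * ((z⁻¹) ^ k - (K⁻¹ * t) ^ k) =
        ∑ k ∈ range (R + 1), PowerSeries.coeff k φ * (z⁻¹) ^ k -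
        ∑ k ∈ range (R + 1), PowerSeries.coeff k φ * (K⁻¹ * t) ^ k := by
      rw [← sum_sub_distrib]
      apply sum_congr rfl
      intro k _
      ring
    rw [h1, h2, hnt]
    ring
  have hT4 : |∑ k ∈ range (R + 1), PowerSeries.coeff k φ * ((z⁻¹) ^ k - (K⁻¹ * t) ^ k)| ≤
      (∑ k ∈ range (R + 1), |PowerSeries.coeff k φ| * ((K⁻¹) ^ k * (k * Real.exp (k * A)))) *
        (A * (M * Real.exp A * K⁻¹) ^ (R + 1)) * t ^ (R + 1) := by
    refine (abs_sum_le_sum_abs _ _).trans ?_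
    calc ∑ k ∈ range (R + 1), |PowerSeries.coeff k φ * ((z⁻¹) ^ k - (K⁻¹ * t) ^ k)|
        ≤ ∑ k ∈ range (R + 1),
            (|PowerSeries.coeff k φ| * ((K⁻¹) ^ k * (k * Real.exp (k * A)))) * |θ| := by
          apply sum_le_sum
          intro k _
          rw [abs_mul, mul_assoc |PowerSeries.coeff k φ|]
          exact mul_le_mul_of_nonneg_left (hT3 k) (abs_nonneg _)
      _ = (∑ k ∈ range (R + 1), |PowerSeries.coeff k φ| *
            ((K⁻¹) ^ k * (k * Real.exp (k * A)))) * |θ| := by rw [← sum_mul]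
      _ ≤ (∑ k ∈ range (R + 1), |PowerSeries.coeff k φ| *
            ((K⁻¹) ^ k * (k * Real.exp (k * A)))) *
            (A * (M * Real.exp A * K⁻¹) ^ (R + 1) * t ^ (R + 1)) := by
          apply mul_le_mul_of_nonneg_left hθt
          exact sum_nonneg (fun k _ => by positivity)
      _ = _ := by ring
  rw [hsum]
  calc |K * ((Real.exp θ - 1) * ρ⁻¹) +
      K * (ρ⁻¹ - ∑ k ∈ range (R + 1), PowerSeries.coeff k φ * (z⁻¹) ^ k) +
      K * ∑ k ∈ range (R + 1), PowerSeries.coeff k φ * ((z⁻¹) ^ k - (K⁻¹ * t) ^ k)|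
      ≤ |K * ((Real.exp θ - 1) * ρ⁻¹)| +
        |K * (ρ⁻¹ - ∑ k ∈ range (R + 1), PowerSeries.coeff k φ * (z⁻¹) ^ k)| +
        |K * ∑ k ∈ range (R + 1), PowerSeries.coeff k φ * ((z⁻¹) ^ k - (K⁻¹ * t) ^ k)| :=
        abs_add_three _ _ _
    _ = K * (|Real.exp θ - 1| * ρ⁻¹) +
        K * |ρ⁻¹ - ∑ k ∈ range (R + 1), PowerSeries.coeff k φ * (z⁻¹) ^ k| +
        K * |∑ k ∈ range (R + 1), PowerSeries.coeff k φ * ((z⁻¹) ^ k - (K⁻¹ * t) ^ k)| := by
        rw [abs_mul, abs_mul, abs_mul, abs_mul, abs_of_pos hK, abs_of_pos (inv_pos.mpr hρ)]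
    _ ≤ _ := by
        have a1 := mul_le_mul_of_nonneg_left hT1 hK.le
        have a2 := mul_le_mul_of_nonneg_left hT2 hK.le
        have a3 := mul_le_mul_of_nonneg_left hT4 hK.le
        calc _ ≤ _ := add_le_add (add_le_add a1 a2) a3
          _ = _ := by ring

open Pool.Agent.H87.TanSum in
theorem key_abs {C0 : ℝ} {ρ : ℕ → ℝ} (hρ : ∀ n, 1 ≤ n → ρ n = Real.exp (SS n - C0) / n)
    (hsc : Scale (fun n => (n : ℝ) * ρ n)) (hlim : Tendsto ρ atTop (𝓝 1))
    {φ : PowerSeries ℝ} (hφ : HasExp (fun n => (n : ℝ) * ρ n) (fun n => (ρ n)⁻¹) φ) :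
    ∀ (R : ℕ) (A : ℝ), ∃ C : ℝ, ∀ n l : ℕ, 1 ≤ n →
      |SS n - l * (Real.pi / 2)| ≤ A / (n : ℝ) ^ (R + 2) →
      |(n : ℝ) * ((Real.exp (Real.pi / 2)) ^ l)⁻¹ -
          Pool.Agent.H25.LE.tr (gK (Real.exp (-C0)) φ) R ((Real.exp (Real.pi / 2)) ^ l)⁻¹| ≤
        C * (((Real.exp (Real.pi / 2)) ^ l)⁻¹) ^ (R + 1) := by
  intro R A
  obtain ⟨c, hc, hcs⟩ := hsc
  obtain ⟨C1, hC1⟩ := hφ (R + 1)
  obtain ⟨M1, hM1⟩ := hlim.bddAbove_range
  have hM1' : ∀ n, ρ n ≤ M1 := fun n => hM1 ⟨n, rfl⟩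
  set M : ℝ := max (max M1 c⁻¹) 1 with hMdef
  have hM : 0 < M := lt_of_lt_of_le one_pos (le_max_right _ _)
  refine ⟨Real.exp (-C0) * (Real.exp |A| * |A| * (M * Real.exp |A| * (Real.exp (-C0))⁻¹) ^ (R + 1) * M) +
        Real.exp (-C0) * (|C1| * ((Real.exp (-C0))⁻¹ * Real.exp |A|) ^ (R + 1)) +
        Real.exp (-C0) * (∑ k ∈ range (R + 1), |PowerSeries.coeff k φ| *
          (((Real.exp (-C0))⁻¹) ^ k * (k * Real.exp (k * |A|)))) *
          (|A| * (M * Real.exp |A| * (Real.exp (-C0))⁻¹) ^ (R + 1)), fun n l hn hθ => ?_⟩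
  · have hn0 : (0 : ℝ) < n := by exact_mod_cast hn
    have hρn : 0 < ρ n := by rw [hρ n hn]; positivity
    have hcρ : c ≤ ρ n := by
      have := hcs n hn
      simp only at this
      rw [mul_comm] at this
      exact le_of_mul_le_mul_left this hn0
    have hz : (n : ℝ) * ρ n = Real.exp (SS n - C0) := by
      rw [hρ n hn]; field_simp
    have hE : (0 : ℝ) < (Real.exp (Real.pi / 2)) ^ l := by positivity
    have hE1 : (1 : ℝ) ≤ (Real.exp (Real.pi / 2)) ^ l :=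
      one_le_pow₀ (Real.one_le_exp (by positivity))
    have hθ1 : |SS n - l * (Real.pi / 2)| ≤ |A| * ((n : ℝ)⁻¹) ^ (R + 1) := by
      refine hθ.trans ?_
      rw [div_eq_mul_inv, ← inv_pow]
      apply mul_le_mul (le_abs_self A) _ (by positivity) (abs_nonneg A)
      apply pow_le_pow_of_le_one (by positivity) _ (by omega)
      exact inv_le_one_of_one_le₀ (by exact_mod_cast hn)
    have hθ2 : |SS n - l * (Real.pi / 2)| ≤ |A| := by
      refine hθ1.trans (mul_le_of_le_one_right (abs_nonneg A) ?_)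
      exact pow_le_one₀ (by positivity) (inv_le_one_of_one_le₀ (by exact_mod_cast hn))
    have hexp := hC1 n hn
    simp only at hexp
    have key := key_est (φ := φ) R (K := Real.exp (-C0)) (A := |A|) (M := M) (C1 := |C1|)
      (ρ := ρ n) (n := (n : ℝ)) (t := ((Real.exp (Real.pi / 2)) ^ l)⁻¹) (z := (n : ℝ) * ρ n)
      (θ := SS n - l * (Real.pi / 2)) (Real.exp_pos _) (abs_nonneg A) hM (abs_nonneg C1) hρn
      ((hM1' n).trans ((le_max_left _ _).trans (le_max_left _ _)))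
      (by
        refine le_trans ?_ ((le_max_right _ _).trans (le_max_left _ _))
        exact inv_anti₀ hc hcρ)
      hn0 (inv_pos.mpr hE) (inv_le_one_of_one_le₀ hE1) rfl
      (by
        rw [hz, div_inv_eq_mul, ← Real.exp_add, ← Real.exp_nat_mul, ← Real.exp_add]
        congr 1
        ring)
      hθ2 hθ1
      (hexp.trans (mul_le_mul_of_nonneg_right (le_abs_self C1) (by positivity)))
    rw [Pool.Agent.H25.LE.tr_eq]
    simp only [gK, PowerSeries.coeff_mk]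
    exact key

end Pool.Agent.H15.LE
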