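import Pool.Agent.H87.TanSum.Link

set_option autoImplicit false

/-! Project LE: an integral value is larger than every power of `n`. -/

namespace Pool.Agent.H15.LE

open Finset Pool.Agent.H87.TanSum

theorem magnitude_pow (R : ℕ) : ∀ᶠ n : ℕ in Filter.atTop, ∀ a m : ℕ,
    a ^ 2 * (1 + m ^ 2) = om n → n ^ R ≤ m := by
  have h1 := sum_three_tendsto.eventually_ge_atTop 20
  filter_upwards [h1, pi_bound, Filter.eventually_ge_atTop (2 * Nat.factorial (2 * R + 1))]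
    with n hT hpi hn a m h
  have hn1 : 1 ≤ n := by
    have : 0 < Nat.factorial (2 * R + 1) := Nat.factorial_pos _
    omega
  have hkey := key_ineq hn1 h
  have hTP : ∀ p ∈ TP n, p.Prime := fun p hp => (mem_filter.mp hp).2.1
  set P := ∏ p ∈ TP n, p ^ (n.factorial.factorization p) with hP
  have hPpos : 0 < P := Finset.prod_pos (fun p hp => pow_pos (hTP p hp).pos _)
  have hPr : (0 : ℝ) < (P : ℝ) := by exact_mod_cast hPpos
  have hkey' : ((P : ℝ)) ^ 2 ≤ (1 + (m : ℝ) ^ 2) *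
      ((1 + (n : ℝ) ^ 2) ^ (Nat.primeCounting (2 * n))) ^ 2 := by exact_mod_cast hkey
  have hlog := Real.log_le_log (by positivity) hkey'
  rw [Real.log_pow, Real.log_mul (by positivity) (by positivity), Real.log_pow, Real.log_pow]
    at hlog
  push_cast at hlog
  have hPge := log_P_ge (n := n)
  rw [← hP] at hPge
  have e3 : Real.log 4 ≤ 1.4 := by
    have : Real.log 4 = 2 * Real.log 2 := by
      rw [show (4 : ℝ) = 2 ^ 2 by norm_num, Real.log_pow]; norm_num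
    rw [this]
    have := Real.log_two_lt_d9
    linarith
  have hnr : (1 : ℝ) ≤ n := by exact_mod_cast hn1
  have h2 : (n : ℝ) * 20 ≤ (n : ℝ) * (∑ p ∈ TP n, Real.log p / p) :=
    mul_le_mul_of_nonneg_left hT (by positivity)
  have h3 : Real.log 4 * (n : ℝ) ≤ 1.4 * n := mul_le_mul_of_nonneg_right e3 (by positivity)
  have h4 : (n : ℝ) ≤ Real.log (1 + (m : ℝ) ^ 2) := by linarith
  have h5 : Real.exp (n : ℝ) ≤ 1 + (m : ℝ) ^ 2 := by
    rw [← Real.exp_log (by positivity : (0 : ℝ) < 1 + (m : ℝ) ^ 2)]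
    exact Real.exp_le_exp.mpr h4
  have h6 : (n : ℝ) ^ (2 * R + 1) / (Nat.factorial (2 * R + 1) : ℝ) ≤ Real.exp n :=
    Real.pow_div_factorial_le_exp (n : ℝ) (by positivity) (2 * R + 1)
  have h7 : 2 * (n : ℝ) ^ (2 * R) ≤ (n : ℝ) ^ (2 * R + 1) / (Nat.factorial (2 * R + 1) : ℝ) := by
    rw [le_div_iff₀ (by positivity)]
    have : 2 * (Nat.factorial (2 * R + 1) : ℝ) ≤ n := by exact_mod_cast hn
    calc 2 * (n : ℝ) ^ (2 * R) * (Nat.factorial (2 * R + 1) : ℝ)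
        = (2 * (Nat.factorial (2 * R + 1) : ℝ)) * (n : ℝ) ^ (2 * R) := by ring
      _ ≤ n * (n : ℝ) ^ (2 * R) := mul_le_mul_of_nonneg_right this (by positivity)
      _ = (n : ℝ) ^ (2 * R + 1) := by ring
  have h8 : (1 : ℝ) ≤ (n : ℝ) ^ (2 * R) := one_le_pow₀ hnr
  have h9 : (n : ℝ) ^ (2 * R) ≤ (m : ℝ) ^ 2 := by linarith
  have h10 : n ^ (2 * R) ≤ m ^ 2 := by exact_mod_cast h9
  have h11 : (n ^ R) ^ 2 ≤ m ^ 2 := by
    calc (n ^ R) ^ 2 = n ^ (2 * R) := by rw [← pow_mul, mul_comm]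
      _ ≤ m ^ 2 := h10
  exact (Nat.pow_le_pow_iff_left (by norm_num)).mp h11

theorem integer_extreme_pow (R : ℕ) : ∃ n1 : ℕ, ∀ n : ℕ, n1 ≤ n → (ZZ n).re ∣ (ZZ n).im →
    (n : ℤ) ^ R * |(ZZ n).re| ≤ |(ZZ n).im| := by
  obtain ⟨n1, h⟩ := Filter.eventually_atTop.mp (magnitude_pow R)
  refine ⟨n1, fun n hn hd => ?_⟩
  obtain ⟨m, hm⟩ := hd
  have h1 := ZZ_norm n
  rw [hm] at h1
  have h2 : ((ZZ n).re.natAbs) ^ 2 * (1 + m.natAbs ^ 2) = om n := by
    zify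
    rw [sq_abs, sq_abs, ← h1]
    ring
  have h3 := h n hn _ _ h2
  rw [hm, abs_mul, mul_comm]
  apply mul_le_mul_of_nonneg_left _ (abs_nonneg _)
  have h4 : ((n ^ R : ℕ) : ℤ) ≤ (m.natAbs : ℤ) := by exact_mod_cast h3
  rw [Int.natCast_natAbs] at h4
  push_cast at h4
  exact h4

end Pool.Agent.H15.LE
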