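import Pool.Agent.H15.LE.Defs

set_option autoImplicit false
set_option linter.style.longLine false

/-! Project LE (MP_032421_nt): sequences with expansions in polynomials of `1 / w n`. -/

namespace Pool.Agent.H15.LE

open Finset Filter Topology

section LE01
variable {w f f' : ℕ → ℝ} {F F' G : PowerSeries ℝ}

private lemma ge_pos (hw : Scale w) : ∀ n : ℕ, 1 ≤ n → 0 < (w n)⁻¹ := by
  obtain ⟨c, hc, h⟩ := hw
  intro n hn
  have h1 : (1 : ℝ) ≤ n := by exact_mod_cast hn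
  have h2 := h n hn
  have h3 : 0 < c * n := by positivity
  exact inv_pos.2 (h3.trans_le h2)

private lemma ge_bdd (hw : Scale w) : ∃ B : ℝ, 0 < B ∧ ∀ n : ℕ, 1 ≤ n → (w n)⁻¹ ≤ B := by
  obtain ⟨c, hc, h⟩ := hw
  refine ⟨c⁻¹, inv_pos.2 hc, fun n hn => ?_⟩
  have h1 : (1 : ℝ) ≤ n := by exact_mod_cast hn
  refine inv_anti₀ hc (le_trans ?_ (h n hn))
  nlinarith

private lemma ge_tend (hw : Scale w) : Tendsto (fun n => (w n)⁻¹) atTop (𝓝 0) := by
  obtain ⟨c, hc, h⟩ := hw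
  refine Tendsto.inv_tendsto_atTop ?_
  refine tendsto_atTop_mono' atTop ?_ (Tendsto.const_mul_atTop hc tendsto_natCast_atTop_atTop)
  filter_upwards [eventually_ge_atTop 1] with n hn
  exact h n hn

private lemma ge_eval (hw : Scale w) (P : Polynomial ℝ) :
    ∃ B : ℝ, 0 ≤ B ∧ ∀ n : ℕ, 1 ≤ n → |P.eval ((w n)⁻¹)| ≤ B := by
  obtain ⟨B, hB, h⟩ := ge_bdd hw
  obtain ⟨C, hC⟩ := (isCompact_Icc (a := (0 : ℝ)) (b := B)).exists_bound_of_continuousOn
    (f := fun x => P.eval x) P.continuous.continuousOn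
  refine ⟨C, (norm_nonneg _).trans (hC 0 ⟨le_rfl, hB.le⟩), fun n hn => ?_⟩
  exact hC _ ⟨(ge_pos hw n hn).le, h n hn⟩

/-- a polynomial which is `O(w^{-R})` has vanishing coefficients below `R` -/
private lemma ge_unique (hw : Scale w) {P : Polynomial ℝ} {R : ℕ} {C : ℝ}
    (h : ∀ n : ℕ, 1 ≤ n → |P.eval ((w n)⁻¹)| ≤ C * ((w n)⁻¹) ^ R) :
    ∀ k, k < R → P.coeff k = 0 := by
  have key : ∀ k, k ≤ R → Polynomial.X ^ k ∣ P := by
    intro k
    induction k with
    | zero => intro _; simp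
    | succ k ih =>
      intro hk
      obtain ⟨Q, hQ⟩ := ih (by omega)
      have h1 : ∀ n : ℕ, 1 ≤ n → |Q.eval ((w n)⁻¹)| ≤ C * ((w n)⁻¹) ^ (R - k) := by
        intro n hn
        have ht := ge_pos hw n hn
        have h2 := h n hn
        rw [hQ, Polynomial.eval_mul, Polynomial.eval_pow, Polynomial.eval_X, abs_mul,
          abs_of_nonneg (pow_nonneg ht.le _)] at h2
        have h3 : ((w n)⁻¹) ^ R = ((w n)⁻¹) ^ k * ((w n)⁻¹) ^ (R - k) := by
          rw [← pow_add]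
          congr 1
          omega
        rw [h3] at h2
        have h4 : ((w n)⁻¹) ^ k * |Q.eval ((w n)⁻¹)|
            ≤ ((w n)⁻¹) ^ k * (C * ((w n)⁻¹) ^ (R - k)) := by linarith
        exact le_of_mul_le_mul_left h4 (pow_pos ht _)
      have h5 : Tendsto (fun n => C * ((w n)⁻¹) ^ (R - k)) atTop (𝓝 0) := by
        have := ((ge_tend hw).pow (R - k)).const_mul C
        rwa [zero_pow (by omega), mul_zero] at this
      have h6 : Tendsto (fun n => Q.eval ((w n)⁻¹)) atTop (𝓝 (Q.eval 0)) :=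
        (Q.continuous.tendsto 0).comp (ge_tend hw)
      have h7 : Tendsto (fun n => Q.eval ((w n)⁻¹)) atTop (𝓝 0) := by
        refine squeeze_zero_norm' ?_ h5
        filter_upwards [eventually_ge_atTop 1] with n hn
        exact h1 n hn
      have h8 : Q.eval 0 = 0 := tendsto_nhds_unique h6 h7
      have h9 : Polynomial.X ∣ Q := by
        rw [Polynomial.X_dvd_iff, Polynomial.coeff_zero_eq_eval_zero]
        exact h8
      rw [hQ, pow_succ]
      exact mul_dvd_mul_left _ h9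
  intro k hk
  exact (Polynomial.X_pow_dvd_iff.1 (key R le_rfl)) k hk

theorem HasExp.good (h : HasExp w f F) : Good w f := by
  intro R
  obtain ⟨C, hC⟩ := h R
  refine ⟨∑ k ∈ range R, Polynomial.C (PowerSeries.coeff k F) * Polynomial.X ^ k, C, ?_⟩
  intro n hn
  have e : (∑ k ∈ range R, Polynomial.C (PowerSeries.coeff k F) * Polynomial.X ^ k).eval ((w n)⁻¹)
      = ∑ k ∈ range R, PowerSeries.coeff k F * ((w n)⁻¹) ^ k := by
    rw [Polynomial.eval_finsetSum]
    refine sum_congr rfl fun k _ => ?_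
    simp
  rw [e]
  exact hC n hn

/-- the part of a polynomial of degree `≥ R` is `O(w^{-R})` -/
private lemma ge_tail (hw : Scale w) (P : Polynomial ℝ) (R : ℕ) : ∃ C : ℝ, ∀ n : ℕ, 1 ≤ n →
    |P.eval ((w n)⁻¹) - ∑ k ∈ range R, P.coeff k * ((w n)⁻¹) ^ k| ≤ C * ((w n)⁻¹) ^ R := by
  have h1 : Polynomial.X ^ R ∣ P - ∑ k ∈ range R, Polynomial.C (P.coeff k) * Polynomial.X ^ k := by
    rw [Polynomial.X_pow_dvd_iff]
    intro d hd
    rw [Polynomial.coeff_sub, Polynomial.finsetSum_coeff]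
    simp only [Polynomial.coeff_C_mul, Polynomial.coeff_X_pow]
    rw [Finset.sum_eq_single d]
    · simp
    · intro b _ hb
      rw [if_neg (Ne.symm hb), mul_zero]
    · intro h
      exact absurd (mem_range.2 hd) h
  obtain ⟨Q, hQ⟩ := h1
  obtain ⟨B, hB0, hB⟩ := ge_eval hw Q
  refine ⟨B, fun n hn => ?_⟩
  have ht := ge_pos hw n hn
  have e : P.eval ((w n)⁻¹) - ∑ k ∈ range R, P.coeff k * ((w n)⁻¹) ^ k
      = ((w n)⁻¹) ^ R * Q.eval ((w n)⁻¹) := by
    have := congrArg (fun p => Polynomial.eval ((w n)⁻¹) p) hQ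
    simp only [Polynomial.eval_sub, Polynomial.eval_finsetSum, Polynomial.eval_mul,
      Polynomial.eval_C, Polynomial.eval_pow, Polynomial.eval_X] at this
    exact this
  rw [e, abs_mul, abs_of_nonneg (pow_nonneg ht.le _), mul_comm]
  exact mul_le_mul_of_nonneg_right (hB n hn) (pow_nonneg ht.le _)

theorem Good.hasExp (hw : Scale w) (h : Good w f) : ∃ F, HasExp w f F := by
  choose P C hPC using h
  have hlow : ∀ R : ℕ, ∃ D : ℝ, ∀ n : ℕ, 1 ≤ n →
      |f n - ∑ k ∈ range R, (P R).coeff k * ((w n)⁻¹) ^ k| ≤ D * ((w n)⁻¹) ^ R := by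
    intro R
    obtain ⟨D, hD⟩ := ge_tail hw (P R) R
    refine ⟨C R + D, fun n hn => ?_⟩
    have h1 := hPC R n hn
    have h2 := hD n hn
    have h3 := abs_add_le (f n - (P R).eval ((w n)⁻¹))
      ((P R).eval ((w n)⁻¹) - ∑ k ∈ range R, (P R).coeff k * ((w n)⁻¹) ^ k)
    rw [sub_add_sub_cancel] at h3
    linarith
  have hagree : ∀ R S : ℕ, S ≤ R → ∀ k, k < S → (P R).coeff k = (P S).coeff k := by
    intro R S hRS k hk
    obtain ⟨B, hB, hB2⟩ := ge_bdd hw
    have h1 : ∀ n : ℕ, 1 ≤ n → |(P R - P S).eval ((w n)⁻¹)|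
        ≤ (|C R| * B ^ (R - S) + C S) * ((w n)⁻¹) ^ S := by
      intro n hn
      have ht := ge_pos hw n hn
      have h2 := hPC R n hn
      have h3 := hPC S n hn
      rw [Polynomial.eval_sub]
      have h4 : |(P R).eval ((w n)⁻¹) - (P S).eval ((w n)⁻¹)|
          ≤ |f n - (P R).eval ((w n)⁻¹)| + |f n - (P S).eval ((w n)⁻¹)| := by
        have := abs_sub (f n - (P S).eval ((w n)⁻¹)) (f n - (P R).eval ((w n)⁻¹))
        rw [sub_sub_sub_cancel_left] at this
        linarith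
      have h5 : C R * ((w n)⁻¹) ^ R ≤ |C R| * B ^ (R - S) * ((w n)⁻¹) ^ S := by
        have e : ((w n)⁻¹) ^ R = ((w n)⁻¹) ^ (R - S) * ((w n)⁻¹) ^ S := by
          rw [← pow_add]
          congr 1
          omega
        rw [e]
        have h6 : ((w n)⁻¹) ^ (R - S) ≤ B ^ (R - S) := pow_le_pow_left₀ ht.le (hB2 n hn) _
        have h7 : C R * ((w n)⁻¹) ^ (R - S) ≤ |C R| * B ^ (R - S) := by
          calc C R * ((w n)⁻¹) ^ (R - S) ≤ |C R| * ((w n)⁻¹) ^ (R - S) :=
                mul_le_mul_of_nonneg_right (le_abs_self _) (pow_nonneg ht.le _)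
            _ ≤ _ := mul_le_mul_of_nonneg_left h6 (abs_nonneg _)
        calc _ = C R * ((w n)⁻¹) ^ (R - S) * ((w n)⁻¹) ^ S := by ring
          _ ≤ _ := mul_le_mul_of_nonneg_right h7 (pow_nonneg ht.le _)
      linarith
    have h2 := ge_unique hw h1 k hk
    rw [Polynomial.coeff_sub] at h2
    linarith
  refine ⟨PowerSeries.mk fun k => (P (k + 1)).coeff k, fun R => ?_⟩
  obtain ⟨D, hD⟩ := hlow R
  refine ⟨D, fun n hn => ?_⟩
  have e : ∑ k ∈ range R, PowerSeries.coeff k (PowerSeries.mk fun k => (P (k + 1)).coeff k)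
      * ((w n)⁻¹) ^ k = ∑ k ∈ range R, (P R).coeff k * ((w n)⁻¹) ^ k := by
    refine sum_congr rfl fun k hk => ?_
    rw [PowerSeries.coeff_mk, hagree R (k + 1) (mem_range.1 hk) k (by omega)]
  rw [e]
  exact hD n hn

theorem Good.const (hw : Scale w) (c : ℝ) : Good w (fun _ => c) := by
  have _ := hw
  intro R
  refine ⟨Polynomial.C c, 0, fun n _ => ?_⟩
  simp

theorem Good.add (h : Good w f) (h' : Good w f') : Good w (fun n => f n + f' n) := by
  intro R
  obtain ⟨P, C, hP⟩ := h R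
  obtain ⟨P', C', hP'⟩ := h' R
  refine ⟨P + P', C + C', fun n hn => ?_⟩
  have h1 := hP n hn
  have h2 := hP' n hn
  have h3 := abs_add_le (f n - P.eval ((w n)⁻¹)) (f' n - P'.eval ((w n)⁻¹))
  rw [Polynomial.eval_add]
  have e : f n + f' n - (P.eval ((w n)⁻¹) + P'.eval ((w n)⁻¹))
      = f n - P.eval ((w n)⁻¹) + (f' n - P'.eval ((w n)⁻¹)) := by ring
  rw [e]
  linarith

private lemma ge_good_bdd (hw : Scale w) (h : Good w f) :
    ∃ B : ℝ, 0 ≤ B ∧ ∀ n : ℕ, 1 ≤ n → |f n| ≤ B := by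
  obtain ⟨P, C, hP⟩ := h 0
  obtain ⟨B, hB0, hB⟩ := ge_eval hw P
  refine ⟨B + |C|, by positivity, fun n hn => ?_⟩
  have h1 := hP n hn
  rw [pow_zero, mul_one] at h1
  have h2 := hB n hn
  have h3 := abs_add_le (f n - P.eval ((w n)⁻¹)) (P.eval ((w n)⁻¹))
  rw [sub_add_cancel] at h3
  have h4 := le_abs_self C
  linarith

theorem Good.mul (hw : Scale w) (h : Good w f) (h' : Good w f') :
    Good w (fun n => f n * f' n) := by
  intro R
  obtain ⟨P, C, hP⟩ := h R
  obtain ⟨P', C', hP'⟩ := h' R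
  obtain ⟨B, hB0, hB⟩ := ge_good_bdd hw h
  obtain ⟨B', hB0', hB'⟩ := ge_eval hw P'
  refine ⟨P * P', B * C' + B' * C, fun n hn => ?_⟩
  have h1 := hP n hn
  have h2 := hP' n hn
  have h3 := hB n hn
  have h4 := hB' n hn
  rw [Polynomial.eval_mul]
  have e : f n * f' n - P.eval ((w n)⁻¹) * P'.eval ((w n)⁻¹)
      = f n * (f' n - P'.eval ((w n)⁻¹)) + P'.eval ((w n)⁻¹) * (f n - P.eval ((w n)⁻¹)) := by
    ring
  rw [e]
  refine (abs_add_le _ _).trans ?_
  rw [abs_mul, abs_mul]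
  have h5 := mul_le_mul h3 h2 (abs_nonneg _) hB0
  have h6 := mul_le_mul h4 h1 (abs_nonneg _) hB0'
  calc _ ≤ B * (C' * ((w n)⁻¹) ^ R) + B' * (C * ((w n)⁻¹) ^ R) := add_le_add h5 h6
    _ = _ := by ring

theorem Good.pow (hw : Scale w) (h : Good w f) (b : ℕ) : Good w (fun n => f n ^ b) := by
  induction b with
  | zero => simpa using Good.const hw 1
  | succ b ih =>
    have := Good.mul hw ih h
    simpa only [pow_succ] using this

/-- inverse of a sequence with limit one -/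
theorem Good.inv (hw : Scale w) (h : Good w f) (h1 : ∃ C : ℝ, ∀ n, 1 ≤ n → |1 - f n| ≤ C * (w n)⁻¹)
    (h2 : ∃ c : ℝ, 0 < c ∧ ∀ n, 1 ≤ n → c ≤ f n) : Good w (fun n => (f n)⁻¹) := by
  obtain ⟨C, hC⟩ := h1
  obtain ⟨c, hc, hcf⟩ := h2
  have g1 : Good w (fun n => 1 - f n) := by
    have := Good.add (Good.const hw 1) (Good.mul hw (Good.const hw (-1)) h)
    convert this using 1
    funext n
    ring
  have g2 : ∀ R : ℕ, Good w (fun n => ∑ i ∈ range R, (1 - f n) ^ i) := by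
    intro R
    induction R with
    | zero => simpa using Good.const hw 0
    | succ R ih =>
      have := Good.add ih (Good.pow hw g1 R)
      simpa only [sum_range_succ] using this
  intro R
  obtain ⟨P, D, hP⟩ := g2 R R
  refine ⟨P, D + C ^ R / c, fun n hn => ?_⟩
  have hf : 0 < f n := hc.trans_le (hcf n hn)
  have ht := ge_pos hw n hn
  have h3 := hP n hn
  have h4 : (f n)⁻¹ - ∑ i ∈ range R, (1 - f n) ^ i = (1 - f n) ^ R / f n := by
    have := geom_sum_mul_neg (1 - f n) R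
    rw [sub_sub_cancel] at this
    rw [eq_div_iff hf.ne', sub_mul, this, inv_mul_cancel₀ hf.ne']
    ring
  have h5 : |(1 - f n) ^ R / f n| ≤ C ^ R / c * ((w n)⁻¹) ^ R := by
    rw [abs_div, abs_pow, abs_of_pos hf]
    have h6 := pow_le_pow_left₀ (abs_nonneg _) (hC n hn) R
    have h7 : 0 ≤ (C * (w n)⁻¹) ^ R := (pow_nonneg (abs_nonneg _) _).trans h6
    calc |1 - f n| ^ R / f n ≤ (C * (w n)⁻¹) ^ R / c := div_le_div₀ h7 h6 hc (hcf n hn)
      _ = _ := by
        rw [mul_pow]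
        ring
  have h8 := abs_add_le ((f n)⁻¹ - ∑ i ∈ range R, (1 - f n) ^ i)
    (∑ i ∈ range R, (1 - f n) ^ i - P.eval ((w n)⁻¹))
  rw [sub_add_sub_cancel, h4] at h8
  linarith

end LE01

end Pool.Agent.H15.LE
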