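import Pool.Agent.H15.LE.Exp
import Pool.Agent.H15.LE.GoodExp

set_option autoImplicit false

/-! Project LE, file LE-05: change of scale from `n` to `z n = n * ρ n`. -/

namespace Pool.Agent.H15.LE

open Finset Filter Topology

/-- `ρ` tends to the constant coefficient -/
theorem zs_tendsto {w f : ℕ → ℝ} {F : PowerSeries ℝ} (hw : Scale w) (h : HasExp w f F) :
    Tendsto f atTop (𝓝 (PowerSeries.coeff 0 F)) := by
  obtain ⟨C, hC⟩ := h 1
  have h1 : Tendsto (fun n => C * (w n)⁻¹) atTop (𝓝 0) := by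
    simpa using hw.tendsto_inv.const_mul C
  rw [tendsto_iff_norm_sub_tendsto_zero]
  refine squeeze_zero' (Eventually.of_forall fun n => norm_nonneg _) ?_ h1
  filter_upwards [eventually_ge_atTop 1] with n hn
  have := hC n hn
  simpa [Finset.sum_range_one] using this

/-- a positive sequence with limit one is bounded below -/
theorem zs_lower {ρ : ℕ → ℝ} {g : PowerSeries ℝ} (hpos : ∀ n, 1 ≤ n → 0 < ρ n)
    (hg : HasExp idn ρ g) (hg0 : PowerSeries.coeff 0 g = 1) :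
    ∃ c : ℝ, 0 < c ∧ ∀ n, 1 ≤ n → c ≤ ρ n := by
  have h1 := zs_tendsto scale_idn hg
  rw [hg0] at h1
  have h2 : ∀ᶠ n in atTop, (1 / 2 : ℝ) < ρ n :=
    h1.eventually (lt_mem_nhds (by norm_num))
  obtain ⟨N, hN⟩ := eventually_atTop.1 h2
  have key : ∀ K : ℕ, ∃ c : ℝ, 0 < c ∧ ∀ n, 1 ≤ n → n < K → c ≤ ρ n := by
    intro K
    induction K with
    | zero => exact ⟨1, one_pos, fun n _ h => absurd h (Nat.not_lt_zero n)⟩
    | succ K ih =>
      obtain ⟨c, hc, h⟩ := ih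
      by_cases hK : 1 ≤ K
      · refine ⟨min c (ρ K), lt_min hc (hpos K hK), fun n hn hnK => ?_⟩
        rcases Nat.lt_succ_iff_lt_or_eq.1 hnK with h3 | h3
        · exact (min_le_left _ _).trans (h n hn h3)
        · rw [h3]; exact min_le_right _ _
      · refine ⟨c, hc, fun n hn hnK => h n hn ?_⟩
        omega
  obtain ⟨c, hc, h⟩ := key N
  refine ⟨min c (1 / 2), lt_min hc (by norm_num), fun n hn => ?_⟩
  rcases lt_or_ge n N with h3 | h3
  · exact (min_le_left _ _).trans (h n hn h3)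
  · exact (min_le_right _ _).trans (hN n h3).le

theorem scale_z {ρ : ℕ → ℝ} {g : PowerSeries ℝ} (hpos : ∀ n, 1 ≤ n → 0 < ρ n)
    (hg : HasExp idn ρ g) (hg0 : PowerSeries.coeff 0 g = 1) : Scale (fun n => (n : ℝ) * ρ n) := by
  obtain ⟨c, hc, h⟩ := zs_lower hpos hg hg0
  refine ⟨c, hc, fun n hn => ?_⟩
  have h1 : (0 : ℝ) ≤ n := Nat.cast_nonneg n
  calc c * n = n * c := mul_comm _ _
    _ ≤ n * ρ n := mul_le_mul_of_nonneg_left (h n hn) h1

/-- polynomials are Lipschitz on bounded sets -/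
theorem zs_lip (a : ℕ → ℝ) (B : ℝ) (hB : 0 ≤ B) (R : ℕ) :
    ∃ L : ℝ, 0 ≤ L ∧ ∀ u v : ℝ, |u| ≤ B → |v| ≤ B →
      |∑ k ∈ range R, a k * u ^ k - ∑ k ∈ range R, a k * v ^ k| ≤ L * |u - v| := by
  induction R with
  | zero => exact ⟨0, le_rfl, fun u v _ _ => by simp⟩
  | succ R ih =>
    obtain ⟨L, hL, h⟩ := ih
    refine ⟨L + |a R| * (R * B ^ (R - 1)), by positivity, fun u v hu hv => ?_⟩
    rw [sum_range_succ, sum_range_succ]
    have h1 := h u v hu hv
    have h2 : |u ^ R - v ^ R| ≤ (R * B ^ (R - 1)) * |u - v| := by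
      have h3 := abs_pow_sub_pow_le u v R
      calc |u ^ R - v ^ R| ≤ |u - v| * R * max |u| |v| ^ (R - 1) := h3
        _ ≤ |u - v| * R * B ^ (R - 1) := by
          refine mul_le_mul_of_nonneg_left ?_ (by positivity)
          exact pow_le_pow_left₀ (le_max_of_le_left (abs_nonneg u)) (max_le hu hv) _
        _ = _ := by ring
    calc |∑ k ∈ range R, a k * u ^ k + a R * u ^ R - (∑ k ∈ range R, a k * v ^ k + a R * v ^ R)|
        = |(∑ k ∈ range R, a k * u ^ k - ∑ k ∈ range R, a k * v ^ k) + a R * (u ^ R - v ^ R)| := by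
          congr 1; ring
      _ ≤ |∑ k ∈ range R, a k * u ^ k - ∑ k ∈ range R, a k * v ^ k| + |a R * (u ^ R - v ^ R)| :=
          abs_add_le _ _
      _ ≤ L * |u - v| + |a R| * ((R * B ^ (R - 1)) * |u - v|) := by
          rw [abs_mul]
          exact add_le_add h1 (mul_le_mul_of_nonneg_left h2 (abs_nonneg _))
      _ = _ := by ring

/-- `ρ` is a polynomial in `1 / z` up to every order -/
theorem zs_good {ρ : ℕ → ℝ} {g : PowerSeries ℝ} (hpos : ∀ n, 1 ≤ n → 0 < ρ n)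
    (hg : HasExp idn ρ g) (hg0 : PowerSeries.coeff 0 g = 1) :
    Good (fun n => (n : ℝ) * ρ n) ρ := by
  have hw := scale_z hpos hg hg0
  obtain ⟨A, hA0, hA⟩ := hg.bdd
  obtain ⟨B, hB0, hB⟩ := hw.inv_bdd
  have hinv : ∀ n : ℕ, 1 ≤ n → (idn n)⁻¹ = (((n : ℝ) * ρ n)⁻¹) * ρ n := by
    intro n hn
    have h1 : (n : ℝ) ≠ 0 := by
      have : 0 < n := hn
      exact_mod_cast this.ne'
    have h2 := (hpos n hn).ne'
    simp only [idn]
    field_simp
  intro r
  induction r with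
  | zero =>
    refine ⟨0, A, fun n hn => ?_⟩
    simpa using hA n hn
  | succ r ih =>
    obtain ⟨P, C, hP⟩ := ih
    obtain ⟨D, hD0, hD⟩ := poly_bdd hw P
    obtain ⟨C1, hC1⟩ := hg (r + 1)
    set M : ℝ := B * (A + D) with hM
    have hM0 : 0 ≤ M := by positivity
    obtain ⟨L, hL0, hL⟩ := zs_lip (fun k => PowerSeries.coeff k g) M hM0 (r + 1)
    refine ⟨∑ k ∈ range (r + 1), Polynomial.C (PowerSeries.coeff k g) * (Polynomial.X * P) ^ k,
      |C1| * A ^ (r + 1) + L * |C|, fun n hn => ?_⟩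
    set t : ℝ := ((n : ℝ) * ρ n)⁻¹ with ht
    have ht0 : 0 < t := hw.inv_pos hn
    have htB : t ≤ B := hB n hn
    have hρ := hA n hn
    have e1 : (∑ k ∈ range (r + 1), Polynomial.C (PowerSeries.coeff k g) *
        (Polynomial.X * P) ^ k).eval t =
        ∑ k ∈ range (r + 1), PowerSeries.coeff k g * (t * P.eval t) ^ k := by
      rw [Polynomial.eval_finsetSum]
      refine sum_congr rfl fun k _ => ?_
      simp
    rw [e1]
    have h1 := hC1 n hn
    rw [hinv n hn] at h1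
    have h2 : |∑ k ∈ range (r + 1), PowerSeries.coeff k g * (t * ρ n) ^ k -
        ∑ k ∈ range (r + 1), PowerSeries.coeff k g * (t * P.eval t) ^ k| ≤
        L * |t * ρ n - t * P.eval t| := by
      refine hL _ _ ?_ ?_
      · rw [abs_mul, abs_of_pos ht0]
        calc t * |ρ n| ≤ B * A := mul_le_mul htB hρ (abs_nonneg _) hB0.le
          _ ≤ M := by rw [hM]; nlinarith
      · rw [abs_mul, abs_of_pos ht0]
        calc t * |P.eval t| ≤ B * D := mul_le_mul htB (hD n hn) (abs_nonneg _) hB0.le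
          _ ≤ M := by rw [hM]; nlinarith
    have h3 : |t * ρ n - t * P.eval t| ≤ |C| * t ^ (r + 1) := by
      rw [← mul_sub, abs_mul, abs_of_pos ht0]
      have h4 := hP n hn
      calc t * |ρ n - P.eval t| ≤ t * (|C| * t ^ r) := by
            refine mul_le_mul_of_nonneg_left (h4.trans ?_) ht0.le
            exact mul_le_mul_of_nonneg_right (le_abs_self C) (pow_nonneg ht0.le r)
        _ = |C| * t ^ (r + 1) := by ring
    have h5 : C1 * (t * ρ n) ^ (r + 1) ≤ |C1| * A ^ (r + 1) * t ^ (r + 1) := by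
      have h6 : (t * ρ n) ^ (r + 1) ≤ A ^ (r + 1) * t ^ (r + 1) := by
        rw [mul_pow, mul_comm]
        refine mul_le_mul_of_nonneg_right ?_ (pow_nonneg ht0.le _)
        exact pow_le_pow_left₀ (hpos n hn).le ((le_abs_self _).trans hρ) _
      have h7 : 0 ≤ (t * ρ n) ^ (r + 1) := pow_nonneg (mul_pos ht0 (hpos n hn)).le _
      calc C1 * (t * ρ n) ^ (r + 1) ≤ |C1| * (t * ρ n) ^ (r + 1) :=
            mul_le_mul_of_nonneg_right (le_abs_self C1) h7
        _ ≤ |C1| * (A ^ (r + 1) * t ^ (r + 1)) := mul_le_mul_of_nonneg_left h6 (abs_nonneg _)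
        _ = _ := by ring
    calc |ρ n - ∑ k ∈ range (r + 1), PowerSeries.coeff k g * (t * P.eval t) ^ k|
        ≤ |ρ n - ∑ k ∈ range (r + 1), PowerSeries.coeff k g * (t * ρ n) ^ k| +
          |∑ k ∈ range (r + 1), PowerSeries.coeff k g * (t * ρ n) ^ k -
            ∑ k ∈ range (r + 1), PowerSeries.coeff k g * (t * P.eval t) ^ k| :=
          abs_sub_le _ _ _
      _ ≤ |C1| * A ^ (r + 1) * t ^ (r + 1) + L * (|C| * t ^ (r + 1)) :=
          add_le_add (h1.trans h5) (h2.trans (mul_le_mul_of_nonneg_left h3 hL0))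
      _ = (|C1| * A ^ (r + 1) + L * |C|) * t ^ (r + 1) := by ring

theorem zscale {ρ : ℕ → ℝ} {g : PowerSeries ℝ} (hpos : ∀ n, 1 ≤ n → 0 < ρ n)
    (hg : HasExp idn ρ g) (hg0 : PowerSeries.coeff 0 g = 1) :
    ∃ φ : PowerSeries ℝ, HasExp (fun n => (n : ℝ) * ρ n) (fun n => (ρ n)⁻¹) φ ∧
      PowerSeries.constantCoeff φ = 1 := by
  have hw := scale_z hpos hg hg0
  obtain ⟨A, hA0, hA⟩ := hg.bdd
  have h1 : ∃ C : ℝ, ∀ n, 1 ≤ n → |1 - ρ n| ≤ C * ((n : ℝ) * ρ n)⁻¹ := by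
    obtain ⟨C, hC⟩ := hg 1
    refine ⟨|C| * A, fun n hn => ?_⟩
    have h2 := hC n hn
    simp only [Finset.sum_range_one, hg0, pow_zero, mul_one, pow_one, idn] at h2
    have hn0 : (0 : ℝ) < n := by
      have : 0 < n := hn
      exact_mod_cast this
    have hρ := hpos n hn
    have h3 : (n : ℝ)⁻¹ ≤ A * ((n : ℝ) * ρ n)⁻¹ := by
      rw [mul_inv]
      have h4 : ρ n * (ρ n)⁻¹ = 1 := mul_inv_cancel₀ hρ.ne'
      calc (n : ℝ)⁻¹ = ρ n * ((n : ℝ)⁻¹ * (ρ n)⁻¹) := by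
            rw [mul_left_comm, h4, mul_one]
        _ ≤ A * ((n : ℝ)⁻¹ * (ρ n)⁻¹) :=
            mul_le_mul_of_nonneg_right ((le_abs_self _).trans (hA n hn)) (by positivity)
    rw [abs_sub_comm]
    calc |ρ n - 1| ≤ C * (n : ℝ)⁻¹ := h2
      _ ≤ |C| * (n : ℝ)⁻¹ := mul_le_mul_of_nonneg_right (le_abs_self C) (by positivity)
      _ ≤ |C| * (A * ((n : ℝ) * ρ n)⁻¹) := mul_le_mul_of_nonneg_left h3 (abs_nonneg C)
      _ = _ := by ring
  obtain ⟨φ, hφ⟩ := (Good.inv hw (zs_good hpos hg hg0) h1 (zs_lower hpos hg hg0)).hasExp hw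
  refine ⟨φ, hφ, ?_⟩
  have h2 := zs_tendsto hw hφ
  have h3 := zs_tendsto scale_idn hg
  rw [hg0] at h3
  have h4 : Tendsto (fun n => (ρ n)⁻¹) atTop (𝓝 1) := by
    simpa using h3.inv₀ one_ne_zero
  have h5 := tendsto_nhds_unique h2 h4
  rw [← h5, PowerSeries.coeff_zero_eq_constantCoeff]

end Pool.Agent.H15.LE
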