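import Pool.Agent.H15.LE.Exp
import Pool.Agent.H15.LE.ESer
import Pool.Agent.H15.LE.ETrans
import Pool.Agent.H15.LE.ZScale

set_option autoImplicit false

namespace Pool.Agent.H15.LE

open Finset Filter Topology Polynomial

/-- bound for the degrees of the coefficients -/
noncomputable def cdeg (P : Polynomial (Polynomial ℝ)) : ℕ :=
  P.support.sup (fun m => (P.coeff m).natDegree)

lemma natDegree_le_cdeg (P : Polynomial (Polynomial ℝ)) (m : ℕ) :
    (P.coeff m).natDegree ≤ cdeg P := by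
  by_cases h : m ∈ P.support
  · exact Finset.le_sup (f := fun m => (P.coeff m).natDegree) h
  · rw [Polynomial.notMem_support_iff.mp h]
    simp

lemma evalP (P : Polynomial (Polynomial ℝ)) (t y : ℝ) :
    (P.map (Polynomial.evalRingHom t)).eval y =
      ∑ m ∈ range (P.natDegree + 1), ∑ a ∈ range (cdeg P + 1),
        (P.coeff m).coeff a * t ^ a * y ^ m := by
  rw [Polynomial.eval_eq_sum_range' (n := P.natDegree + 1)
    (lt_of_le_of_lt Polynomial.natDegree_map_le (Nat.lt_succ_self _))]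
  refine Finset.sum_congr rfl (fun m _ => ?_)
  rw [Polynomial.coeff_map, Polynomial.coe_evalRingHom,
    Polynomial.eval_eq_sum_range' (n := cdeg P + 1)
      (lt_of_le_of_lt (natDegree_le_cdeg P m) (Nat.lt_succ_self _)), Finset.sum_mul]

lemma exists_coeff_ne {P : Polynomial (Polynomial ℝ)} (hP : P ≠ 0) :
    ∃ m ≤ P.natDegree, ∃ a ≤ cdeg P, (P.coeff m).coeff a ≠ 0 := by
  refine ⟨P.natDegree, le_rfl, (P.coeff P.natDegree).natDegree, natDegree_le_cdeg P _, ?_⟩
  have h1 : P.coeff P.natDegree ≠ 0 := by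
    rw [Polynomial.coeff_natDegree]
    exact Polynomial.leadingCoeff_ne_zero.mpr hP
  rw [Polynomial.coeff_natDegree]
  exact Polynomial.leadingCoeff_ne_zero.mpr h1

/-- a flat sequence -/
lemma flat_iff {w f : ℕ → ℝ} : HasExp w f 0 ↔
    ∀ R : ℕ, ∃ C : ℝ, ∀ n : ℕ, 1 ≤ n → |f n| ≤ C * ((w n)⁻¹) ^ R := by
  unfold HasExp
  simp only [map_zero, zero_mul, Finset.sum_const_zero, sub_zero]

/-! #### T1 -/

noncomputable def GG (P : Polynomial (Polynomial ℝ)) : Polynomial (Polynomial ℝ) :=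
  ∑ m ∈ range (P.natDegree + 1), ∑ a ∈ range (cdeg P + 1),
    Polynomial.monomial (P.natDegree + cdeg P - a - m)
      (Polynomial.monomial a ((P.coeff m).coeff a))

lemma GG_eval (P : Polynomial (Polynomial ℝ)) (u y : ℝ) :
    ((GG P).map (Polynomial.evalRingHom u)).eval y =
      ∑ m ∈ range (P.natDegree + 1), ∑ a ∈ range (cdeg P + 1),
        (P.coeff m).coeff a * u ^ a * y ^ (P.natDegree + cdeg P - a - m) := by
  unfold GG
  rw [Polynomial.map_sum, Polynomial.eval_finsetSum]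
  refine Finset.sum_congr rfl (fun m _ => ?_)
  rw [Polynomial.map_sum, Polynomial.eval_finsetSum]
  refine Finset.sum_congr rfl (fun a _ => ?_)
  rw [Polynomial.map_monomial, Polynomial.eval_monomial, Polynomial.coe_evalRingHom,
    Polynomial.eval_monomial]

lemma GG_ne {P : Polynomial (Polynomial ℝ)} (hP : P ≠ 0) : GG P ≠ 0 := by
  obtain ⟨m0, hm0, a0, ha0, hne⟩ := exists_coeff_ne hP
  intro h
  apply hne
  have h1 := congrArg (fun Q : Polynomial (Polynomial ℝ) =>
    (Q.coeff (P.natDegree + cdeg P - a0 - m0)).coeff a0) h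
  simp only [GG, Polynomial.finsetSum_coeff, Polynomial.coeff_monomial, Polynomial.coeff_zero] at h1
  rw [Finset.sum_eq_single m0, Finset.sum_eq_single a0] at h1
  · simpa using h1
  · intro a ha hne
    split_ifs
    · rw [Polynomial.coeff_monomial, if_neg hne]
    · simp
  · intro h
    exact absurd (Finset.mem_range.mpr (by omega)) h
  · intro m hm hne
    apply Finset.sum_eq_zero
    intro a ha
    rw [Finset.mem_range] at ha hm
    split_ifs with h2
    · rw [Polynomial.coeff_monomial, if_neg]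
      intro h3
      apply hne
      omega
    · simp
  · intro h
    exact absurd (Finset.mem_range.mpr (by omega)) h

lemma alg_g_of_alg_phi {ρ : ℕ → ℝ} {g φ : PowerSeries ℝ} (hpos : ∀ n, 1 ≤ n → 0 < ρ n)
    (hg : HasExp idn ρ g) (hg0 : PowerSeries.coeff 0 g = 1)
    (hφ : HasExp (fun n => (n : ℝ) * ρ n) (fun n => (ρ n)⁻¹) φ)
    (h : IsAlgebraic (Polynomial ℝ) φ) : IsAlgebraic (Polynomial ℝ) g := by
  obtain ⟨P, hP, hPφ⟩ := h
  have hsz := scale_z hpos hg hg0
  have h1 := hφ.aeval hsz P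
  rw [hPφ] at h1
  refine ⟨GG P, GG_ne hP, ?_⟩
  have h2 := hg.aeval scale_idn (GG P)
  refine (h2.unique scale_idn ?_)
  rw [flat_iff] at h1 ⊢
  intro R
  obtain ⟨C, hC⟩ := h1 R
  obtain ⟨B, hB0, hB⟩ := hg.bdd
  obtain ⟨c, hc, hlow⟩ := zs_lower hpos hg hg0
  refine ⟨|C| * (c⁻¹) ^ R * B ^ (P.natDegree + cdeg P), fun n hn => ?_⟩
  have hn0 : (0 : ℝ) < n := by exact_mod_cast hn
  have hρ := hpos n hn
  have e1 : ((GG P).map (Polynomial.evalRingHom ((idn n)⁻¹))).eval (ρ n) =
      ρ n ^ (P.natDegree + cdeg P) *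
        (P.map (Polynomial.evalRingHom (((n : ℝ) * ρ n)⁻¹))).eval ((ρ n)⁻¹) := by
    rw [GG_eval, evalP, Finset.mul_sum]
    refine Finset.sum_congr rfl (fun m hm => ?_)
    rw [Finset.mul_sum]
    refine Finset.sum_congr rfl (fun a ha => ?_)
    rw [Finset.mem_range] at hm ha
    have e2 : ρ n ^ (P.natDegree + cdeg P) =
        ρ n ^ (P.natDegree + cdeg P - a - m) * ρ n ^ a * ρ n ^ m := by
      rw [← pow_add, ← pow_add]
      congr 1
      omega
    have e3 : ρ n ^ a * (((n : ℝ) * ρ n)⁻¹) ^ a = ((idn n)⁻¹) ^ a := by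
      rw [← mul_pow]
      congr 1
      simp only [idn]
      field_simp
    have e4 : ρ n ^ m * ((ρ n)⁻¹) ^ m = 1 := by
      rw [← mul_pow, mul_inv_cancel₀ hρ.ne', one_pow]
    calc (P.coeff m).coeff a * ((idn n)⁻¹) ^ a * ρ n ^ (P.natDegree + cdeg P - a - m)
        = (P.coeff m).coeff a * (ρ n ^ a * (((n : ℝ) * ρ n)⁻¹) ^ a) *
            ρ n ^ (P.natDegree + cdeg P - a - m) * (ρ n ^ m * ((ρ n)⁻¹) ^ m) := by
          rw [e3, e4, mul_one]
      _ = _ := by rw [e2]; ring
  rw [e1, abs_mul, abs_pow]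
  have h3 := hC n hn
  have h4 : |ρ n| ^ (P.natDegree + cdeg P) ≤ B ^ (P.natDegree + cdeg P) :=
    pow_le_pow_left₀ (abs_nonneg _) (hB n hn) _
  have h5 : (((n : ℝ) * ρ n)⁻¹) ^ R ≤ (c⁻¹) ^ R * ((idn n)⁻¹) ^ R := by
    rw [← mul_pow]
    apply pow_le_pow_left₀ (by positivity)
    have e5 : idn n = (n : ℝ) := rfl
    rw [e5, mul_inv, mul_comm]
    exact mul_le_mul_of_nonneg_right (inv_anti₀ hc (hlow n hn)) (by positivity)
  calc |ρ n| ^ (P.natDegree + cdeg P) *
        |(P.map (Polynomial.evalRingHom (((n : ℝ) * ρ n)⁻¹))).eval ((ρ n)⁻¹)|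
      ≤ B ^ (P.natDegree + cdeg P) * (|C| * ((c⁻¹) ^ R * ((idn n)⁻¹) ^ R)) := by
        apply mul_le_mul h4 _ (abs_nonneg _) (by positivity)
        calc _ ≤ C * (((n : ℝ) * ρ n)⁻¹) ^ R := h3
          _ ≤ |C| * (((n : ℝ) * ρ n)⁻¹) ^ R :=
              mul_le_mul_of_nonneg_right (le_abs_self C) (by positivity)
          _ ≤ _ := mul_le_mul_of_nonneg_left h5 (abs_nonneg C)
    _ = _ := by ring

/-! #### T2 -/

noncomputable def HH (P : Polynomial (Polynomial ℝ)) : Polynomial (Polynomial ℝ) :=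
  ∑ m ∈ range (P.natDegree + 1), Polynomial.monomial m
    (∑ a ∈ range (cdeg P + 1),
      Polynomial.C ((P.coeff m).coeff a) * Polynomial.X ^ a * (1 + Polynomial.X) ^ (cdeg P - a))

lemma HH_eval (P : Polynomial (Polynomial ℝ)) (u y : ℝ) :
    ((HH P).map (Polynomial.evalRingHom u)).eval y =
      ∑ m ∈ range (P.natDegree + 1), ∑ a ∈ range (cdeg P + 1),
        (P.coeff m).coeff a * u ^ a * (1 + u) ^ (cdeg P - a) * y ^ m := by
  unfold HH
  rw [Polynomial.map_sum, Polynomial.eval_finsetSum]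
  refine Finset.sum_congr rfl (fun m _ => ?_)
  rw [Polynomial.map_monomial, Polynomial.eval_monomial, Polynomial.coe_evalRingHom,
    Polynomial.eval_finsetSum, Finset.sum_mul]
  refine Finset.sum_congr rfl (fun a _ => ?_)
  simp

lemma HH_ne {P : Polynomial (Polynomial ℝ)} (hP : P ≠ 0) : HH P ≠ 0 := by
  intro h
  apply hP
  apply Polynomial.leadingCoeff_eq_zero.mp
  rw [← Polynomial.coeff_natDegree]
  set m := P.natDegree with hm
  -- the coefficient of `Y ^ m` of `HH P`
  have h1 : (∑ a ∈ range (cdeg P + 1), Polynomial.C ((P.coeff m).coeff a) * Polynomial.X ^ a *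
      (1 + Polynomial.X) ^ (cdeg P - a) : Polynomial ℝ) = 0 := by
    have h2 := congrArg (fun Q : Polynomial (Polynomial ℝ) => Q.coeff m) h
    simp only [HH, Polynomial.finsetSum_coeff, Polynomial.coeff_monomial, Polynomial.coeff_zero]
      at h2
    rw [Finset.sum_eq_single m] at h2
    · simpa using h2
    · intro b _ hb
      rw [if_neg hb]
    · intro h
      exact absurd (Finset.mem_range.mpr (by omega)) h
  apply Polynomial.eq_zero_of_infinite_isRoot
  apply Set.Infinite.mono (s := Set.Ioo (0 : ℝ) 1) _ (Set.Ioo_infinite one_pos)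
  intro v hv
  rw [Set.mem_ofPred_eq, Polynomial.IsRoot.def]
  have hv1 : 0 < 1 - v := by linarith [hv.2]
  have h3 := congrArg (fun p : Polynomial ℝ => p.eval (v / (1 - v))) h1
  simp only [Polynomial.eval_finsetSum, Polynomial.eval_mul, Polynomial.eval_C,
    Polynomial.eval_pow, Polynomial.eval_X, Polynomial.eval_add, Polynomial.eval_one,
    Polynomial.eval_zero] at h3
  have h4 : (1 : ℝ) + v / (1 - v) = (1 - v)⁻¹ := by field_simp; ring
  rw [h4] at h3
  have h5 : (P.coeff m).eval v = (1 - v) ^ (cdeg P) *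
      ∑ a ∈ range (cdeg P + 1), (P.coeff m).coeff a * (v / (1 - v)) ^ a *
        ((1 - v)⁻¹) ^ (cdeg P - a) := by
    rw [Polynomial.eval_eq_sum_range' (n := cdeg P + 1)
      (lt_of_le_of_lt (natDegree_le_cdeg P m) (Nat.lt_succ_self _)), Finset.mul_sum]
    refine Finset.sum_congr rfl (fun a ha => ?_)
    rw [Finset.mem_range] at ha
    have e : (1 - v) ^ cdeg P = (1 - v) ^ a * (1 - v) ^ (cdeg P - a) := by
      rw [← pow_add]
      congr 1
      omega
    rw [e, div_pow, inv_pow]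
    field_simp
  rw [h5, h3, mul_zero]

lemma not_alg_g {ρ : ℕ → ℝ} {g : PowerSeries ℝ} (hg : HasExp idn ρ g)
    (hg0 : PowerSeries.coeff 0 g = 1) (hrec : ∀ n, 1 ≤ n → ρ (n + 1) = ρ n * dn n) :
    ¬ IsAlgebraic (Polynomial ℝ) g := by
  intro halg
  obtain ⟨P, hP, hPg⟩ := id halg
  obtain ⟨D, hD, -, -, hDe⟩ := dn_hasExp
  have h1 := hg.aeval scale_idn P
  rw [hPg] at h1
  -- the shifted sequence
  have hshift : HasExp idn (fun n => ρ (n + 1)) (g * D) :=
    (hg.mul scale_idn hD).congr (fun n hn => (hrec n hn).symm)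
  have h2 := hshift.aeval scale_idn (HH P)
  have h3 : Polynomial.aeval (g * D) (HH P) = 0 := by
    refine h2.unique scale_idn ?_
    rw [flat_iff] at h1 ⊢
    intro R
    obtain ⟨C, hC⟩ := h1 R
    refine ⟨2 ^ cdeg P * |C|, fun n hn => ?_⟩
    have hn0 : (0 : ℝ) < n := by exact_mod_cast hn
    have hn1 : (1 : ℝ) ≤ n := by exact_mod_cast hn
    have e1 : ((HH P).map (Polynomial.evalRingHom ((idn n)⁻¹))).eval (ρ (n + 1)) =
        (1 + (n : ℝ)⁻¹) ^ (cdeg P) *
          (P.map (Polynomial.evalRingHom ((idn (n + 1))⁻¹))).eval (ρ (n + 1)) := by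
      rw [HH_eval, evalP, Finset.mul_sum]
      refine Finset.sum_congr rfl (fun m _ => ?_)
      rw [Finset.mul_sum]
      refine Finset.sum_congr rfl (fun a ha => ?_)
      rw [Finset.mem_range] at ha
      have e2 : (1 + (n : ℝ)⁻¹) ^ cdeg P = (1 + (n : ℝ)⁻¹) ^ a * (1 + (n : ℝ)⁻¹) ^ (cdeg P - a) := by
        rw [← pow_add]
        congr 1
        omega
      have e3 : (1 + (n : ℝ)⁻¹) ^ a * ((idn (n + 1))⁻¹) ^ a = ((idn n)⁻¹) ^ a := by
        rw [← mul_pow]
        congr 1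
        simp only [idn]
        push_cast
        field_simp
      simp only [idn] at e3 ⊢
      rw [e2]
      calc (P.coeff m).coeff a * ((n : ℝ)⁻¹) ^ a * (1 + (n : ℝ)⁻¹) ^ (cdeg P - a) * ρ (n + 1) ^ m
          = (P.coeff m).coeff a * ((1 + (n : ℝ)⁻¹) ^ a * (((n + 1 : ℕ) : ℝ)⁻¹) ^ a) *
              (1 + (n : ℝ)⁻¹) ^ (cdeg P - a) * ρ (n + 1) ^ m := by rw [e3]
        _ = _ := by ring
    rw [e1, abs_mul, abs_of_pos (by positivity), mul_assoc]
    apply mul_le_mul
    · apply pow_le_pow_left₀ (by positivity)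
      have : (n : ℝ)⁻¹ ≤ 1 := inv_le_one_of_one_le₀ hn1
      linarith
    · calc _ ≤ C * ((idn (n + 1))⁻¹) ^ R := hC (n + 1) (by omega)
        _ ≤ |C| * ((idn (n + 1))⁻¹) ^ R :=
            mul_le_mul_of_nonneg_right (le_abs_self C) (by simp only [idn]; positivity)
        _ ≤ |C| * ((idn n)⁻¹) ^ R := by
            apply mul_le_mul_of_nonneg_left _ (abs_nonneg C)
            apply pow_le_pow_left₀ (by simp only [idn]; positivity)
            simp only [idn]
            apply inv_anti₀ hn0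
            push_cast
            linarith
    · exact abs_nonneg _
    · positivity
  have halg2 : IsAlgebraic (Polynomial ℝ) (g * D) := ⟨HH P, HH_ne hP, h3⟩
  have h4 : IsAlgebraic (Polynomial ℝ) ((1 + PowerSeries.X : PowerSeries ℝ)) := by
    have := isAlgebraic_algebraMap (R := Polynomial ℝ) (A := PowerSeries ℝ) (1 + Polynomial.X)
    have e : algebraMap (Polynomial ℝ) (PowerSeries ℝ) (1 + Polynomial.X) =
        1 + PowerSeries.X := by
      rw [map_add, map_one]
      congr 1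
      exact Polynomial.coe_X
    rwa [e] at this
  have h5 : IsAlgebraic (Polynomial ℝ) (g * eS) := by
    have := halg2.mul h4
    rwa [mul_assoc, hDe] at this
  have hgne : g ≠ 0 := by
    intro h
    rw [h, map_zero] at hg0
    exact zero_ne_one hg0
  have h6 : IsAlgebraic (Polynomial ℝ) eS :=
    IsAlgebraic.of_mul (mem_nonZeroDivisors_of_ne_zero hgne) halg h5
  have h7 : Transcendental (Polynomial ℝ) eS := by
    apply trans_of_ode eS _ eS_ode
    rw [← PowerSeries.coeff_zero_eq_constantCoeff_apply, eS, PowerSeries.coeff_mk]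
    simp [eC]
  exact h7 h6

theorem phi_transX {ρ : ℕ → ℝ} {g φ : PowerSeries ℝ} (hpos : ∀ n, 1 ≤ n → 0 < ρ n)
    (hg : HasExp idn ρ g) (hg0 : PowerSeries.coeff 0 g = 1)
    (hφ : HasExp (fun n => (n : ℝ) * ρ n) (fun n => (ρ n)⁻¹) φ)
    (hrec : ∀ n, 1 ≤ n → ρ (n + 1) = ρ n * dn n) :
    Transcendental (Polynomial ℝ) φ :=
  fun h => not_alg_g hg hg0 hrec (alg_g_of_alg_phi hpos hg hg0 hφ h)

end Pool.Agent.H15.LE
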