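import Pool.Agent.H15.LE.DefsL

set_option autoImplicit false

/-! Project LE, file LE-19: the normalised sequence, exceptional integers, growth of `SS`. -/

namespace Pool.Agent.H15.LE

open Finset Filter Topology
open Pool.Agent.H87.TanSum

theorem tendsto_TT_sub_log :
    Tendsto (fun n : ℕ => TT ((n : ℝ) + 1 / 2) - Real.log n) atTop (𝓝 0) := by
  have hN : Tendsto (fun n : ℕ => (n : ℝ) + 1 / 2) atTop atTop :=
    tendsto_atTop_add_const_right _ _ tendsto_natCast_atTop_atTop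
  have hp : ∀ (c : ℝ) (k : ℕ), k ≠ 0 →
      Tendsto (fun n : ℕ => c / ((n : ℝ) + 1 / 2) ^ k) atTop (𝓝 0) := by
    intro c k hk
    exact Tendsto.div_atTop tendsto_const_nhds ((tendsto_pow_atTop hk).comp hN)
  have hlog : Tendsto (fun n : ℕ => Real.log ((n : ℝ) + 1 / 2) - Real.log n) atTop (𝓝 0) := by
    have h1 : Tendsto (fun n : ℕ => (1 : ℝ) + 1 / 2 / n) atTop (𝓝 (1 + 0)) :=
      tendsto_const_nhds.add (Tendsto.div_atTop tendsto_const_nhds tendsto_natCast_atTop_atTop)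
    rw [add_zero] at h1
    have h2 := (Real.continuousAt_log (one_ne_zero)).tendsto.comp h1
    rw [Real.log_one] at h2
    refine h2.congr' ?_
    filter_upwards [eventually_ge_atTop 1] with n hn
    have hn' : (0 : ℝ) < n := by exact_mod_cast hn
    simp only [Function.comp]
    rw [← Real.log_div (by positivity) hn'.ne']
    congr 1
    field_simp
  have h := ((hlog.add (hp (5 / 24) 2 (by norm_num))).add (hp (-19 / 192) 4 (by norm_num))).add
    (hp (755 / 8064) 6 (by norm_num))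
  simp only [add_zero] at h
  refine h.congr (fun n => ?_)
  unfold TT
  ring

theorem tendsto_SS_sub_log : ∃ C0 : ℝ,
    Tendsto (fun n : ℕ => SS n - Real.log n) atTop (𝓝 C0) := by
  obtain ⟨C, hC⟩ := SS_asym
  refine ⟨C, ?_⟩
  have hN : Tendsto (fun n : ℕ => (n : ℝ) + 1 / 2) atTop atTop :=
    tendsto_atTop_add_const_right _ _ tendsto_natCast_atTop_atTop
  have hb : Tendsto (fun n : ℕ => 130 / ((n : ℝ) + 1 / 2) ^ 8) atTop (𝓝 0) :=
    Tendsto.div_atTop tendsto_const_nhds ((tendsto_pow_atTop (by norm_num)).comp hN)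
  have h1 : Tendsto (fun n : ℕ => SS n - (C + TT ((n : ℝ) + 1 / 2))) atTop (𝓝 0) := by
    apply squeeze_zero_norm _ hb
    intro n
    rw [Real.norm_eq_abs]
    exact hC n
  have h2 := (h1.add tendsto_TT_sub_log).add_const C
  simp only [add_zero, zero_add] at h2
  refine h2.congr (fun n => ?_)
  ring

theorem SS_step (n : ℕ) : SS (n + 1) = SS n + Real.arctan (1 / ((n : ℝ) + 1)) := by
  unfold SS
  rw [sum_range_succ]

/-- the normalised sequence `ρ n = z n / n`, `z n = exp (SS n - C0)` -/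
theorem exists_rho : ∃ C0 : ℝ,
    Tendsto (fun n : ℕ => Real.exp (SS n - C0) / n) atTop (𝓝 1) ∧
    (∀ n, 1 ≤ n → Real.exp (SS (n + 1) - C0) / ((n + 1 : ℕ) : ℝ) =
      Real.exp (SS n - C0) / n * dn n) := by
  obtain ⟨C0, hC0⟩ := tendsto_SS_sub_log
  refine ⟨C0, ?_, ?_⟩
  · have h1 : Tendsto (fun n : ℕ => Real.exp (SS n - Real.log n - C0)) atTop (𝓝 1) := by
      have h2 := (hC0.sub_const C0).rexp
      rwa [sub_self, Real.exp_zero] at h2
    refine h1.congr' ?_
    filter_upwards [eventually_ge_atTop 1] with n hn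
    have hn' : (0 : ℝ) < n := by exact_mod_cast hn
    have e : SS n - Real.log n - C0 = SS n - C0 - Real.log n := by ring
    rw [e, Real.exp_sub, Real.exp_log hn']
  · intro n hn
    have hn' : (0 : ℝ) < n := by exact_mod_cast hn
    unfold dn
    rw [SS_step n]
    have e : SS n + Real.arctan (1 / ((n : ℝ) + 1)) - C0 =
        (SS n - C0) + Real.arctan (1 / ((n : ℝ) + 1)) := by ring
    rw [e, Real.exp_add]
    push_cast
    have h2 : (n : ℝ) + 1 ≠ 0 := by positivity
    field_simp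

theorem SS_nonneg (n : ℕ) : 0 ≤ SS n := by
  unfold SS
  apply Finset.sum_nonneg
  intro k _
  exact Real.arctan_nonneg.2 (by positivity)

/-- exceptional integers of order `r` are close to a multiple of `π / 2` -/
theorem exc_near (r : ℕ) (n : ℕ) (h : Exc r n) :
    ∃ l : ℕ, |SS n - l * (Real.pi / 2)| ≤ 2 / (n : ℝ) ^ r := by
  have hpi := Real.pi_pos
  suffices hz : ∃ l : ℤ, |SS n - l * (Real.pi / 2)| ≤ 2 / (n : ℝ) ^ r by
    obtain ⟨l, hl⟩ := hz
    rcases le_total 0 l with h0 | h0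
    · refine ⟨l.toNat, ?_⟩
      have e : ((l.toNat : ℕ) : ℝ) = ((l : ℤ) : ℝ) := by
        rw [← Int.cast_natCast, Int.toNat_of_nonneg h0]
      rw [e]
      exact hl
    · refine ⟨0, le_trans ?_ hl⟩
      have h1 : ((l : ℤ) : ℝ) ≤ 0 := by exact_mod_cast h0
      have h2 := SS_nonneg n
      have h3 : 0 ≤ -(((l : ℤ) : ℝ) * (Real.pi / 2)) := by nlinarith
      rw [Nat.cast_zero, zero_mul, sub_zero, abs_of_nonneg h2,
        abs_of_nonneg (by linarith)]
      linarith
  obtain ⟨hn, h⟩ := h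
  obtain ⟨R, hR, h1, h2⟩ := polar n
  set t : ℝ := n * (Real.pi / 2) - SS n with ht
  have hn' : (1 : ℝ) ≤ n := by exact_mod_cast hn
  have hn8 : (0 : ℝ) < (n : ℝ) ^ r := by positivity
  have e2 : 2 / (n : ℝ) ^ r = 2 * (1 / (n : ℝ) ^ r) := by ring
  rw [e2]
  rcases h with h | h
  · have hr : (n : ℝ) ^ r * |(((ZZ n).re : ℤ) : ℝ)| ≤ |(((ZZ n).im : ℤ) : ℝ)| := by
      exact_mod_cast h
    rw [h1, h2, abs_mul, abs_mul, abs_of_pos hR] at hr
    have hs := Real.abs_sin_le_one t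
    have hc : |Real.cos t| ≤ 1 / (n : ℝ) ^ r := by
      rw [le_div_iff₀ hn8]
      have : R * ((n : ℝ) ^ r * |Real.cos t|) ≤ R * 1 := by nlinarith
      have := le_of_mul_le_mul_left this hR
      linarith
    have hc' : |Real.sin (t + Real.pi / 2)| ≤ 1 / (n : ℝ) ^ r := by
      rw [Real.sin_add_pi_div_two]; exact hc
    obtain ⟨l, hl⟩ := near_zero hc'
    refine ⟨(n : ℤ) + 1 - 2 * l, ?_⟩
    have e : SS n - (((n : ℤ) + 1 - 2 * l : ℤ) : ℝ) * (Real.pi / 2) =
        -(t + Real.pi / 2 - l * Real.pi) := by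
      rw [ht]; push_cast; ring
    rw [e, abs_neg]
    exact hl
  · have hr : (n : ℝ) ^ r * |(((ZZ n).im : ℤ) : ℝ)| ≤ |(((ZZ n).re : ℤ) : ℝ)| := by
      exact_mod_cast h
    rw [h1, h2, abs_mul, abs_mul, abs_of_pos hR] at hr
    have hs := Real.abs_cos_le_one t
    have hc : |Real.sin t| ≤ 1 / (n : ℝ) ^ r := by
      rw [le_div_iff₀ hn8]
      have : R * ((n : ℝ) ^ r * |Real.sin t|) ≤ R * 1 := by nlinarith
      have := le_of_mul_le_mul_left this hR
      linarith
    obtain ⟨l, hl⟩ := near_zero hc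
    refine ⟨(n : ℤ) - 2 * l, ?_⟩
    have e : SS n - (((n : ℤ) - 2 * l : ℤ) : ℝ) * (Real.pi / 2) = -(t - l * Real.pi) := by
      rw [ht]; push_cast; ring
    rw [e, abs_neg]
    exact hl

theorem half_le_arctan {x : ℝ} (h0 : 0 ≤ x) (h1 : x ≤ 1) : x / 2 ≤ Real.arctan x := by
  have hpi := Real.pi_gt_three
  have hc := Real.one_sub_sq_div_two_le_cos (x := x / 2)
  have hc' : (1 : ℝ) / 2 ≤ Real.cos (x / 2) := by nlinarith
  have hs : Real.sin (x / 2) ≤ x / 2 := Real.sin_le (by linarith)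
  have ht : Real.tan (x / 2) ≤ x := by
    rw [Real.tan_eq_sin_div_cos, div_le_iff₀ (by linarith)]
    nlinarith
  have h2 : Real.arctan (Real.tan (x / 2)) = x / 2 :=
    Real.arctan_tan (by linarith) (by linarith)
  rw [← h2]
  exact Real.arctan_strictMono.monotone ht

/-- `SS` grows like `log` -/
theorem SS_bounds : ∃ C : ℝ, 0 < C ∧ ∀ n : ℕ, 1 ≤ n →
    |SS n - Real.log n| ≤ C ∧ 1 / (2 * (n : ℝ) + 2) ≤ SS (n + 1) - SS n := by
  obtain ⟨C0, hC0⟩ := tendsto_SS_sub_log
  obtain ⟨C, hC⟩ := (hC0.norm).bddAbove_range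
  refine ⟨max C 1, by positivity, fun n hn => ⟨?_, ?_⟩⟩
  · have h := hC (Set.mem_range_self n)
    rw [Real.norm_eq_abs] at h
    exact h.trans (le_max_left _ _)
  · have hn' : (1 : ℝ) ≤ n := by exact_mod_cast hn
    rw [SS_step n, add_sub_cancel_left]
    have h1 : (0 : ℝ) ≤ 1 / ((n : ℝ) + 1) := by positivity
    have h2 : 1 / ((n : ℝ) + 1) ≤ 1 := by
      rw [div_le_one (by positivity)]
      linarith
    have h3 := half_le_arctan h1 h2
    have e : 1 / (2 * (n : ℝ) + 2) = 1 / ((n : ℝ) + 1) / 2 := by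
      field_simp
    rw [e]
    exact h3

end Pool.Agent.H15.LE
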