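import Pool.Agent.H15.LE.Ratio
import Pool.Agent.H15.LE.ESer
import Pool.Agent.H15.LE.ZScale
import Pool.Agent.H15.LE.Rho
import Pool.Agent.H15.LE.Key
import Pool.Agent.H15.LE.MagR
import Pool.Agent.H15.LE.PhiTransX
import Pool.Agent.H25.LE.Cnt

set_option autoImplicit false

/-! Project LE: assembly. -/

namespace Pool.Agent.H15.LE

open Finset Filter Topology Pool.Agent.H87.TanSum

lemma SS_mono {n n' : ℕ} (h : n ≤ n') : SS n ≤ SS n' := by
  unfold SS
  apply Finset.sum_le_sum_of_subset_of_nonneg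
  · exact Finset.range_subset_range.mpr h
  · intro k _ _
    apply Real.arctan_nonneg.mpr
    positivity

/-- two exceptional integers with the same multiple of `π / 2` -/
lemma inj_aux {C : ℝ} (hC : ∀ n : ℕ, 1 ≤ n →
    |SS n - Real.log n| ≤ C ∧ 1 / (2 * (n : ℝ) + 2) ≤ SS (n + 1) - SS n) {r l n n' : ℕ}
    (hr : 2 ≤ r) (hn : 10 ≤ n) (hlt : n < n')
    (h : |SS n - l * (Real.pi / 2)| ≤ 2 / (n : ℝ) ^ r)
    (h' : |SS n' - l * (Real.pi / 2)| ≤ 2 / (n' : ℝ) ^ r) : False := by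
  have hn0 : (10 : ℝ) ≤ n := by exact_mod_cast hn
  have hnn : (n : ℝ) ≤ n' := by exact_mod_cast hlt.le
  have h1 : 2 / (n : ℝ) ^ r ≤ 2 / (n : ℝ) ^ 2 := by
    apply div_le_div_of_nonneg_left (by norm_num) (by positivity)
    exact pow_le_pow_right₀ (by linarith) hr
  have h2 : 2 / (n' : ℝ) ^ r ≤ 2 / (n : ℝ) ^ 2 := by
    apply div_le_div_of_nonneg_left (by norm_num) (by positivity)
    calc (n : ℝ) ^ 2 ≤ (n' : ℝ) ^ 2 := by gcongr
      _ ≤ (n' : ℝ) ^ r := pow_le_pow_right₀ (by linarith) hr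
  have h3 := (hC n (by omega)).2
  have h4 : SS (n + 1) ≤ SS n' := SS_mono hlt
  have h5 := (abs_le.mp h).1
  have h6 := (abs_le.mp h').2
  have h7 : 1 / (2 * (n : ℝ) + 2) ≤ 4 / (n : ℝ) ^ 2 := by
    have : 4 / (n : ℝ) ^ 2 = 2 / (n : ℝ) ^ 2 + 2 / (n : ℝ) ^ 2 := by ring
    rw [this]
    linarith
  rw [div_le_div_iff₀ (by positivity) (by positivity)] at h7
  nlinarith

theorem count_exc (ε : ℝ) (hε : 0 < ε) : ∃ (r : ℕ) (C : ℝ), 0 < C ∧ ∀ N : ℕ, 2 ≤ N →
    ∀ T : Finset ℕ, (∀ n ∈ T, Exc r n ∧ n ≤ N) → (T.card : ℝ) ≤ C * (Real.log N) ^ ε := by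
  classical
  obtain ⟨C0, hlim, hrec⟩ := exists_rho
  obtain ⟨D, hD, hD0, hD1, -⟩ := dn_hasExp
  set ρ : ℕ → ℝ := fun n => Real.exp (SS n - C0) / n with hρdef
  have hpos : ∀ n, 1 ≤ n → 0 < ρ n := by
    intro n hn
    have : (0 : ℝ) < n := by exact_mod_cast hn
    simp only [hρdef]
    positivity
  obtain ⟨g, hg, hg0⟩ := ratio_exp hpos hlim hD hD0 hD1 hrec
  have hsc := scale_z hpos hg hg0
  obtain ⟨φ, hφ, hφ0⟩ := zscale hpos hg hg0
  have htr := phi_transX hpos hg hg0 hφ hrec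
  set K : ℝ := Real.exp (-C0) with hK
  have hKpos : 0 < K := Real.exp_pos _
  have hno := noRel_gK hKpos htr
  have hg00 := constantCoeff_gK hKpos hφ0
  have hq : 1 < Real.exp (Real.pi / 2) := by
    rw [Real.one_lt_exp_iff]
    have := Real.pi_pos
    linarith
  set h : ℕ := ⌈1 / ε⌉₊ with hh
  have hh1 : 1 ≤ h := Nat.one_le_ceil_iff.mpr (by positivity)
  have hhε : (1 : ℝ) / h ≤ ε := by
    have h1 : 1 / ε ≤ h := Nat.le_ceil _
    have h2 : (0 : ℝ) < h := by exact_mod_cast hh1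
    rw [div_le_iff₀ hε] at h1
    rw [div_le_iff₀ h2]
    linarith
  obtain ⟨R, hR⟩ := Pool.Agent.H25.LE.count_abs hq hg00 hno h hh1
  obtain ⟨C1, hC1⟩ := key_abs (ρ := ρ) (fun n _ => rfl) hsc hlim hφ R 2
  obtain ⟨CS, hCS0, hCS⟩ := SS_bounds
  -- the multiple
  let l : ℕ → ℕ := fun n => if hn : Exc (R + 2) n then (exc_near (R + 2) n hn).choose else 0
  have hl : ∀ n, Exc (R + 2) n → |SS n - l n * (Real.pi / 2)| ≤ 2 / (n : ℝ) ^ (R + 2) := by
    intro n hn
    simp only [l, dif_pos hn]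
    exact (exc_near (R + 2) n hn).choose_spec
  have hinj : ∀ n n' : ℕ, 10 ≤ n → 10 ≤ n' → Exc (R + 2) n → Exc (R + 2) n' → l n = l n' →
      n = n' := by
    intro n n' hn hn' he he' hll
    rcases lt_trichotomy n n' with h1 | h1 | h1
    · exfalso
      refine inj_aux hCS (by omega : 2 ≤ R + 2) hn h1 (hl n he) ?_
      rw [hll]
      exact hl n' he'
    · exact h1
    · exfalso
      refine inj_aux hCS (by omega : 2 ≤ R + 2) hn' h1 (hl n' he') ?_
      rw [← hll]
      exact hl n he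
  let J : Set ℕ := {i | ∃ n, 10 ≤ n ∧ Exc (R + 2) n ∧ l n = i}
  let x : ℕ → ℤ := fun i => if hi : i ∈ J then ((hi.choose : ℕ) : ℤ) else 0
  have hexp : Pool.Agent.H25.LE.HasExp (Real.exp (Real.pi / 2)) (gK K φ) R J x := by
    refine ⟨C1, fun j hj => ?_⟩
    have h1 := hj.choose_spec
    have h2 : x j = ((hj.choose : ℕ) : ℤ) := by simp only [x, dif_pos hj]
    rw [h2, Int.cast_natCast]
    apply hC1 hj.choose j (by omega)
    have h3 := hl hj.choose h1.2.1
    rw [h1.2.2] at h3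
    exact h3
  obtain ⟨K1, hK1, hcount⟩ := hR J x hexp
  have hlog2 : 0 < Real.log 2 := Real.log_pos (by norm_num)
  have hlog2' : Real.log 2 ≤ 1 := by
    have := Real.log_two_lt_d9
    linarith
  set A : ℝ := 1 + (CS + 3) / Real.log 2 with hA
  have hA0 : 0 < A := by positivity
  refine ⟨R + 2, (10 + K1 * A ^ ((1 : ℝ) / h)) * (Real.log 2) ^ (-ε), by positivity, ?_⟩
  intro N hN T hT
  have hNr : (2 : ℝ) ≤ N := by exact_mod_cast hN
  have hlogN : Real.log 2 ≤ Real.log N := Real.log_le_log (by norm_num) hNr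
  set b : ℝ := Real.log N / Real.log 2 with hb
  have hb1 : 1 ≤ b := by rw [hb, one_le_div hlog2]; exact hlogN
  have hbε : (Real.log 2) ^ (-ε) * (Real.log N) ^ ε = b ^ ε := by
    rw [hb, Real.div_rpow (by linarith) hlog2.le, Real.rpow_neg hlog2.le]
    field_simp
  -- split
  set T1 := T.filter (fun n => n < 10) with hT1
  set T2 := T.filter (fun n => ¬ n < 10) with hT2
  have hsplit : T.card = T1.card + T2.card := by
    rw [hT1, hT2, Finset.card_filter_add_card_filter_not]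
  have hc1 : T1.card ≤ 10 := by
    calc T1.card ≤ (range 10).card := by
          apply Finset.card_le_card
          intro n hn
          rw [Finset.mem_range]
          exact (Finset.mem_filter.mp hn).2
      _ = 10 := Finset.card_range 10
  have hc2 : T2.card = (T2.image l).card := by
    rw [Finset.card_image_of_injOn]
    intro n hn n' hn' hll
    have h1 := Finset.mem_filter.mp (Finset.mem_coe.mp hn)
    have h2 := Finset.mem_filter.mp (Finset.mem_coe.mp hn')
    exact hinj n n' (by omega) (by omega) (hT n h1.1).1 (hT n' h2.1).1 hll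
  set Y : ℕ := ⌈Real.log N + CS + 2⌉₊ with hY
  have hY1 : 1 ≤ Y := Nat.one_le_ceil_iff.mpr (by linarith)
  have hYle : (Y : ℝ) ≤ A * Real.log N := by
    have h1 : (Y : ℝ) < Real.log N + CS + 2 + 1 := Nat.ceil_lt_add_one (by linarith)
    have h2 : (CS + 3) ≤ (CS + 3) / Real.log 2 * Real.log N := by
      rw [div_mul_eq_mul_div, le_div_iff₀ hlog2]
      exact mul_le_mul_of_nonneg_left hlogN (by linarith)
    rw [hA, add_mul, one_mul]
    linarith
  have hc3 : ((T2.image l).card : ℝ) ≤ K1 * (Y : ℝ) ^ ((1 : ℝ) / h) := by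
    apply hcount Y hY1
    intro j hj
    obtain ⟨n, hn, hnj⟩ := Finset.mem_image.mp hj
    have h1 := Finset.mem_filter.mp hn
    have h2 := hT n h1.1
    refine ⟨⟨n, by omega, h2.1, hnj⟩, ?_⟩
    have hn1 : 1 ≤ n := by omega
    have hn1' : (1 : ℝ) ≤ n := by exact_mod_cast hn1
    have h3 := (abs_le.mp (hl n h2.1)).1
    have h4 : 2 / (n : ℝ) ^ (R + 2) ≤ 2 := by
      rw [div_le_iff₀ (by positivity)]
      have := one_le_pow₀ hn1' (n := R + 2)
      linarith
    have h5 := (abs_le.mp (hCS n hn1).1).2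
    have h6 : Real.log n ≤ Real.log N :=
      Real.log_le_log (by linarith) (by exact_mod_cast h2.2)
    have hpi := Real.pi_gt_three
    have h7 : (l n : ℝ) ≤ Real.log N + CS + 2 := by
      have h8 : (0 : ℝ) ≤ l n := Nat.cast_nonneg _
      nlinarith
    have h9 : (l n : ℝ) ≤ Y := h7.trans (Nat.le_ceil _)
    rw [← hnj]
    exact_mod_cast h9
  have hlogNpos : 0 < Real.log N := by linarith
  have h10 : (Y : ℝ) ^ ((1 : ℝ) / h) ≤ A ^ ((1 : ℝ) / h) * b ^ ε := by
    calc (Y : ℝ) ^ ((1 : ℝ) / h) ≤ (A * Real.log N) ^ ((1 : ℝ) / h) :=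
          Real.rpow_le_rpow (by positivity) hYle (by positivity)
      _ = A ^ ((1 : ℝ) / h) * (Real.log N) ^ ((1 : ℝ) / h) :=
          Real.mul_rpow hA0.le hlogNpos.le
      _ ≤ A ^ ((1 : ℝ) / h) * b ^ ε := by
          apply mul_le_mul_of_nonneg_left _ (by positivity)
          calc (Real.log N) ^ ((1 : ℝ) / h) ≤ b ^ ((1 : ℝ) / h) := by
                apply Real.rpow_le_rpow hlogNpos.le _ (by positivity)
                rw [hb, le_div_iff₀ hlog2]
                nlinarith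
            _ ≤ b ^ ε := Real.rpow_le_rpow_of_exponent_le hb1 hhε
  have hb2 : 1 ≤ b ^ ε := Real.one_le_rpow hb1 hε.le
  rw [mul_assoc, hbε]
  have h11 : (T.card : ℝ) = (T1.card : ℝ) + ((T2.image l).card : ℝ) := by
    rw [hsplit, hc2]
    push_cast
    ring
  rw [h11]
  have h12 : (T1.card : ℝ) ≤ 10 * b ^ ε := by
    have : (T1.card : ℝ) ≤ 10 := by exact_mod_cast hc1
    linarith
  have h13 : ((T2.image l).card : ℝ) ≤ K1 * A ^ ((1 : ℝ) / h) * b ^ ε := by
    calc ((T2.image l).card : ℝ) ≤ K1 * (Y : ℝ) ^ ((1 : ℝ) / h) := hc3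
      _ ≤ K1 * (A ^ ((1 : ℝ) / h) * b ^ ε) := mul_le_mul_of_nonneg_left h10 hK1.le
      _ = _ := by ring
  rw [add_mul]
  exact add_le_add h12 h13

/-- integral values -/
theorem count_int (ε : ℝ) (hε : 0 < ε) : ∃ C : ℝ, 0 < C ∧ ∀ N : ℕ, 2 ≤ N →
    (((Icc 1 N).filter (fun n : ℕ => (ZZ n).re ∣ (ZZ n).im)).card : ℝ) ≤
      C * (Real.log N) ^ ε := by
  classical
  obtain ⟨r, C, hC, h⟩ := count_exc ε hε
  obtain ⟨n1, hn1⟩ := integer_extreme_pow r
  have hlog2 : 0 < Real.log 2 := Real.log_pos (by norm_num)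
  refine ⟨C + (n1 : ℝ) * (Real.log 2) ^ (-ε), by positivity, fun N hN => ?_⟩
  have hNr : (2 : ℝ) ≤ N := by exact_mod_cast hN
  have hlogN : Real.log 2 ≤ Real.log N := Real.log_le_log (by norm_num) hNr
  set T := (Icc 1 N).filter (fun n : ℕ => (ZZ n).re ∣ (ZZ n).im) with hT
  have hsplit : T.card = (T.filter (fun n => n < n1)).card + (T.filter (fun n => ¬ n < n1)).card := by
    rw [Finset.card_filter_add_card_filter_not]
  have h1 : (T.filter (fun n => n < n1)).card ≤ n1 := by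
    calc (T.filter (fun n => n < n1)).card ≤ (range n1).card := by
          apply Finset.card_le_card
          intro n hn
          rw [Finset.mem_range]
          exact (Finset.mem_filter.mp hn).2
      _ = n1 := Finset.card_range n1
  have h2 := h N hN (T.filter (fun n => ¬ n < n1)) (by
    intro n hn
    rw [Finset.mem_filter, hT, Finset.mem_filter, Finset.mem_Icc] at hn
    exact ⟨⟨hn.1.1.1, Or.inl (hn1 n (by omega) hn.1.2)⟩, hn.1.1.2⟩)
  have h3 : 1 ≤ (Real.log 2) ^ (-ε) * (Real.log N) ^ ε := by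
    rw [Real.rpow_neg hlog2.le, inv_mul_eq_div, one_le_div (by positivity)]
    exact Real.rpow_le_rpow hlog2.le hlogN hε.le
  rw [hsplit]
  push_cast
  have h4 : ((T.filter (fun n => n < n1)).card : ℝ) ≤ n1 := by exact_mod_cast h1
  have h5 : (n1 : ℝ) ≤ n1 * ((Real.log 2) ^ (-ε) * (Real.log N) ^ ε) :=
    le_mul_of_one_le_right (Nat.cast_nonneg _) h3
  rw [add_mul]
  linarith [h2, h4, h5]

end Pool.Agent.H15.LE
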