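import Pool.Agent.H15.LE.Defs

set_option autoImplicit false

/-! Project LE, row LE-15: the greedy lemma and the circuit lemma. -/

namespace Pool.Agent.H15.LE

open Finset

variable {I : Type} [Fintype I] [DecidableEq I]

omit [DecidableEq I] in
/-- the greedy lemma for relations supported in `S` -/
theorem greedy_aux {A : Type} [Fintype A] [DecidableEq A] (B : Finset (I → ℤ))
    (Ω : Finset (I → ℕ)) (S : Finset A) :
    ∀ L : Finset ((A → (I → ℤ)) × ℤ),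
      (∀ r ∈ L, (∃ i ∈ S, r.1 i ≠ 0) ∧ (∀ i, r.1 i = 0 ∨ r.1 i ∈ B) ∧ ∀ i, i ∉ S → r.1 i = 0) →
      (∀ P : A → (I → ℕ), (∀ i, P i ∈ Ω) →
        ∃ r ∈ L, ∑ i, ∑ l, r.1 i l * (P i l : ℤ) = r.2) →
      ∃ H : Finset ((I → ℤ) × ℤ), H.card ≤ L.card ∧ (∀ h ∈ H, h.1 ∈ B) ∧
        ∀ P ∈ Ω, ∃ h ∈ H, ∑ l, h.1 l * (P l : ℤ) = h.2 := by
  classical
  induction S using Finset.induction_on with
  | empty =>
    intro L hL h
    refine ⟨∅, by simp, by simp, ?_⟩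
    intro P hP
    obtain ⟨r, hr, -⟩ := h (fun _ => P) (fun _ => hP)
    obtain ⟨⟨i, hi, -⟩, -⟩ := hL r hr
    simp at hi
  | insert a S ha ih =>
    intro L hL h
    by_cases hc : ∀ P : A → (I → ℕ), (∀ i, P i ∈ Ω) →
        ∃ r ∈ L.filter (fun r => r.1 a = 0), ∑ i, ∑ l, r.1 i l * (P i l : ℤ) = r.2
    · obtain ⟨H, h1, h2, h3⟩ := ih (L.filter (fun r => r.1 a = 0)) (by
        intro r hr
        rw [Finset.mem_filter] at hr
        obtain ⟨⟨i, hi, hne⟩, hB, hz⟩ := hL r hr.1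
        refine ⟨⟨i, ?_, hne⟩, hB, ?_⟩
        · rcases Finset.mem_insert.1 hi with rfl | hi'
          · exact absurd hr.2 hne
          · exact hi'
        · intro j hj
          by_cases hja : j = a
          · rw [hja]; exact hr.2
          · exact hz j (by simp [hja, hj])) hc
      exact ⟨H, h1.trans (Finset.card_le_card (Finset.filter_subset _ _)), h2, h3⟩
    · push Not at hc
      obtain ⟨P, hP, hno⟩ := hc
      refine ⟨(L.filter (fun r => r.1 a ≠ 0)).image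
        (fun r => (r.1 a, r.2 - ∑ i ∈ univ.erase a, ∑ l, r.1 i l * (P i l : ℤ))), ?_, ?_, ?_⟩
      · exact Finset.card_image_le.trans (Finset.card_le_card (Finset.filter_subset _ _))
      · intro g hg
        obtain ⟨r, hr, rfl⟩ := Finset.mem_image.1 hg
        rw [Finset.mem_filter] at hr
        exact ((hL r hr.1).2.1 a).resolve_left hr.2
      · intro Q hQ
        obtain ⟨r, hr, hreq⟩ := h (Function.update P a Q) (by
          intro i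
          by_cases hi : i = a
          · subst hi; simpa using hQ
          · rw [Function.update_of_ne hi]; exact hP i)
        have hsplit : ∀ Z : A → (I → ℕ), ∑ i, ∑ l, r.1 i l * (Z i l : ℤ) =
            ∑ l, r.1 a l * (Z a l : ℤ) + ∑ i ∈ univ.erase a, ∑ l, r.1 i l * (Z i l : ℤ) := by
          intro Z
          exact (Finset.add_sum_erase univ (fun i => ∑ l, r.1 i l * (Z i l : ℤ))
            (Finset.mem_univ a)).symm
        have hrest : ∑ i ∈ univ.erase a, ∑ l, r.1 i l * ((Function.update P a Q) i l : ℤ) =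
            ∑ i ∈ univ.erase a, ∑ l, r.1 i l * (P i l : ℤ) := by
          refine Finset.sum_congr rfl fun i hi => ?_
          rw [Function.update_of_ne (Finset.ne_of_mem_erase hi)]
        have hne : r.1 a ≠ 0 := by
          intro h0
          refine hno r (Finset.mem_filter.2 ⟨hr, h0⟩) ?_
          rw [← hreq, hsplit, hsplit, hrest]
          simp [h0]
        refine ⟨(r.1 a, r.2 - ∑ i ∈ univ.erase a, ∑ l, r.1 i l * (P i l : ℤ)),
          Finset.mem_image.2 ⟨r, Finset.mem_filter.2 ⟨hr, hne⟩, rfl⟩, ?_⟩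
        show ∑ l, r.1 a l * (Q l : ℤ) = r.2 - ∑ i ∈ univ.erase a, ∑ l, r.1 i l * (P i l : ℤ)
        rw [← hreq, hsplit, hrest, Function.update_self]
        ring

/-- the greedy lemma -/
theorem greedy {A : Type} [Fintype A] [DecidableEq A] (B : Finset (I → ℤ))
    (L : Finset ((A → (I → ℤ)) × ℤ)) (hL : ∀ r ∈ L, (∃ i, r.1 i ≠ 0) ∧ ∀ i, r.1 i = 0 ∨ r.1 i ∈ B)
    (Ω : Finset (I → ℕ))
    (h : ∀ P : A → (I → ℕ), (∀ i, P i ∈ Ω) →
      ∃ r ∈ L, ∑ i, ∑ l, r.1 i l * (P i l : ℤ) = r.2) :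
    ∃ H : Finset ((I → ℤ) × ℤ), H.card ≤ L.card ∧ (∀ h ∈ H, h.1 ∈ B) ∧
      ∀ P ∈ Ω, ∃ h ∈ H, ∑ l, h.1 l * (P l : ℤ) = h.2 := by
  refine greedy_aux B Ω univ L ?_ h
  intro r hr
  obtain ⟨⟨i, hi⟩, hB⟩ := hL r hr
  exact ⟨⟨i, Finset.mem_univ i, hi⟩, hB, fun j hj => absurd (Finset.mem_univ j) hj⟩

/-- circuit lemma, from the statement of `tie` (as a hypothesis) and `greedy` -/
theorem circuit_of_tie {q K : ℝ} (φ : PowerSeries ℝ) (α : I → ℤ)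
    (tie : ∃ (Rn Dg : ℕ) (B : Finset (I → ℤ)), (∀ β ∈ B, NonPar α β) ∧
      ∀ (J : Set ℕ) (x : ℕ → ℤ), App q K φ J x Rn →
      ∃ (m X0 : ℕ) (L : Finset ((AA I Dg → (I → ℤ)) × ℤ × ℤ)), 1 ≤ m ∧
        (∀ r ∈ L, (∃ i, r.1 i ≠ 0) ∧ ∀ i, r.1 i = 0 ∨ r.1 i ∈ B) ∧
        ∀ X : ℕ, X0 ≤ X → ∀ (γ : ℤ) (P : AA I Dg → (I → ℕ)),
          (∀ i, (∀ l, P i l ∈ J ∧ InW m X (P i l)) ∧ ∑ l, α l * (P i l : ℤ) = γ) →
          ∃ r ∈ L, r.2.1 * γ + ∑ i, ∑ l, r.1 i l * (P i l : ℤ) = r.2.2) :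
    ∃ (Rn : ℕ) (B : Finset (I → ℤ)), (∀ β ∈ B, NonPar α β) ∧
      ∀ (J : Set ℕ) (x : ℕ → ℤ), App q K φ J x Rn →
      ∃ (m X0 C : ℕ), 1 ≤ m ∧ ∀ X : ℕ, X0 ≤ X → ∀ (γ : ℤ) (Ω : Finset (I → ℕ)),
        (∀ P ∈ Ω, (∀ l, P l ∈ J ∧ InW m X (P l)) ∧ ∑ l, α l * (P l : ℤ) = γ) →
        ∃ H : Finset ((I → ℤ) × ℤ), H.card ≤ C ∧ (∀ h ∈ H, h.1 ∈ B) ∧
          ∀ P ∈ Ω, ∃ h ∈ H, ∑ l, h.1 l * (P l : ℤ) = h.2 := by
  classical
  obtain ⟨Rn, Dg, B, hB, ht⟩ := tie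
  refine ⟨Rn, B, hB, fun J x hJ => ?_⟩
  obtain ⟨m, X0, L, hm, hL, hX⟩ := ht J x hJ
  refine ⟨m, X0, L.card, hm, fun X hX0 γ Ω hΩ => ?_⟩
  obtain ⟨H, h1, h2, h3⟩ := greedy (A := AA I Dg) B
    (L.image (fun r => (r.1, r.2.2 - r.2.1 * γ))) (by
      intro r hr
      obtain ⟨r', hr', rfl⟩ := Finset.mem_image.1 hr
      exact hL r' hr') Ω (by
      intro P hP
      obtain ⟨r, hr, hreq⟩ := hX X hX0 γ P (fun i => hΩ (P i) (hP i))
      refine ⟨(r.1, r.2.2 - r.2.1 * γ), Finset.mem_image.2 ⟨r, hr, rfl⟩, ?_⟩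
      show ∑ i, ∑ l, r.1 i l * (P i l : ℤ) = r.2.2 - r.2.1 * γ
      rw [← hreq]
      ring)
  exact ⟨H, h1.trans Finset.card_image_le, h2, h3⟩

end Pool.Agent.H15.LE
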