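import Pool.Agent.H15.LE.Defs

set_option autoImplicit false

/-! Project LE (MP_032421_nt), LE-07: formal independence. -/

namespace Pool.Agent.H15.LE

open Finset

/-- `cc` as the coefficient of a shifted power -/
theorem indep_cc_coeff (φ : PowerSeries ℝ) (b m n : ℕ) (e : ℤ) (h : (b : ℤ) - e = n - m) :
    cc φ b e = PowerSeries.coeff n (PowerSeries.X ^ m * φ ^ b) := by
  unfold cc
  rw [PowerSeries.coeff_X_pow_mul']
  by_cases hm : m ≤ n
  · have h1 : e ≤ b := by omega
    have h2 : ((b : ℤ) - e).toNat = n - m := by omega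
    rw [if_pos h1, if_pos hm, h2]
  · have h1 : ¬ e ≤ b := by omega
    rw [if_neg h1, if_neg hm]

/-- independence in one variable -/
theorem indep_one (φ : PowerSeries ℝ) (hφ : Transcendental (Polynomial ℝ) φ) (α2 : ℤ)
    (hα2 : α2 ≠ 0) (D K : ℕ) (H : ℕ → ℕ → ℝ)
    (h : ∀ s : ℤ, ∑ b ∈ range (D + 1), ∑ k ∈ range (K + 1), H b k * cc φ b (s + k * α2) = 0) :
    ∀ b ≤ D, ∀ k ≤ K, H b k = 0 := by
  obtain ⟨M, hM⟩ : ∃ M : ℤ, M = D + K * |α2| := ⟨_, rfl⟩
  let m : ℕ → ℕ → ℕ := fun b k => (M - b + k * α2).toNat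
  have hm : ∀ b ≤ D, ∀ k ≤ K, ((m b k : ℕ) : ℤ) = M - b + k * α2 := by
    intro b hb k hk
    apply Int.toNat_of_nonneg
    have h1 : -((K : ℤ) * |α2|) ≤ k * α2 := by
      have h2 : |(k : ℤ) * α2| ≤ K * |α2| := by
        rw [abs_mul, Nat.abs_cast]
        exact mul_le_mul_of_nonneg_right (by exact_mod_cast hk) (abs_nonneg _)
      exact (abs_le.mp h2).1
    have h3 : (b : ℤ) ≤ D := by exact_mod_cast hb
    linarith
  have hinj : ∀ b ≤ D, ∀ k ≤ K, ∀ k' ≤ K, m b k = m b k' → k = k' := by
    intro b hb k hk k' hk' hkk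
    have h1 := hm b hb k hk
    have h2 := hm b hb k' hk'
    rw [hkk] at h1
    have h3 : (k : ℤ) * α2 = k' * α2 := by linarith
    have h4 := mul_right_cancel₀ hα2 h3
    exact_mod_cast h4
  let Q : ℕ → Polynomial ℝ := fun b => ∑ k ∈ range (K + 1), Polynomial.monomial (m b k) (H b k)
  let P : Polynomial (Polynomial ℝ) := ∑ b ∈ range (D + 1), Polynomial.monomial b (Q b)
  have hQ : ∀ b, (algebraMap (Polynomial ℝ) (PowerSeries ℝ) (Q b)) =
      ∑ k ∈ range (K + 1), PowerSeries.C (H b k) * PowerSeries.X ^ m b k := by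
    intro b
    change algebraMap (Polynomial ℝ) (PowerSeries ℝ)
      (∑ k ∈ range (K + 1), Polynomial.monomial (m b k) (H b k)) = _
    rw [map_sum]
    apply Finset.sum_congr rfl
    intro k _
    rw [← Polynomial.C_mul_X_pow_eq_monomial, map_mul, map_pow, PowerSeries.algebraMap_apply',
      PowerSeries.algebraMap_apply', Polynomial.coe_C, Polynomial.coe_X, PowerSeries.map_C,
      PowerSeries.map_X]
    rfl
  have hP : Polynomial.aeval φ P = 0 := by
    change Polynomial.aeval φ (∑ b ∈ range (D + 1), Polynomial.monomial b (Q b)) = 0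
    rw [map_sum]
    ext n
    rw [map_sum, map_zero, ← h (M - n)]
    apply Finset.sum_congr rfl
    intro b hb
    rw [Polynomial.aeval_monomial, hQ, Finset.sum_mul, map_sum]
    apply Finset.sum_congr rfl
    intro k hk
    have hb' : b ≤ D := by
      have := Finset.mem_range.mp hb
      omega
    have hk' : k ≤ K := by
      have := Finset.mem_range.mp hk
      omega
    rw [mul_assoc, PowerSeries.coeff_C_mul,
      indep_cc_coeff φ b (m b k) n (M - n + k * α2) (by rw [hm b hb' k hk']; ring)]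
  have hP0 : P = 0 := (transcendental_iff.mp hφ) P hP
  intro b hb k hk
  have h1 : P.coeff b = Q b := by
    change (∑ b ∈ range (D + 1), Polynomial.monomial b (Q b)).coeff b = Q b
    rw [Polynomial.finsetSum_coeff]
    rw [Finset.sum_eq_single b]
    · rw [Polynomial.coeff_monomial, if_pos rfl]
    · intro b' _ hb'
      rw [Polynomial.coeff_monomial, if_neg hb']
    · intro hb'
      exact absurd (Finset.mem_range.mpr (by omega)) hb'
  rw [hP0, Polynomial.coeff_zero] at h1
  have h2 : (Q b).coeff (m b k) = H b k := by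
    change (∑ k ∈ range (K + 1), Polynomial.monomial (m b k) (H b k)).coeff (m b k) = H b k
    rw [Polynomial.finsetSum_coeff]
    rw [Finset.sum_eq_single k]
    · rw [Polynomial.coeff_monomial, if_pos rfl]
    · intro k' hk' hne
      rw [Polynomial.coeff_monomial, if_neg]
      intro heq
      apply hne
      have := Finset.mem_range.mp hk'
      exact hinj b hb k' (by omega) k hk heq
    · intro hk'
      exact absurd (Finset.mem_range.mpr (by omega)) hk'
  rw [← h1, Polynomial.coeff_zero] at h2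
  exact h2.symm

variable {I : Type} [Fintype I] [DecidableEq I]

/-- formal independence; `F a k` plays the role of the coefficient of `W ^ (-k)` -/
theorem indep (φ : PowerSeries ℝ) (h0 : PowerSeries.constantCoeff φ = 1)
    (hφ : Transcendental (Polynomial ℝ) φ) (α : I → ℤ) (l0 l2 : I) (hl : l0 ≠ l2)
    (hl0 : 0 < α l0) (hl2 : α l2 ≠ 0) (Dg : ℕ) (F : AA I Dg → ℕ → ℝ)
    (h : ∀ e : I → ℤ, ∀ K : ℕ, (∀ k : ℕ, K < k → (Dg : ℤ) < e l0 + k * α l0) →
      ∑ a : AA I Dg, ∑ k ∈ range (K + 1), F a k * Phi φ (nat a) (fun l => e l + k * α l) = 0) :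
    ∀ a k, F a k = 0 := by
  have step1 : ∀ e : I → ℤ, ∀ K : ℕ, (∀ k : ℕ, K < k → (Dg : ℤ) < e l0 + k * α l0) →
      ∀ b ≤ Dg, ∀ k ≤ K, ∑ a ∈ (univ : Finset (AA I Dg)).filter (fun a => nat a l2 = b),
        F a k * ∏ l ∈ univ.erase l2, cc φ (nat a l) (e l + k * α l) = 0 := by
    intro e K hK
    apply indep_one φ hφ (α l2) hl2 Dg K
    intro s
    rw [← h (Function.update e l2 s) K (by
      intro k hk
      rw [Function.update_of_ne hl]
      exact hK k hk)]
    rw [Finset.sum_comm]
    rw [Finset.sum_comm (s := (univ : Finset (AA I Dg)))]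
    apply Finset.sum_congr rfl
    intro k _
    have h1 : ∀ a ∈ (univ : Finset (AA I Dg)), nat a l2 ∈ range (Dg + 1) := by
      intro a _
      exact Finset.mem_range.mpr (a l2).2
    rw [← Finset.sum_fiberwise_of_maps_to h1]
    apply Finset.sum_congr rfl
    intro b _
    rw [Finset.sum_mul]
    apply Finset.sum_congr rfl
    intro a ha
    have hab : nat a l2 = b := (Finset.mem_filter.mp ha).2
    unfold Phi
    rw [← Finset.mul_prod_erase univ _ (Finset.mem_univ l2)]
    beta_reduce
    rw [Function.update_self, hab, mul_assoc, mul_comm (cc φ b _)]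
    congr 2
    apply Finset.prod_congr rfl
    intro l hlm
    rw [Function.update_of_ne (Finset.ne_of_mem_erase hlm)]
  intro a k
  by_contra hne
  -- a maximal counterexample
  obtain ⟨a0, ha0, hmax⟩ := Finset.exists_max_image
    ((univ : Finset (AA I Dg)).filter (fun a => F a k ≠ 0)) (fun a => ∑ l, nat a l)
    ⟨a, Finset.mem_filter.mpr ⟨Finset.mem_univ _, hne⟩⟩
  have ha0' : F a0 k ≠ 0 := (Finset.mem_filter.mp ha0).2
  apply ha0'
  obtain ⟨e, he⟩ : ∃ e : I → ℤ, e = fun l => (nat a0 l : ℤ) - k * α l := ⟨_, rfl⟩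
  have hee : ∀ l, e l + k * α l = nat a0 l := by
    intro l
    rw [he]
    ring
  obtain ⟨K, hK⟩ : ∃ K : ℕ, K = (Dg + |e l0|).toNat + k := ⟨_, rfl⟩
  have hKk : ∀ k' : ℕ, K < k' → (Dg : ℤ) < e l0 + k' * α l0 := by
    intro k' hk'
    have h1 : (Dg : ℤ) + |e l0| < k' := by
      have : ((Dg : ℤ) + |e l0|).toNat < k' := by omega
      have h3 := Int.self_le_toNat ((Dg : ℤ) + |e l0|)
      have h4 : ((((Dg : ℤ) + |e l0|).toNat : ℕ) : ℤ) < k' := by exact_mod_cast this
      linarith
    have h2 : (k' : ℤ) * 1 ≤ k' * α l0 := by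
      apply mul_le_mul_of_nonneg_left
      · omega
      · positivity
    have h3 := neg_abs_le (e l0)
    linarith
  have hb0 : nat a0 l2 ≤ Dg := Nat.lt_succ_iff.mp (a0 l2).2
  have hkK : k ≤ K := by
    rw [hK]
    exact Nat.le_add_left _ _
  have hs := step1 e K hKk (nat a0 l2) hb0 k hkK
  rw [Finset.sum_eq_single a0] at hs
  · have hp : ∏ l ∈ univ.erase l2, cc φ (nat a0 l) (e l + k * α l) = 1 := by
      apply Finset.prod_eq_one
      intro l _
      rw [hee]
      unfold cc
      rw [if_pos le_rfl, sub_self, Int.toNat_zero, PowerSeries.coeff_zero_eq_constantCoeff,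
        map_pow, h0, one_pow]
    rw [hp, mul_one] at hs
    exact hs
  · intro a' ha' hne'
    have hb : nat a' l2 = nat a0 l2 := (Finset.mem_filter.mp ha').2
    by_cases hF : F a' k = 0
    · rw [hF, zero_mul]
    · have hle := hmax a' (Finset.mem_filter.mpr ⟨Finset.mem_univ _, hF⟩)
      have hex : ∃ l, nat a' l < nat a0 l := by
        by_contra hcon
        have hge : ∀ l, nat a0 l ≤ nat a' l := by
          intro l
          by_contra hlt
          exact hcon ⟨l, by omega⟩
        have heq : ∀ l, nat a0 l = nat a' l := by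
          have h1 : ∑ l, nat a0 l ≤ ∑ l, nat a' l := Finset.sum_le_sum (fun l _ => hge l)
          have h2 : ∑ l, nat a0 l = ∑ l, nat a' l := le_antisymm h1 hle
          intro l
          exact (Finset.sum_eq_sum_iff_of_le (fun l _ => hge l)).mp h2 l (Finset.mem_univ l)
        apply hne'
        funext l
        apply Fin.ext
        exact (heq l).symm
      obtain ⟨l, hll⟩ := hex
      have hl2' : l ≠ l2 := by
        intro hc
        rw [hc, hb] at hll
        exact lt_irrefl _ hll
      have hz : ∏ l ∈ univ.erase l2, cc φ (nat a' l) (e l + k * α l) = 0 := by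
        apply Finset.prod_eq_zero (Finset.mem_erase.mpr ⟨hl2', Finset.mem_univ l⟩)
        rw [hee]
        unfold cc
        rw [if_neg]
        intro hc
        have : nat a0 l ≤ nat a' l := by exact_mod_cast hc
        omega
      rw [hz, mul_zero]
  · intro hnot
    exact (hnot (Finset.mem_filter.mpr ⟨Finset.mem_univ _, rfl⟩)).elim

end Pool.Agent.H15.LE
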