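import Pool.Agent.H15.LE.Defs
import Pool.Agent.H25.LE.Defs

set_option autoImplicit false

/-! Project LE: rescaling of a transcendental power series. -/

namespace Pool.Agent.H15.LE

open Finset

/-- `g` with `N(q^l) = q^l g(q^{-l})` when `N(z) = z φ(1/z)`, `z = K q^l` -/
noncomputable def gK (K : ℝ) (φ : PowerSeries ℝ) : PowerSeries ℝ :=
  PowerSeries.mk (fun k => K * (K⁻¹) ^ k * PowerSeries.coeff k φ)

lemma rescale_gK {K : ℝ} (hK : 0 < K) (φ : PowerSeries ℝ) :
    PowerSeries.rescale K (gK K φ) = PowerSeries.C K * φ := by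
  ext k
  rw [PowerSeries.coeff_rescale, gK, PowerSeries.coeff_mk, PowerSeries.coeff_C_mul]
  have h1 : K ^ k * K⁻¹ ^ k = 1 := by
    rw [← mul_pow, mul_inv_cancel₀ hK.ne', one_pow]
  calc K ^ k * (K * K⁻¹ ^ k * PowerSeries.coeff k φ)
      = (K ^ k * K⁻¹ ^ k) * (K * PowerSeries.coeff k φ) := by ring
    _ = K * PowerSeries.coeff k φ := by rw [h1, one_mul]

lemma rescale_poly {K : ℝ} (Q : Polynomial ℝ) :
    PowerSeries.rescale K (Q : PowerSeries ℝ) =
      ((Q.comp (Polynomial.C K * Polynomial.X) : Polynomial ℝ) : PowerSeries ℝ) := by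
  ext k
  rw [PowerSeries.coeff_rescale, Polynomial.coeff_coe, Polynomial.coeff_coe,
    Polynomial.comp_C_mul_X_coeff, mul_comm]

theorem noRel_gK {K : ℝ} (hK : 0 < K) {φ : PowerSeries ℝ}
    (hφ : Transcendental (Polynomial ℝ) φ) : Pool.Agent.H25.LE.NoRel (gK K φ) := by
  intro N Q h
  -- rescale
  have h1 := congrArg (PowerSeries.rescale K) h
  rw [map_sum, map_zero] at h1
  let P : Polynomial (Polynomial ℝ) := ∑ b : Fin (N + 1),
    Polynomial.monomial (b : ℕ) ((Q b).comp (Polynomial.C K * Polynomial.X) * Polynomial.C (K ^ (b : ℕ)))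
  have h2 : Polynomial.aeval φ P = 0 := by
    rw [← h1]
    simp only [P, map_sum]
    refine Finset.sum_congr rfl (fun b _ => ?_)
    have e1 : PowerSeries.rescale K ((Q b : PowerSeries ℝ) * gK K φ ^ (b : ℕ)) =
        (((Q b).comp (Polynomial.C K * Polynomial.X) : Polynomial ℝ) : PowerSeries ℝ) *
          ((PowerSeries.C K) ^ (b : ℕ) * φ ^ (b : ℕ)) := by
      rw [(PowerSeries.rescale K).map_mul, (PowerSeries.rescale K).map_pow, rescale_gK hK,
        rescale_poly, mul_pow]
    have e2 : (algebraMap (Polynomial ℝ) (PowerSeries ℝ))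
        ((Q b).comp (Polynomial.C K * Polynomial.X) * Polynomial.C (K ^ (b : ℕ))) =
        (((Q b).comp (Polynomial.C K * Polynomial.X) : Polynomial ℝ) : PowerSeries ℝ) *
          (PowerSeries.C K) ^ (b : ℕ) := by
      rw [(algebraMap (Polynomial ℝ) (PowerSeries ℝ)).map_mul]
      congr 1
      rw [← (PowerSeries.C : ℝ →+* PowerSeries ℝ).map_pow]
      change ((Polynomial.C (K ^ (b : ℕ)) : Polynomial ℝ) : PowerSeries ℝ) = _
      rw [Polynomial.coe_C]
    rw [Polynomial.aeval_monomial, e2, e1]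
    ring
  have h3 : P = 0 := by
    by_contra hne
    exact hφ ⟨P, hne, h2⟩
  intro b
  have h4 : P.coeff (b : ℕ) = (Q b).comp (Polynomial.C K * Polynomial.X) * Polynomial.C (K ^ (b : ℕ)) := by
    simp only [P, Polynomial.finsetSum_coeff, Polynomial.coeff_monomial]
    rw [Finset.sum_eq_single b]
    · rw [if_pos rfl]
    · intro c _ hc
      rw [if_neg]
      intro h
      exact hc (Fin.ext h)
    · intro h
      exact absurd (Finset.mem_univ _) h
  rw [h3, Polynomial.coeff_zero] at h4
  have h5 : (Q b).comp (Polynomial.C K * Polynomial.X) = 0 := by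
    have h6 : Polynomial.C (K ^ (b : ℕ)) ≠ 0 := by
      rw [Ne, Polynomial.C_eq_zero]
      positivity
    exact (mul_eq_zero.mp h4.symm).resolve_right h6
  ext k
  have h7 := congrArg (fun p => Polynomial.coeff p k) h5
  simp only [Polynomial.comp_C_mul_X_coeff, Polynomial.coeff_zero] at h7
  rw [Polynomial.coeff_zero]
  exact (mul_eq_zero.mp h7).resolve_right (by positivity)

theorem constantCoeff_gK {K : ℝ} (hK : 0 < K) {φ : PowerSeries ℝ}
    (h0 : PowerSeries.constantCoeff φ = 1) : PowerSeries.constantCoeff (gK K φ) ≠ 0 := by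
  rw [← PowerSeries.coeff_zero_eq_constantCoeff_apply, gK, PowerSeries.coeff_mk,
    PowerSeries.coeff_zero_eq_constantCoeff_apply, h0]
  simp [hK.ne']

end Pool.Agent.H15.LE
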