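import Pool.Agent.H15.LE.Exp
import Pool.Agent.H15.LE.GoodExp

set_option autoImplicit false

/-! Project LE, row 2: a positive sequence with limit one whose ratio of consecutive terms has an
expansion in `1 / n` has itself an expansion in `1 / n`. -/

namespace Pool.Agent.H15.LE

open Finset Filter Topology

/-- if a sequence with an expansion is small, the first coefficients vanish -/
theorem le02_coeff_zero {w f : ℕ → ℝ} {F : PowerSeries ℝ} (hw : Scale w) (h : HasExp w f F)
    {R : ℕ} {C : ℝ} (hC : ∀ n, 1 ≤ n → |f n| ≤ C * ((w n)⁻¹) ^ R) :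
    ∀ k < R, PowerSeries.coeff k F = 0 := by
  intro k
  induction k using Nat.strong_induction_on with
  | _ k ih =>
    intro hk
    obtain ⟨C1, hC1⟩ := h (k + 1)
    obtain ⟨B, hB, hBn⟩ := hw.inv_bdd
    have h1 : ∀ n, 1 ≤ n → |PowerSeries.coeff k F| ≤ (|C1| + |C| * B ^ (R - (k + 1))) * (w n)⁻¹ := by
      intro n hn
      have hp := hw.inv_pos hn
      set t := (w n)⁻¹ with ht
      have h2 := hC1 n hn
      rw [← ht, Finset.sum_range_succ, Finset.sum_eq_zero (fun j hj => by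
        rw [ih j (Finset.mem_range.1 hj) ((Finset.mem_range.1 hj).trans hk), zero_mul]),
        zero_add] at h2
      have h3 := hC n hn
      rw [← ht] at h3
      have h4 : |PowerSeries.coeff k F| * t ^ k ≤
          |C1| * t ^ (k + 1) + |C| * t ^ R := by
        have h5 : |PowerSeries.coeff k F * t ^ k| ≤ |f n - PowerSeries.coeff k F * t ^ k| + |f n| := by
          have h6 := abs_sub_abs_le_abs_sub (PowerSeries.coeff k F * t ^ k) (f n)
          rw [abs_sub_comm] at h6
          linarith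
        rw [abs_mul, abs_of_pos (pow_pos hp k)] at h5
        have h7 : C1 * t ^ (k + 1) ≤ |C1| * t ^ (k + 1) :=
          mul_le_mul_of_nonneg_right (le_abs_self _) (pow_pos hp _).le
        have h8 : C * t ^ R ≤ |C| * t ^ R :=
          mul_le_mul_of_nonneg_right (le_abs_self _) (pow_pos hp _).le
        linarith
      have h9 : t ^ R ≤ B ^ (R - (k + 1)) * t ^ (k + 1) := by
        have : R = (R - (k + 1)) + (k + 1) := by omega
        rw [this, pow_add]
        simp only [add_tsub_cancel_right]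
        exact mul_le_mul_of_nonneg_right (pow_le_pow_left₀ hp.le (hBn n hn) _) (pow_pos hp _).le
      have h10 : |PowerSeries.coeff k F| * t ^ k ≤
          ((|C1| + |C| * B ^ (R - (k + 1))) * t) * t ^ k := by
        calc _ ≤ |C1| * t ^ (k + 1) + |C| * t ^ R := h4
          _ ≤ |C1| * t ^ (k + 1) + |C| * (B ^ (R - (k + 1)) * t ^ (k + 1)) := by gcongr
          _ = _ := by ring
      exact le_of_mul_le_mul_right h10 (pow_pos hp k)
    have h2 : Tendsto (fun n => (|C1| + |C| * B ^ (R - (k + 1))) * (w n)⁻¹) atTop (𝓝 0) := by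
      have := hw.tendsto_inv.const_mul (|C1| + |C| * B ^ (R - (k + 1)))
      rwa [mul_zero] at this
    have h3 : |PowerSeries.coeff k F| ≤ 0 :=
      ge_of_tendsto h2 (by filter_upwards [eventually_ge_atTop 1] with n hn using h1 n hn)
    exact abs_eq_zero.1 (le_antisymm h3 (abs_nonneg _))

theorem le02_idn (n : ℕ) : (idn n)⁻¹ = 1 / (n : ℝ) := by
  rw [idn, one_div]

theorem le02_inv_succ : Good idn (fun n => 1 / ((n : ℝ) + 1)) := by
  have h1 : Good idn (fun n => 1 + 1 / (n : ℝ)) := by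
    have h2 := Good.add (Good.const scale_idn 1) (HasExp.inv_scale scale_idn).good
    simpa [idn] using h2
  have h3 : Good idn (fun n => (1 + 1 / (n : ℝ))⁻¹) := by
    apply Good.inv scale_idn h1
    · refine ⟨1, fun n hn => ?_⟩
      have h4 : (0 : ℝ) < n := by exact_mod_cast hn
      rw [le02_idn]
      have h5 : (1 : ℝ) - (1 + 1 / n) = -(1 / n) := by ring
      rw [h5, abs_neg, abs_of_pos (by positivity)]
      linarith
    · refine ⟨1, one_pos, fun n hn => ?_⟩
      have h4 : (0 : ℝ) < n := by exact_mod_cast hn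
      have : 0 < 1 / (n : ℝ) := by positivity
      linarith
  have h6 := Good.mul scale_idn (HasExp.inv_scale scale_idn).good h3
  intro R
  obtain ⟨P, C, hC⟩ := h6 R
  refine ⟨P, C, fun n hn => ?_⟩
  have h4 : (0 : ℝ) < n := by exact_mod_cast hn
  have h7 : 1 / ((n : ℝ) + 1) = (idn n)⁻¹ * (1 + 1 / (n : ℝ))⁻¹ := by
    rw [idn]
    field_simp
  have h8 := hC n hn
  simp only at h8 ⊢
  rw [h7]
  exact h8

theorem le02_poly {f : ℕ → ℝ} (h : Good idn f) (G : Polynomial ℝ) :
    Good idn (fun n => G.eval (f n)) := by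
  induction G using Polynomial.induction_on' with
  | add p q hp hq =>
    have := Good.add hp hq
    simpa [Polynomial.eval_add] using this
  | monomial k a =>
    have := Good.mul scale_idn (Good.const scale_idn a) (Good.pow scale_idn h k)
    simpa [Polynomial.eval_monomial] using this

/-- Taylor estimate -/
theorem le02_taylor (m : ℕ) {t : ℝ} (ht : 0 ≤ t) :
    |((1 + t) ^ m)⁻¹ - 1 + m * t| ≤ m ^ 2 * t ^ 2 := by
  have h0 : 0 < 1 + t := by linarith
  have hm : (0 : ℝ) ≤ m := Nat.cast_nonneg m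
  have h1 : 1 - m * t ≤ ((1 + t) ^ m)⁻¹ := by
    have h2 : (1 : ℝ) + m * (-(t / (1 + t))) ≤ (1 + (-(t / (1 + t)))) ^ m := by
      apply one_add_mul_le_pow
      have : t / (1 + t) ≤ 1 := by rw [div_le_one h0]; linarith
      linarith
    have h3 : 1 + (-(t / (1 + t))) = (1 + t)⁻¹ := by field_simp; ring
    rw [h3, inv_pow] at h2
    have h4 : t / (1 + t) ≤ t := div_le_self ht (by linarith)
    have h5 : m * (t / (1 + t)) ≤ m * t := by gcongr
    linarith
  have h6 : ((1 + t) ^ m)⁻¹ ≤ 1 - m * t + m ^ 2 * t ^ 2 := by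
    have h7 : 1 + m * t ≤ (1 + t) ^ m := one_add_mul_le_pow (by linarith) m
    have h8 : 0 < 1 + m * t := by positivity
    have h9 : ((1 + t) ^ m)⁻¹ ≤ (1 + m * t)⁻¹ := inv_anti₀ h8 h7
    refine h9.trans ?_
    rw [inv_le_iff_one_le_mul₀ h8]
    have h10 : (1 - m * t + m ^ 2 * t ^ 2) * (1 + m * t) = 1 + (m * t) ^ 3 := by ring
    rw [h10]
    have : 0 ≤ (m * t) ^ 3 := by positivity
    linarith
  rw [abs_le]
  constructor
  · have : 0 ≤ (m : ℝ) ^ 2 * t ^ 2 := by positivity
    linarith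
  · linarith

/-- the main induction: a formal solution of the recursion up to order `R` -/
theorem le02_formal {d : ℕ → ℝ} {D : PowerSeries ℝ} (hd : HasExp idn d D)
    (h0 : PowerSeries.coeff 0 D = 1) (h1 : PowerSeries.coeff 1 D = 0) (R : ℕ) :
    ∃ G : Polynomial ℝ, G.eval 0 = 1 ∧ ∃ C : ℝ, ∀ n : ℕ, 1 ≤ n →
      |G.eval (1 / ((n : ℝ) + 1)) - G.eval (1 / (n : ℝ)) * d n| ≤ C * (1 / (n : ℝ)) ^ (R + 2) := by
  obtain ⟨C2, hC2⟩ := hd 2
  have hd2 : ∀ n : ℕ, 1 ≤ n → |1 - d n| ≤ |C2| * (1 / (n : ℝ)) ^ 2 := by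
    intro n hn
    have h2 := hC2 n hn
    have e : ∑ k ∈ range 2, PowerSeries.coeff k D * ((idn n)⁻¹) ^ k = 1 := by
      rw [Finset.sum_range_succ, Finset.sum_range_succ, Finset.sum_range_zero, h0, h1]
      ring
    rw [e, le02_idn] at h2
    rw [abs_sub_comm]
    have h3 : C2 * (1 / (n : ℝ)) ^ 2 ≤ |C2| * (1 / (n : ℝ)) ^ 2 :=
      mul_le_mul_of_nonneg_right (le_abs_self _) (by positivity)
    exact h2.trans h3
  induction R with
  | zero =>
    refine ⟨1, by simp, |C2|, fun n hn => ?_⟩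
    simpa using hd2 n hn
  | succ R ih =>
    obtain ⟨G, hG0, C, hC⟩ := ih
    -- the error has an expansion
    have hgood : Good idn (fun n => G.eval (1 / ((n : ℝ) + 1)) + (-1) * (G.eval ((idn n)⁻¹) * d n)) := by
      apply Good.add (le02_poly le02_inv_succ G)
      apply Good.mul scale_idn (Good.const scale_idn (-1))
      exact Good.mul scale_idn (HasExp.poly scale_idn G).good hd.good
    obtain ⟨E, hE⟩ := hgood.hasExp scale_idn
    have hE0 : ∀ k < R + 2, PowerSeries.coeff k E = 0 := by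
      apply le02_coeff_zero scale_idn hE (C := C)
      intro n hn
      have h2 := hC n hn
      simp only [le02_idn]
      convert h2 using 2
      ring
    obtain ⟨C3, hC3⟩ := hE (R + 3)
    set c := PowerSeries.coeff (R + 2) E with hc
    have hC4 : ∀ n : ℕ, 1 ≤ n →
        |G.eval (1 / ((n : ℝ) + 1)) - G.eval (1 / (n : ℝ)) * d n - c * (1 / (n : ℝ)) ^ (R + 2)| ≤
          C3 * (1 / (n : ℝ)) ^ (R + 3) := by
      intro n hn
      have h2 := hC3 n hn
      rw [Finset.sum_range_succ, Finset.sum_eq_zero (fun j hj => by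
        rw [hE0 j (Finset.mem_range.1 hj), zero_mul]), zero_add, ← hc] at h2
      simp only [le02_idn] at h2
      convert h2 using 2
      ring
    refine ⟨G + Polynomial.C (c / (R + 1)) * Polynomial.X ^ (R + 1), by simp [hG0],
      |C3| + |c / (R + 1)| * ((R + 1) ^ 2 + |C2|), fun n hn => ?_⟩
    have hn0 : (0 : ℝ) < n := by exact_mod_cast hn
    set t : ℝ := 1 / (n : ℝ) with ht
    have ht0 : 0 < t := by positivity
    have h5 : 1 / ((n : ℝ) + 1) = t * (1 + t)⁻¹ := by rw [ht]; field_simp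
    have h6 := le02_taylor (R + 1) ht0.le
    push_cast at h6
    have hR : (0 : ℝ) < (R : ℝ) + 1 := by positivity
    have h7 : (G + Polynomial.C (c / (R + 1)) * Polynomial.X ^ (R + 1)).eval (1 / ((n : ℝ) + 1)) -
        (G + Polynomial.C (c / (R + 1)) * Polynomial.X ^ (R + 1)).eval t * d n =
        (G.eval (1 / ((n : ℝ) + 1)) - G.eval t * d n - c * t ^ (R + 2)) +
        (c / (R + 1)) * (t ^ (R + 1) * ((((1 + t) ^ (R + 1))⁻¹ - 1 + (R + 1) * t) + (1 - d n))) := by
      simp only [Polynomial.eval_add, Polynomial.eval_mul, Polynomial.eval_C, Polynomial.eval_pow,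
        Polynomial.eval_X]
      rw [h5, mul_pow, inv_pow]
      field_simp
      ring
    rw [h7]
    have h8 := hC4 n hn
    rw [← ht] at h8
    have h9 := hd2 n hn
    rw [← ht] at h9
    have h10 : C3 * t ^ (R + 3) ≤ |C3| * t ^ (R + 3) :=
      mul_le_mul_of_nonneg_right (le_abs_self _) (by positivity)
    refine (abs_add_le _ _).trans ?_
    rw [abs_mul, abs_mul, abs_of_pos (pow_pos ht0 (R + 1))]
    have h11 : |((1 + t) ^ (R + 1))⁻¹ - 1 + (R + 1) * t + (1 - d n)| ≤
        ((R + 1) ^ 2 + |C2|) * t ^ 2 := by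
      refine (abs_add_le _ _).trans ?_
      linarith
    have h12 : |c / (R + 1)| * (t ^ (R + 1) * |((1 + t) ^ (R + 1))⁻¹ - 1 + (R + 1) * t + (1 - d n)|) ≤
        |c / (R + 1)| * (t ^ (R + 1) * (((R + 1) ^ 2 + |C2|) * t ^ 2)) := by
      gcongr
    calc _ ≤ |C3| * t ^ (R + 3) + |c / (R + 1)| * (t ^ (R + 1) * (((R + 1) ^ 2 + |C2|) * t ^ 2)) := by
          linarith
      _ = _ := by ring

/-- telescoping bound -/
theorem le02_tele (m : ℕ) (hm : 1 ≤ m) {k : ℕ} (hk : 1 ≤ k) :
    (1 / (k : ℝ)) ^ (m + 1) ≤ 2 * ((1 / (k : ℝ)) ^ m - (1 / ((k : ℝ) + 1)) ^ m) := by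
  have hk0 : (0 : ℝ) < k := by exact_mod_cast hk
  have hm0 : (1 : ℝ) ≤ m := by exact_mod_cast hm
  have hk1 : (1 : ℝ) ≤ k := by exact_mod_cast hk
  set t : ℝ := 1 / (k : ℝ) with ht
  have ht0 : 0 < t := by positivity
  have ht1 : t ≤ 1 := by rw [ht, div_le_one hk0]; exact hk1
  have h5 : 1 / ((k : ℝ) + 1) = t * (1 + t)⁻¹ := by rw [ht]; field_simp
  have h7 : 1 + m * t ≤ (1 + t) ^ m := one_add_mul_le_pow (by linarith) m
  have h8 : 0 < 1 + m * t := by positivity
  have h9 : ((1 + t) ^ m)⁻¹ ≤ (1 + m * t)⁻¹ := inv_anti₀ h8 h7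
  rw [h5, mul_pow, inv_pow]
  have h10 : (1 + m * t)⁻¹ ≤ 1 - t / 2 := by
    rw [inv_le_iff_one_le_mul₀ h8]
    have h12 : 0 ≤ t * ((m : ℝ) - 1 / 2 - m * t / 2) := by
      apply mul_nonneg ht0.le
      have : (m : ℝ) * t ≤ m * 1 := by gcongr
      linarith
    linarith
  have h11 : t ^ m * ((1 + t) ^ m)⁻¹ ≤ t ^ m * (1 - t / 2) := by
    apply mul_le_mul_of_nonneg_left (h9.trans h10) (by positivity)
  rw [pow_succ]
  nlinarith

theorem ratio_exp {ρ d : ℕ → ℝ} {D : PowerSeries ℝ} (hpos : ∀ n, 1 ≤ n → 0 < ρ n)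
    (hlim : Tendsto ρ atTop (𝓝 1)) (hd : HasExp idn d D)
    (h0 : PowerSeries.coeff 0 D = 1) (h1 : PowerSeries.coeff 1 D = 0)
    (hrec : ∀ n, 1 ≤ n → ρ (n + 1) = ρ n * d n) :
    ∃ g : PowerSeries ℝ, HasExp idn ρ g ∧ PowerSeries.coeff 0 g = 1 := by
  have hgood : Good idn ρ := by
    intro R
    obtain ⟨G, hG0, C, hC⟩ := le02_formal hd h0 h1 R
    -- bounds on `ρ`
    obtain ⟨B, hB⟩ := hlim.bddAbove_range
    have hinv : Tendsto (fun n => (ρ n)⁻¹) atTop (𝓝 1) := by
      have := hlim.inv₀ one_ne_zero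
      rwa [inv_one] at this
    obtain ⟨B', hB'⟩ := hinv.bddAbove_range
    have hBn : ∀ n, ρ n ≤ B := fun n => hB ⟨n, rfl⟩
    have hBn' : ∀ n, (ρ n)⁻¹ ≤ B' := fun n => hB' ⟨n, rfl⟩
    have hB'0 : 0 ≤ B' := (inv_pos.2 (hpos 1 le_rfl)).le.trans (hBn' 1)
    have hB0 : 0 ≤ B := (hpos 1 le_rfl).le.trans (hBn 1)
    set v : ℕ → ℝ := fun n => (ρ n - G.eval (1 / (n : ℝ))) * (ρ n)⁻¹ with hv
    have hstep : ∀ n, 1 ≤ n → |v n - v (n + 1)| ≤ |C| * B' * (1 / (n : ℝ)) ^ (R + 2) := by
      intro n hn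
      have hρ := hpos n hn
      have hρ' := hpos (n + 1) (by omega)
      have hd0 : d n ≠ 0 := by
        intro h
        rw [hrec n hn, h, mul_zero] at hρ'
        exact lt_irrefl _ hρ'
      have h2 : v n - v (n + 1) = (G.eval (1 / ((n : ℝ) + 1)) - G.eval (1 / (n : ℝ)) * d n) *
          (ρ (n + 1))⁻¹ := by
        simp only [hv]
        rw [hrec n hn]
        push_cast
        have := hρ.ne'
        field_simp
        ring
      rw [h2, abs_mul, abs_of_pos (inv_pos.2 hρ')]
      have h3 : C * (1 / (n : ℝ)) ^ (R + 2) ≤ |C| * (1 / (n : ℝ)) ^ (R + 2) :=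
        mul_le_mul_of_nonneg_right (le_abs_self _) (by positivity)
      calc _ ≤ (|C| * (1 / (n : ℝ)) ^ (R + 2)) * B' :=
            mul_le_mul ((hC n hn).trans h3) (hBn' _) (inv_pos.2 hρ').le (by positivity)
        _ = _ := by ring
    have hsum : ∀ n, 1 ≤ n → ∀ j : ℕ, |v n - v (n + j)| ≤
        2 * (|C| * B') * ((1 / (n : ℝ)) ^ (R + 1) - (1 / ((n + j : ℕ) : ℝ)) ^ (R + 1)) := by
      intro n hn j
      induction j with
      | zero => simp
      | succ j ih =>
        have h2 := hstep (n + j) (by omega)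
        have h3 := le02_tele (R + 1) (by omega) (k := n + j) (by omega)
        have h4 : |v n - v (n + (j + 1))| ≤ |v n - v (n + j)| + |v (n + j) - v (n + j + 1)| := by
          have : v n - v (n + (j + 1)) = (v n - v (n + j)) + (v (n + j) - v (n + j + 1)) := by
            rw [← add_assoc]; ring
          rw [this]
          exact abs_add_le _ _
        have h5 : |C| * B' * (1 / ((n + j : ℕ) : ℝ)) ^ (R + 2) ≤ |C| * B' *
            (2 * ((1 / ((n + j : ℕ) : ℝ)) ^ (R + 1) - (1 / (((n + j : ℕ) : ℝ) + 1)) ^ (R + 1))) :=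
          mul_le_mul_of_nonneg_left h3 (by positivity)
        have h6 : (((n + (j + 1) : ℕ)) : ℝ) = ((n + j : ℕ) : ℝ) + 1 := by push_cast; ring
        rw [h6]
        linarith
    have hv0 : Tendsto v atTop (𝓝 0) := by
      have h2 : Tendsto (fun n : ℕ => G.eval (1 / (n : ℝ))) atTop (𝓝 (G.eval 0)) :=
        (G.continuous.tendsto 0).comp tendsto_one_div_atTop_nhds_zero_nat
      have h3 := (hlim.sub h2).mul hinv
      rw [hG0, sub_self, zero_mul] at h3
      exact h3
    have hvb : ∀ n, 1 ≤ n → |v n| ≤ 2 * (|C| * B') * (1 / (n : ℝ)) ^ (R + 1) := by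
      intro n hn
      have h2 : Tendsto (fun j => |v n - v (n + j)|) atTop (𝓝 |v n - 0|) := by
        apply Tendsto.abs
        apply Tendsto.sub tendsto_const_nhds
        have := (tendsto_add_atTop_iff_nat n).2 hv0
        simpa [add_comm] using this
      rw [sub_zero] at h2
      refine le_of_tendsto h2 (Eventually.of_forall fun j => (hsum n hn j).trans ?_)
      apply mul_le_mul_of_nonneg_left _ (by positivity)
      have : 0 ≤ (1 / ((n + j : ℕ) : ℝ)) ^ (R + 1) := by positivity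
      linarith
    refine ⟨G, 2 * (|C| * B') * B, fun n hn => ?_⟩
    have hρ := hpos n hn
    have hn1 : (1 : ℝ) ≤ n := by exact_mod_cast hn
    rw [le02_idn]
    have h2 : ρ n - G.eval (1 / (n : ℝ)) = v n * ρ n := by
      simp only [hv]
      field_simp
    rw [h2, abs_mul, abs_of_pos hρ]
    have h3 : (1 / (n : ℝ)) ^ (R + 1) ≤ (1 / (n : ℝ)) ^ R := by
      apply pow_le_pow_of_le_one (by positivity) _ (by omega)
      rw [div_le_one (by linarith)]
      exact hn1
    calc |v n| * ρ n ≤ (2 * (|C| * B') * (1 / (n : ℝ)) ^ (R + 1)) * B :=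
          mul_le_mul (hvb n hn) (hBn n) hρ.le (by positivity)
      _ ≤ (2 * (|C| * B') * (1 / (n : ℝ)) ^ R) * B := by gcongr
      _ = _ := by ring
  obtain ⟨g, hg⟩ := hgood.hasExp scale_idn
  refine ⟨g, hg, ?_⟩
  obtain ⟨C, hC⟩ := hg 1
  have h2 : Tendsto ρ atTop (𝓝 (PowerSeries.coeff 0 g)) := by
    rw [tendsto_iff_norm_sub_tendsto_zero]
    have h3 : Tendsto (fun n => C * (idn n)⁻¹) atTop (𝓝 0) := by
      have := (scale_idn.tendsto_inv).const_mul C
      rwa [mul_zero] at this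
    apply squeeze_zero' (Eventually.of_forall fun n => norm_nonneg _) _ h3
    filter_upwards [eventually_ge_atTop 1] with n hn
    have h4 := hC n hn
    simpa using h4
  exact (tendsto_nhds_unique h2 hlim)

end Pool.Agent.H15.LE
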